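import Pool.Agent.Lib.MP_7906d6_an.Q.Defs

/-!
Bidegrees, Euler identities, conjugation.
-/

namespace Pool.Agent.Lib.MP_7906d6_an.Q

open MvPolynomial MeasureTheory Finset Matrix
open scoped ComplexConjugate

variable {m : ℕ}

theorem wh_eval₂ {σ τ : Type} {w : σ → ℕ} {w' : τ → ℕ} (f : ℂ →+* ℂ)
    (g : σ → MvPolynomial τ ℂ) (hg : ∀ s, IsWeightedHomogeneous w' (g s) (w s))
    {φ : MvPolynomial σ ℂ} {n : ℕ} (h : IsWeightedHomogeneous w φ n) :
    IsWeightedHomogeneous w' (eval₂ ((C : ℂ →+* MvPolynomial τ ℂ).comp f) g φ) n := by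
  induction h using IsWeightedHomogeneous.induction_on with
  | zero => exact isWeightedHomogeneous_zero _ _ _
  | add p q _ _ hp hq =>
    rw [eval₂_add]
    exact hp.add hq
  | monomial d r hr =>
    rw [eval₂_monomial, ← hr, Finsupp.weight_apply]
    exact (IsWeightedHomogeneous.prod _ _ _ fun s _ => (hg s).pow (d s)).C_mul _

theorem eval_scale {σ : Type} {φ : MvPolynomial σ ℂ} {n : ℕ}
    (h : IsWeightedHomogeneous (1 : σ → ℕ) φ n) (t : ℂ) (x : σ → ℂ) :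
    eval (fun s => t * x s) φ = t ^ n * eval x φ := by
  induction h using IsWeightedHomogeneous.induction_on with
  | zero => simp
  | add p q _ _ hp hq => rw [map_add, map_add, hp, hq, mul_add]
  | monomial d r hr =>
    rw [eval_monomial, eval_monomial, ← hr, Finsupp.weight_apply]
    simp only [Finsupp.prod, Finsupp.sum, mul_pow, prod_mul_distrib, prod_pow_eq_pow_sum,
      Pi.one_apply, smul_eq_mul, mul_one]
    ring

theorem eval_bound {σ : Type} {φ : MvPolynomial σ ℂ} {n : ℕ}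
    (h : IsWeightedHomogeneous (1 : σ → ℕ) φ n) : ∃ c : ℝ, 0 ≤ c ∧ ∀ (x : σ → ℂ) (ρ : ℝ),
      0 ≤ ρ → (∀ s, ‖x s‖ ≤ ρ) → ‖eval x φ‖ ≤ c * ρ ^ n := by
  induction h using IsWeightedHomogeneous.induction_on with
  | zero => exact ⟨0, le_rfl, fun x ρ _ _ => by simp⟩
  | add p q _ _ hp hq =>
    obtain ⟨c, hc, hb⟩ := hp
    obtain ⟨c', hc', hb'⟩ := hq
    refine ⟨c + c', add_nonneg hc hc', fun x ρ h0 h1 => ?_⟩
    rw [map_add, add_mul]
    exact (norm_add_le _ _).trans (add_le_add (hb x ρ h0 h1) (hb' x ρ h0 h1))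
  | monomial d r hr =>
    refine ⟨‖r‖, norm_nonneg _, fun x ρ h0 h1 => ?_⟩
    rw [eval_monomial, norm_mul, ← hr, Finsupp.weight_apply]
    refine mul_le_mul_of_nonneg_left ?_ (norm_nonneg _)
    simp only [Finsupp.prod, Finsupp.sum, Pi.one_apply, smul_eq_mul, mul_one, norm_prod, norm_pow,
      ← prod_pow_eq_pow_sum]
    exact prod_le_prod (fun s _ => pow_nonneg (norm_nonneg _) _)
      fun s _ => pow_le_pow_left₀ (norm_nonneg _) (h1 s) _

theorem Bi.hom {p q : ℕ} {φ : P m} (h : Bi p q φ) :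
    IsWeightedHomogeneous (1 : Fin m ⊕ Fin m → ℕ) φ (p + q) := by
  intro d hd
  rw [← h.1 hd, ← h.2 hd]
  simp only [Finsupp.weight_apply, Finsupp.sum, ← sum_add_distrib]
  refine sum_congr rfl fun s _ => ?_
  rcases s with a | a <;> simp

theorem bi_Xl (a : Fin m) : Bi 1 0 (X (Sum.inl a) : P m) :=
  ⟨isWeightedHomogeneous_X _ _ _, isWeightedHomogeneous_X _ _ _⟩

theorem bi_Xr (a : Fin m) : Bi 0 1 (X (Sum.inr a) : P m) :=
  ⟨isWeightedHomogeneous_X _ _ _, isWeightedHomogeneous_X _ _ _⟩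

theorem bar_X (s : Fin m ⊕ Fin m) : bar (X s : P m) = X s.swap := by
  simp [bar]

theorem Bi.add {p q : ℕ} {φ ψ : P m} (h : Bi p q φ) (h' : Bi p q ψ) : Bi p q (φ + ψ) := by
  exact ⟨h.1.add h'.1, h.2.add h'.2⟩

theorem Bi.mul {p q p' q' : ℕ} {φ ψ : P m} (h : Bi p q φ) (h' : Bi p' q' ψ) :
    Bi (p + p') (q + q') (φ * ψ) := by
  exact ⟨h.1.mul h'.1, h.2.mul h'.2⟩

theorem Bi.pow {p q : ℕ} {φ : P m} (h : Bi p q φ) (n : ℕ) : Bi (n * p) (n * q) (φ ^ n) := by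
  exact ⟨h.1.pow n, h.2.pow n⟩

theorem Bi.smul {p q : ℕ} {φ : P m} (h : Bi p q φ) (c : ℂ) : Bi p q (c • φ) := by
  rw [smul_eq_C_mul]
  exact ⟨h.1.C_mul c, h.2.C_mul c⟩

theorem Bi.C_mul {p q : ℕ} {φ : P m} (h : Bi p q φ) (c : ℂ) : Bi p q (C c * φ) := by
  exact ⟨h.1.C_mul c, h.2.C_mul c⟩

theorem Bi.neg {p q : ℕ} {φ : P m} (h : Bi p q φ) : Bi p q (-φ) := by
  exact ⟨h.1.neg, h.2.neg⟩

theorem Bi.sub {p q : ℕ} {φ ψ : P m} (h : Bi p q φ) (h' : Bi p q ψ) : Bi p q (φ - ψ) := by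
  exact ⟨h.1.sub h'.1, h.2.sub h'.2⟩

theorem bi_zero (p q : ℕ) : Bi p q (0 : P m) := by
  exact ⟨isWeightedHomogeneous_zero _ _ _, isWeightedHomogeneous_zero _ _ _⟩

theorem bi_C (c : ℂ) : Bi 0 0 (C c : P m) := by
  exact ⟨isWeightedHomogeneous_C _ _, isWeightedHomogeneous_C _ _⟩

theorem bi_sum {ι : Type} {s : Finset ι} {p q : ℕ} {φ : ι → P m} (h : ∀ i ∈ s, Bi p q (φ i)) :
    Bi p q (∑ i ∈ s, φ i) := by
  exact ⟨IsWeightedHomogeneous.sum _ _ _ fun i hi => (h i hi).1,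
    IsWeightedHomogeneous.sum _ _ _ fun i hi => (h i hi).2⟩

theorem bi_prod {ι : Type} {s : Finset ι} {p q : ι → ℕ} {φ : ι → P m}
    (h : ∀ i ∈ s, Bi (p i) (q i) (φ i)) : Bi (∑ i ∈ s, p i) (∑ i ∈ s, q i) (∏ i ∈ s, φ i) := by
  exact ⟨IsWeightedHomogeneous.prod _ _ _ fun i hi => (h i hi).1,
    IsWeightedHomogeneous.prod _ _ _ fun i hi => (h i hi).2⟩

theorem bi_R : Bi 1 1 (R m) := by
  exact bi_sum fun a _ => (bi_Xl a).mul (bi_Xr a)

theorem bi_R_pow (n : ℕ) : Bi n n (R m ^ n) := by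
  simpa using (bi_R (m := m)).pow n

theorem bi_hol {p : MvPolynomial (Fin m) ℂ} {e : ℕ} (h : p.IsHomogeneous e) : Bi e 0 (hol p) := by
  have e1 : hol p = eval₂ ((C : ℂ →+* P m).comp (RingHom.id ℂ)) (fun a => X (Sum.inl a)) p := by
    rw [hol, rename_eq_aeval, RingHom.comp_id]
    rfl
  rw [e1]
  refine ⟨wh_eval₂ (w := 1) _ _ (fun a => (bi_Xl a).1) h,
    wh_eval₂ (w := fun _ => 0) _ _ (fun a => (bi_Xl a).2) fun d _ => ?_⟩
  simp [Finsupp.weight_apply]

theorem Bi.bar {p q : ℕ} {φ : P m} (h : Bi p q φ) : Bi q p (bar φ) := by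
  refine ⟨wh_eval₂ _ _ (fun s => ?_) h.2, wh_eval₂ _ _ (fun s => ?_) h.1⟩
  · rcases s with a | a
    · exact (bi_Xr a).1
    · exact (bi_Xl a).1
  · rcases s with a | a
    · exact (bi_Xr a).2
    · exact (bi_Xl a).2

theorem Bi.dl {p q : ℕ} {φ : P m} (h : Bi (p + 1) q φ) (a : Fin m) :
    Bi p q (pderiv (Sum.inl a) φ) := by
  exact ⟨h.1.pderiv rfl, h.2.pderiv rfl⟩

theorem Bi.dr {p q : ℕ} {φ : P m} (h : Bi p (q + 1) φ) (a : Fin m) :
    Bi p q (pderiv (Sum.inr a) φ) := by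
  exact ⟨h.1.pderiv rfl, h.2.pderiv rfl⟩

theorem Bi.euler_l {p q : ℕ} {φ : P m} (h : Bi p q φ) :
    ∑ a, X (Sum.inl a) * pderiv (Sum.inl a) φ = (p : ℂ) • φ := by
  have := h.1.sum_weight_X_mul_pderiv
  rw [Fintype.sum_sum_type] at this
  simp only [Sum.elim_inl, Sum.elim_inr, one_smul, zero_smul, sum_const_zero, add_zero] at this
  rw [this, Nat.cast_smul_eq_nsmul]

theorem Bi.euler_r {p q : ℕ} {φ : P m} (h : Bi p q φ) :
    ∑ a, X (Sum.inr a) * pderiv (Sum.inr a) φ = (q : ℂ) • φ := by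
  have := h.2.sum_weight_X_mul_pderiv
  rw [Fintype.sum_sum_type] at this
  simp only [Sum.elim_inl, Sum.elim_inr, one_smul, zero_smul, sum_const_zero, zero_add] at this
  rw [this, Nat.cast_smul_eq_nsmul]

theorem Bi.const {φ : P m} (h : Bi 0 0 φ) : ∃ c, φ = C c := by
  have h1 : φ.IsHomogeneous 0 := h.hom
  rw [← totalDegree_zero_iff_isHomogeneous, totalDegree_eq_zero_iff_eq_C] at h1
  exact ⟨_, h1⟩

theorem bar_C (c : ℂ) : bar (C c : P m) = C (conj c) := by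
  simp [bar]

theorem bar_bar (φ : P m) : bar (bar φ) = φ := by
  induction φ using MvPolynomial.induction_on with
  | C c => rw [bar_C, bar_C, Complex.conj_conj]
  | add p q hp hq => rw [map_add, map_add, hp, hq]
  | mul_X p s hp => rw [map_mul, map_mul, hp, bar_X, bar_X, Sum.swap_swap]

theorem bar_R : bar (R m) = R m := by
  rw [R, map_sum]
  refine sum_congr rfl fun a _ => ?_
  rw [map_mul, bar_X, bar_X, Sum.swap_inl, Sum.swap_inr, mul_comm]

theorem pderiv_bar (s : Fin m ⊕ Fin m) (φ : P m) : pderiv s (bar φ) = bar (pderiv s.swap φ) := by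
  induction φ using MvPolynomial.induction_on with
  | C c => rw [bar_C, pderiv_C, pderiv_C, map_zero]
  | add p q hp hq => simp only [map_add, hp, hq]
  | mul_X p t hp =>
    rw [map_mul, pderiv_mul, pderiv_mul, hp, map_add, map_mul, map_mul, bar_X]
    congr 2
    by_cases e : t = s.swap
    · rw [e, Sum.swap_swap, pderiv_X_self, pderiv_X_self, map_one]
    · rw [pderiv_X_of_ne e, map_zero, pderiv_X_of_ne]
      intro e'
      exact e (by rw [← e', Sum.swap_swap])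

theorem pderiv_comm (s s' : Fin m ⊕ Fin m) (φ : P m) :
    pderiv s (pderiv s' φ) = pderiv s' (pderiv s φ) := by
  have hX : ∀ a b t : Fin m ⊕ Fin m, pderiv a (pderiv b (X t : P m)) = 0 := fun a b t => by
    by_cases e : t = b
    · rw [e, pderiv_X_self, pderiv_one]
    · rw [pderiv_X_of_ne e, map_zero]
  induction φ using MvPolynomial.induction_on with
  | C c => simp only [pderiv_C, map_zero]
  | add p q hp hq => simp only [map_add, hp, hq]
  | mul_X p t hp =>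
    simp only [pderiv_mul, map_add, hX, hp]
    ring

theorem Lam_add (φ ψ : P m) : Lam (φ + ψ) = Lam φ + Lam ψ := by
  simp only [Lam, map_add, sum_add_distrib]

theorem Lam_smul (c : ℂ) (φ : P m) : Lam (c • φ) = c • Lam φ := by
  simp only [Lam, Derivation.map_smul, smul_sum]

theorem Lam_sum {ι : Type} (s : Finset ι) (φ : ι → P m) :
    Lam (∑ i ∈ s, φ i) = ∑ i ∈ s, Lam (φ i) := by
  simp only [Lam, map_sum]
  exact sum_comm

theorem Lam_bar (φ : P m) : Lam (bar φ) = bar (Lam φ) := by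
  rw [Lam, Lam, map_sum]
  refine sum_congr rfl fun a _ => ?_
  rw [pderiv_bar, pderiv_bar, Sum.swap_inl, Sum.swap_inr, pderiv_comm]

theorem Har.bar {k : ℕ} {h : P m} (hh : Har k h) : Har k (bar h) := by
  exact ⟨hh.1.bar, by rw [Lam_bar, hh.2, map_zero]⟩

theorem har_comb {ι : Type} [Fintype ι] {k : ℕ} {h : ι → P m} (hh : ∀ o, Har k (h o))
    (c : ι → ℂ) : Har k (∑ o, C (c o) * h o) := by
  refine ⟨bi_sum fun o _ => (hh o).1.C_mul _, ?_⟩
  rw [Lam_sum]
  refine sum_eq_zero fun o _ => ?_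
  rw [← smul_eq_C_mul, Lam_smul, (hh o).2, smul_zero]

theorem Bi.ev_smul {p q : ℕ} {φ : P m} (h : Bi p q φ) (t : ℝ) (w : Fin m → ℂ) :
    ev (t • w) φ = (t : ℂ) ^ (p + q) * ev w φ := by
  have e : Sum.elim (t • w) (star (t • w)) = fun s => (t : ℂ) * Sum.elim w (star w) s := by
    funext s
    rcases s with a | a <;> simp
  rw [ev, ev, e]
  exact eval_scale h.hom _ _

theorem continuous_ev (φ : P m) : Continuous fun w => ev w φ := by
  refine (MvPolynomial.continuous_eval φ).comp (continuous_pi fun s => ?_)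
  rcases s with a | a
  · exact continuous_apply a
  · exact (continuous_apply a).star

/-- A bihomogeneous polynomial is bounded by a multiple of the power of the norm. -/
theorem Bi.bound {e : ℕ} {φ : P m} (h : Bi e e φ) :
    ∃ c : ℝ, 0 < c ∧ ∀ w, ‖ev w φ‖ ≤ c * (∑ a, ‖w a‖ ^ 2) ^ e := by
  obtain ⟨c, hc, hb⟩ := eval_bound h.hom
  refine ⟨c + 1, by linarith, fun w => ?_⟩
  have h0 : 0 ≤ ∑ a, ‖w a‖ ^ 2 := sum_nonneg fun a _ => sq_nonneg _
  have h1 : ∀ a, ‖w a‖ ≤ Real.sqrt (∑ a, ‖w a‖ ^ 2) := fun a =>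
    Real.le_sqrt_of_sq_le (single_le_sum (f := fun a => ‖w a‖ ^ 2) (fun a _ => sq_nonneg _)
      (mem_univ a))
  have h2 := hb (Sum.elim w (star w)) (Real.sqrt (∑ a, ‖w a‖ ^ 2)) (Real.sqrt_nonneg _) fun s => by
    rcases s with a | a
    · exact h1 a
    · simpa using h1 a
  rw [← two_mul, pow_mul, Real.sq_sqrt h0] at h2
  refine h2.trans (mul_le_mul_of_nonneg_right (by linarith) (pow_nonneg h0 _))

end Pool.Agent.Lib.MP_7906d6_an.Q
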