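import Pool.Agent.Lib.MP_7906d6_an.Q.Mom

/-!
Radial moments against a function that is constant on rays.
-/

namespace Pool.Agent.Lib.MP_7906d6_an.Q

open MvPolynomial MeasureTheory Finset Matrix
open scoped ComplexConjugate

variable {m : ℕ}

/-- The squared norm as a real number. -/
noncomputable def coneR (w : Fin m → ℂ) : ℝ := ∑ a, ‖w a‖ ^ 2

theorem coneR_nonneg (w : Fin m → ℂ) : 0 ≤ coneR w := sum_nonneg fun _ _ => sq_nonneg _

theorem coneR_smul (s : ℝ) (w : Fin m → ℂ) : coneR (s • w) = s ^ 2 * coneR w := by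
  simp only [coneR, Pi.smul_apply, norm_smul, mul_pow, mul_sum, Real.norm_eq_abs, sq_abs]

theorem coneR_cont : Continuous (coneR : (Fin m → ℂ) → ℝ) := by
  unfold coneR
  fun_prop

theorem cone_int (D : ℕ) {s : ℝ} (hs : s ≠ 0) :
    Integrable fun w : Fin m → ℂ => Real.exp (-(s ^ 2 * coneR w)) * coneR w ^ D := by
  have h1 : Integrable fun w : Fin m → ℂ => Real.exp (-coneR w) * coneR w ^ D := by
    refine (int_gw (R m ^ D)).norm.congr (Filter.Eventually.of_forall fun w => ?_)
    have e : ev w (R m) = (coneR w : ℂ) := ev_R w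
    have e' : gw w = Real.exp (-coneR w) := rfl
    simp only [map_pow, e, e', norm_mul, norm_pow, Complex.norm_real, Real.norm_eq_abs,
      abs_of_nonneg (coneR_nonneg w), abs_of_pos (Real.exp_pos _)]
  refine ((h1.comp_smul hs).const_mul ((s ^ 2) ^ D)⁻¹).congr
    (Filter.Eventually.of_forall fun w => ?_)
  simp only [coneR_smul, mul_pow]
  field_simp

theorem cone_step (hm : 1 ≤ m) {F : (Fin m → ℂ) → ℂ} (hF : Measurable F) {c : ℝ}
    (hb : ∀ w, ‖F w‖ ≤ c) (hs : ∀ t : ℝ, 0 < t → ∀ w, F (t • w) = F w) (D : ℕ) :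
    ∫ w : Fin m → ℂ, (gw w : ℂ) * (F w * ev w (R m) ^ (D + 1)) =
      ((m : ℂ) + D) * ∫ w : Fin m → ℂ, (gw w : ℂ) * (F w * ev w (R m) ^ D) := by
  have e : ∀ w : Fin m → ℂ, ev w (R m) = (coneR w : ℂ) := ev_R
  have e' : ∀ w : Fin m → ℂ, gw w = Real.exp (-coneR w) := fun _ => rfl
  simp only [e, e']
  have hr := (coneR_cont (m := m)).measurable
  obtain ⟨f, hf⟩ : ∃ f : ℝ → (Fin m → ℂ) → ℂ, ∀ s w,
      f s w = (Real.exp (-(s ^ 2 * coneR w)) : ℂ) * (F w * (coneR w : ℂ) ^ D) :=
    ⟨_, fun _ _ => rfl⟩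
  obtain ⟨g, hg⟩ : ∃ g : ℝ → (Fin m → ℂ) → ℂ, ∀ s w, g s w =
      ((Real.exp (-(s ^ 2 * coneR w)) * -(2 * s * coneR w) : ℝ) : ℂ) *
        (F w * (coneR w : ℂ) ^ D) := ⟨_, fun _ _ => rfl⟩
  have hfm : ∀ s, AEStronglyMeasurable (f s) volume := fun s => by
    rw [funext (hf s)]
    exact Measurable.aestronglyMeasurable (by fun_prop)
  have hgm : AEStronglyMeasurable (g 1) volume := by
    rw [funext (hg 1)]
    exact Measurable.aestronglyMeasurable (by fun_prop)
  have hfi : Integrable (f 1) := by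
    refine ((cone_int D one_ne_zero).const_mul c).mono' (hfm 1)
      (Filter.Eventually.of_forall fun w => ?_)
    have h0 := coneR_nonneg w
    simp only [hf, norm_mul, norm_pow, Complex.norm_real, Real.norm_eq_abs, abs_of_nonneg h0,
      abs_of_pos (Real.exp_pos _)]
    calc _ ≤ Real.exp (-(1 ^ 2 * coneR w)) * (c * coneR w ^ D) := by
          have := hb w
          gcongr
      _ = _ := by ring
  have hd := (hasDerivAt_integral_of_dominated_loc_of_deriv_le (μ := volume) (F := f) (F' := g)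
    (x₀ := 1) (s := Set.Ioo (1 / 2) 2)
    (bound := fun w => 4 * c * (Real.exp (-((1 / 2) ^ 2 * coneR w)) * coneR w ^ (D + 1)))
    (Ioo_mem_nhds (by norm_num) (by norm_num)) (Filter.Eventually.of_forall hfm) hfi hgm
    (Filter.Eventually.of_forall fun w s h => ?_)
    ((cone_int (D + 1) (by norm_num)).const_mul _)
    (Filter.Eventually.of_forall fun w s _ => ?_)).2
  · have hsc : ∀ s : ℝ, 0 < s → ((s : ℂ) ^ (2 * (m + D))) * ∫ w, f s w = ∫ w, f 1 w := by
      intro s s0
      have h1 := Measure.integral_comp_smul (volume : Measure (Fin m → ℂ)) (f 1) s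
      have h2 : Module.finrank ℝ (Fin m → ℂ) = 2 * m := by
        simp [Module.finrank_pi_fintype, mul_comm]
      have h3 : ∀ w, f 1 (s • w) = (s : ℂ) ^ (2 * D) * f s w := fun w => by
        rw [hf, hf, coneR_smul, hs s s0, one_pow, one_mul]
        push_cast
        ring
      simp only [h3] at h1
      rw [integral_const_mul, h2, abs_of_pos (by positivity), Complex.real_smul] at h1
      have h4 : (s : ℂ) ≠ 0 := Complex.ofReal_ne_zero.2 s0.ne'
      rw [mul_add, pow_add, mul_assoc, h1]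
      push_cast
      field_simp
    have h5 : HasDerivAt (fun s : ℝ => (s : ℂ) ^ (2 * (m + D))) ((2 * (m + D) : ℕ) : ℂ) 1 := by
      have h6 := (hasDerivAt_pow (2 * (m + D)) (((1 : ℝ) : ℂ))).comp_ofReal
      simpa using h6
    have h7 : HasDerivAt (fun s : ℝ => (s : ℂ) ^ (2 * (m + D)) * ∫ w, f s w) 0 1 :=
      (hasDerivAt_const (1 : ℝ) (∫ w, f 1 w)).congr_of_eventuallyEq
        ((lt_mem_nhds (zero_lt_one' ℝ)).mono hsc)
    have h8 := (h5.mul hd).unique h7
    have h9 : ∫ w, g 1 w = -2 * ∫ w : Fin m → ℂ,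
        (Real.exp (-coneR w) : ℂ) * (F w * (coneR w : ℂ) ^ (D + 1)) := by
      rw [← integral_const_mul]
      refine integral_congr_ae (Filter.Eventually.of_forall fun w => ?_)
      simp only [hg, one_pow, one_mul, mul_one]
      push_cast
      ring
    rw [h9] at h8
    simp only [hf, one_pow, one_mul, Complex.ofReal_one] at h8
    rw [Nat.cast_mul, Nat.cast_add, Nat.cast_ofNat] at h8
    linear_combination (-1 / 2 : ℂ) * h8
  · have h0 := coneR_nonneg w
    have c0 : 0 ≤ c := (norm_nonneg _).trans (hb w)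
    have s0 : 0 < s := lt_trans (by norm_num) h.1
    simp only [hg, norm_mul, norm_pow, Complex.norm_real, Real.norm_eq_abs, abs_mul, abs_neg,
      abs_of_nonneg h0, abs_of_pos (Real.exp_pos _), abs_of_pos s0, abs_two]
    calc _ ≤ Real.exp (-((1 / 2) ^ 2 * coneR w)) * (2 * 2 * coneR w) * (c * coneR w ^ D) := by
          have h1 := hb w
          have h2 := h.1.le
          have h3 := h.2.le
          gcongr
      _ = _ := by ring
  · simp only [hf, hg]
    refine HasDerivAt.mul_const (HasDerivAt.ofReal_comp ?_) _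
    have h1 : HasDerivAt (fun s : ℝ => -(s ^ 2 * coneR w)) (-(2 * s * coneR w)) s :=
      ((hasDerivAt_pow 2 s).mul_const (coneR w)).neg.congr_deriv (by simp)
    exact h1.exp

end Pool.Agent.Lib.MP_7906d6_an.Q
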