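import Pool.Agent.Lib.MP_7906d6_an.Q.Null
import Pool.Agent.Lib.MP_7906d6_an.Q.Cone
import Pool.Agent.Lib.MP_7906d6_an.Q.Alg

/-!
The standard Gaussian measure.
-/

namespace Pool.Agent.Lib.MP_7906d6_an.Q

open MvPolynomial MeasureTheory Finset Matrix
open scoped ComplexConjugate

variable {m : ℕ}

/-- The density of the standard Gaussian measure. -/
noncomputable def gaussDen (m : ℕ) (w : Fin m → ℂ) : NNReal :=
  ⟨(Real.pi ^ m)⁻¹ * gw w, by unfold gw; positivity⟩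

theorem gaussDen_meas : Measurable (gaussDen m) := by
  refine Measurable.subtype_mk ?_
  unfold gw
  fun_prop

theorem gaussDen_smul (w : Fin m → ℂ) (z : ℂ) :
    gaussDen m w • z = ((Real.pi : ℂ) ^ m)⁻¹ * ((gw w : ℂ) * z) := by
  rw [NNReal.smul_def, Complex.real_smul]
  change ((((Real.pi ^ m)⁻¹ * gw w : ℝ)) : ℂ) * z = _
  push_cast
  ring

theorem gauss_integral (g : (Fin m → ℂ) → ℂ) :
    ∫ w, g w ∂(volume.withDensity fun w => (gaussDen m w : ENNReal)) =
      ((Real.pi : ℂ) ^ m)⁻¹ * ∫ w : Fin m → ℂ, (gw w : ℂ) * g w := by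
  rw [integral_withDensity_eq_integral_smul gaussDen_meas, ← integral_const_mul]
  simp only [gaussDen_smul]

theorem gauss_cone (hm : 1 ≤ m) (D : ℕ) (φ : P m) (h : Bi D D φ) :
    ∫ w : Fin m → ℂ, (gw w : ℂ) * ev w φ = (∏ i ∈ range D, ((m : ℂ) + i)) *
      ∫ w : Fin m → ℂ, (gw w : ℂ) * (ev w φ / ev w (R m) ^ D) := by
  obtain ⟨c, hc, hb⟩ := h.bound
  have hF : Measurable fun w : Fin m → ℂ => ev w φ / ev w (R m) ^ D :=
    (continuous_ev φ).measurable.div ((continuous_ev (R m)).measurable.pow_const D)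
  have h1 : ∀ w : Fin m → ℂ, ‖ev w φ / ev w (R m) ^ D‖ ≤ c := fun w => by
    have h0 : 0 ≤ ∑ a, ‖w a‖ ^ 2 := by positivity
    rw [norm_div, norm_pow, ev_R, Complex.norm_real, Real.norm_of_nonneg h0]
    exact div_le_of_le_mul₀ (by positivity) hc.le (hb w)
  have h2 : ∀ t : ℝ, 0 < t → ∀ w : Fin m → ℂ,
      ev (t • w) φ / ev (t • w) (R m) ^ D = ev w φ / ev w (R m) ^ D := fun t ht w => by
    have t0 : (t : ℂ) ^ (D + D) ≠ 0 := pow_ne_zero _ (by exact_mod_cast ht.ne')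
    rw [h.ev_smul, bi_R.ev_smul, mul_pow, ← pow_mul, show (1 + 1) * D = D + D by ring,
      mul_div_mul_left _ _ t0]
  have h3 : ∀ n : ℕ, ∫ w : Fin m → ℂ, (gw w : ℂ) * (ev w φ / ev w (R m) ^ D * ev w (R m) ^ n) =
      (∏ i ∈ range n, ((m : ℂ) + i)) *
        ∫ w : Fin m → ℂ, (gw w : ℂ) * (ev w φ / ev w (R m) ^ D) := fun n => by
    induction n with
    | zero => simp
    | succ n ih => rw [cone_step hm hF h1 h2 n, ih, prod_range_succ]; ring
  rw [← h3 D]
  refine integral_congr_ae ?_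
  filter_upwards [null_volume m (X ⟨0, hm⟩) (X_ne_zero _)] with w hw
  rw [eval_X] at hw
  have h4 : ev w (R m) ≠ 0 := by
    rw [ev_R, Complex.ofReal_ne_zero]
    refine (lt_of_lt_of_le (pow_pos (norm_pos_iff.2 hw) 2) ?_).ne'
    exact single_le_sum (f := fun a => ‖w a‖ ^ 2) (fun a _ => by positivity) (mem_univ _)
  rw [div_mul_cancel₀ _ (pow_ne_zero _ h4)]

theorem exists_gauss (hm : 1 ≤ m) :
    ∃ (μ : Measure (Fin m → ℂ)) (σ : P m →ₗ[ℂ] ℂ), IsGauss μ σ := by
  have p0 : ((Real.pi : ℂ) ^ m) ≠ 0 := pow_ne_zero _ (by exact_mod_cast Real.pi_ne_zero)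
  let σ : P m →ₗ[ℂ] ℂ :=
    { toFun := fun φ => ((Real.pi : ℂ) ^ m)⁻¹ * ∫ w : Fin m → ℂ, (gw w : ℂ) * ev w φ
      map_add' := fun φ ψ => by
        simp only [map_add, mul_add]
        rw [integral_add (int_gw φ) (int_gw ψ), mul_add]
      map_smul' := fun c φ => by
        simp only [smul_eq_C_mul, map_mul, ev_C, RingHom.id_apply, smul_eq_mul, mul_left_comm _ c]
        rw [integral_const_mul, mul_left_comm] }
  have hσ : ∀ φ, σ φ = ((Real.pi : ℂ) ^ m)⁻¹ * ∫ w : Fin m → ℂ, (gw w : ℂ) * ev w φ :=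
    fun _ => rfl
  refine ⟨volume.withDensity fun w => (gaussDen m w : ENNReal), σ, fun φ => ?_, fun φ => ?_,
    fun a φ => ?_, ?_, fun Δ hΔ => ?_, fun D φ h => ?_⟩
  · rw [integrable_withDensity_iff_integrable_smul gaussDen_meas]
    simp only [gaussDen_smul]
    exact (int_gw φ).const_mul _
  · rw [gauss_integral, hσ]
  · simp only [hσ, (stein_gw a φ).1, (stein_gw a φ).2, and_self]
  · rw [hσ]
    simp only [map_one, mul_one]
    rw [integral_complex_ofReal, total_gw]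
    push_cast
    exact inv_mul_cancel₀ p0
  · exact (withDensity_absolutelyContinuous _ _).ae_le (null_volume m Δ hΔ)
  · have q0 : ∏ i ∈ range D, ((m : ℂ) + i) ≠ 0 := prod_ne_zero_iff.2 fun i _ => by
      exact_mod_cast (show m + i ≠ 0 by omega)
    rw [gauss_integral, hσ, gauss_cone hm D φ h]
    field_simp

end Pool.Agent.Lib.MP_7906d6_an.Q
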