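import Pool.Agent.Lib.MP_7906d6_an.Q.Eig
import Pool.Agent.Lib.MP_7906d6_an.Q.Gauss

/-!
The dimension count for homogeneous families.
-/

namespace Pool.Agent.Lib.MP_7906d6_an.Q

open MvPolynomial MeasureTheory Finset Matrix
open scoped ComplexConjugate

variable {m : ℕ} {ι A : Type} [Fintype ι] [Fintype A]

theorem al_trace [DecidableEq ι] {U : Matrix ι ι ℂ} (hU : U * star U = 1) (T : Matrix ι ι ℂ) :
    ∑ i, star (fun o => U o i) ⬝ᵥ T *ᵥ (fun o => U o i) = ∑ o, T o o := by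
  have h1 : ∀ i, star (fun o => U o i) ⬝ᵥ T *ᵥ (fun o => U o i) = (star U * (T * U)) i i :=
    fun i => rfl
  have h2 : (star U * (T * U)).trace = T.trace := by
    rw [trace_mul_comm, Matrix.mul_assoc, hU, Matrix.mul_one]
  simp only [h1]
  exact h2

/-- Summation over an eigenbasis. -/
theorem trace_sum [DecidableEq ι] {L : Type} [Fintype L] {S : Matrix ι ι ℂ} (hS : S.IsHermitian)
    {S' : L → Matrix ι ι ℂ} {M : ℝ} (h : ∀ (v : ι → ℂ) (t : ℝ), star v ⬝ᵥ v = 1 →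
      S *ᵥ v = (t : ℂ) • v → M * ∑ l, (star v ⬝ᵥ S' l *ᵥ v).re ≤ 1 - M * t) :
    M * ((∑ o, S o o).re + ∑ l, (∑ o, S' l o o).re) ≤ Fintype.card ι := by
  set U : Matrix ι ι ℂ := (hS.eigenvectorUnitary : Matrix ι ι ℂ) with hU
  have u1 : U * star U = 1 := hS.eigenvectorUnitary.2.2
  have u2 : star U * U = 1 := hS.eigenvectorUnitary.2.1
  have n1 : ∀ i, star (fun o => U o i) ⬝ᵥ (fun o => U o i) = 1 := fun i => by
    have : star (fun o => U o i) ⬝ᵥ (fun o => U o i) = (star U * U) i i := rfl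
    rw [this, u2, one_apply_eq]
  have e1 : ∀ i, S *ᵥ (fun o => U o i) = (hS.eigenvalues i : ℂ) • fun o => U o i := fun i =>
    hS.mulVec_eigenvectorBasis i
  have e2 : (∑ o, S o o).re = ∑ i, hS.eigenvalues i := by
    rw [← al_trace u1 S, Complex.re_sum]
    refine sum_congr rfl fun i _ => ?_
    rw [e1, dotProduct_smul, n1, smul_eq_mul, mul_one, Complex.ofReal_re]
  have e3 : ∑ l, (∑ o, S' l o o).re =
      ∑ i, ∑ l, (star (fun o => U o i) ⬝ᵥ S' l *ᵥ fun o => U o i).re := by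
    rw [sum_comm]
    refine sum_congr rfl fun l _ => ?_
    rw [← al_trace u1 (S' l), Complex.re_sum]
  rw [e2, e3, ← sum_add_distrib, mul_sum]
  calc _ ≤ ∑ _i : ι, (1 : ℝ) := sum_le_sum fun i _ => by
        have := h _ _ (n1 i) (e1 i)
        rw [mul_add]
        linarith
    _ = _ := by simp

theorem count_hom (hm : 4 ≤ m) {L : Type} [Fintype L] {n : L → ℕ} {j e' : L → ℕ} {e : ℕ}
    {lam : L → ℝ} (hj : ∀ l, 2 ≤ j l ∧ ∀ k, j l ≤ k → |beta m (j l) k| ≤ lam l)
    (hs : 2 * (m : ℝ) * ∑ l, lam l ≤ 1)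
    {x : A → ι → MvPolynomial (Fin m) ℂ} {y : ∀ l, Fin (n l) → ι → MvPolynomial (Fin m) ℂ}
    (hx : ∀ a o, (x a o).IsHomogeneous e) (hy : ∀ l b o, (y l b o).IsHomogeneous (e' l))
    {w₀ : Fin m → ℂ} (ix : LinearIndependent ℂ fun a o => eval w₀ (x a o))
    (iy : ∀ l, LinearIndependent ℂ fun b o => eval w₀ (y l b o)) (h1 : HV 1 x x)
    (h2 : ∀ l, HV (j l) x (y l)) (h3 : ∀ l, HV (j l) (y l) (y l)) :
    m * (Fintype.card A + ∑ l, n l) ≤ Fintype.card ι := by
  classical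
  obtain ⟨μ, σ, hG⟩ := exists_gauss (m := m) (by omega)
  have hm0 : (0 : ℝ) ≤ m := Nat.cast_nonneg m
  have hl0 : ∀ l, 0 ≤ lam l := fun l => (abs_nonneg _).trans ((hj l).2 _ le_rfl)
  have hl1 : ∀ l, 2 * (m : ℝ) * lam l ≤ 1 := fun l =>
    (mul_le_mul_of_nonneg_left (single_le_sum (f := lam)
      (fun l _ => hl0 l) (mem_univ l)) (by positivity)).trans hs
  have key : ∀ η : ℝ, 0 < η →
      (1 - η) * (m * (Fintype.card A + ∑ l, (n l : ℝ))) ≤ Fintype.card ι := by
    intro η hη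
    obtain ⟨d₀, hd₀⟩ := exists_proj hG (by omega) hx ix hη
    choose d₁ hd₁ using fun l => exists_proj hG (by omega) (hy l) (iy l) hη
    obtain ⟨W, w1, w2⟩ := hd₀ (d₀ + ∑ l, d₁ l + 1) (by omega)
    choose W' w3 w4 using fun l => hd₁ l (d₀ + ∑ l, d₁ l + 1) (by
      have := single_le_sum (f := d₁) (fun l _ => Nat.zero_le _) (mem_univ l)
      omega)
    have h4 := trace_sum (w1.isHermitian hG)
      (S' := fun l => Matrix.of fun o p => mean σ (d₀ + ∑ l, d₁ l + 1) (W' l o p)) (M := m)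
      fun v t v1 v2 => by
        have a := eig_one hG hm (by omega) w1 h1 v1 v2
        have b := sum_le_sum fun l (_ : l ∈ univ) => eig_two hG hm (by omega) (hj l).1
          w1 (w3 l) h1 (h2 l) (h3 l) (hj l).2 (hl1 l) v1 v2
        refine (mul_le_mul_of_nonneg_left b hm0).trans ?_
        rw [← sum_mul, ← mul_sum]
        nlinarith
    simp only [Matrix.of_apply] at h4
    have h5 : ∑ l, (1 - η) * (n l : ℝ) ≤
        ∑ l, (∑ o, mean σ (d₀ + ∑ l, d₁ l + 1) (W' l o o)).re :=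
      sum_le_sum fun l _ => by simpa using w4 l
    rw [← mul_sum] at h5
    refine le_trans ?_ h4
    calc _ = m * ((1 - η) * Fintype.card A + (1 - η) * ∑ l, (n l : ℝ)) := by ring
      _ ≤ _ := mul_le_mul_of_nonneg_left (add_le_add w2 h5) hm0
  have fin : (m : ℝ) * (Fintype.card A + ∑ l, (n l : ℝ)) ≤ Fintype.card ι := by
    set K : ℝ := m * (Fintype.card A + ∑ l, (n l : ℝ)) with hK
    have K0 : 0 ≤ K := by positivity
    refine le_of_forall_pos_le_add fun ε hε => ?_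
    have a := key (ε / (K + 1)) (by positivity)
    have b : ε / (K + 1) * K ≤ ε := by
      rw [div_mul_eq_mul_div, div_le_iff₀ (by positivity)]
      nlinarith
    linarith
  exact_mod_cast fin

end Pool.Agent.Lib.MP_7906d6_an.Q
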