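import Pool.Agent.Lib.MP_7906d6_an.Q.Geo

/-!
The linear degree estimate for target dimensions up to an exponential of the square of the
source dimension.
-/

namespace Pool.Agent.Lib.MP_7906d6_an.Q

open MvPolynomial Finset Matrix Pool.Agent.Lib.MP_7906d6_an.Rat Pool.Agent.Lib.MP_7906d6_an.Mac
  Pool.Agent.Lib.MP_7906d6_an.Exp
open scoped ComplexConjugate

variable {m : ℕ} {κ : Type} [Fintype κ] {f : (Fin (m + 3) → ℂ) → Option κ → ℂ}
  {g : ℂ × (Fin (m + 3) → ℂ) → Option κ → ℂ} {U : (Fin (m + 3) → ℂ) × ℂ × (Fin (m + 3) → ℂ) → ℂ}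

theorem bound (h : IsData f g U) {z₀ : Fin (m + 3) → ℂ} (hq : f z₀ none ≠ 0) {δ : ℕ}
    {t₁ : Fin δ → ℂ} (ht₁ : ∀ i, t₁ i ≠ 0) {u₀ : Fin (m + 3) → ℂ}
    (hp : ∀ c : Fin δ → ℂ, (∀ y, ∑ i, c i * U (t₁ i • u₀, y) = 0) → c = 0)
    (hm : 12 ≤ m + 2) :
    (m + 2) * δ + 1 ≤ Fintype.card κ ∨
      2 ^ ((m + 2 - 7) ^ 2 / 2) + 1 ≤ Fintype.card κ := by
  classical
  have := polyFun_domain (Ln (m + 2))
  have pf := h.pf
  have pU := h.pU
  obtain ⟨D, t₂, lam, ht₂, hl1, hl2⟩ := weights h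
  have ht : ∀ j, Sum.elim t₁ t₂ j ≠ 0 := by rintro (j | j) <;> simp [ht₁, ht₂]
  choose UT hUT using fun j => toMv (F := fun x : Ln (m + 2) × (Fin (m + 2 + 2) → ℂ) =>
    Sum.elim t₁ t₂ j * U (x.1.1 + Sum.elim t₁ t₂ j • x.1.2, dp x.1 x.2)) (by fun_prop)
  obtain ⟨M, hM, hM'⟩ := loset 0 0 ((RelM f (Sum.elim t₁ t₂)).map (Fintype.linearCombination _ UT))
    (n := univ.sup fun j => (UT j).totalDegree) (by
      rintro _ ⟨l, -, rfl⟩
      exact Submodule.sum_mem _ fun j _ => Submodule.smul_mem _ _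
        ((mem_restrictTotalDegree _ _ _).mpr (le_sup (f := fun j => (UT j).totalDegree)
          (mem_univ j))))
  replace hM : ∀ ν, ν ∈ M ↔ ∃ l ∈ RelM f (Sum.elim t₁ t₂), Lo 0 0 (∑ j, l j • UT j) ν := fun ν =>
    (hM ν).trans ⟨by rintro ⟨_, ⟨l, hl, rfl⟩, h1⟩; exact ⟨l, hl, h1⟩, fun ⟨l, hl, h1⟩ =>
      ⟨_, ⟨l, hl, rfl⟩, h1⟩⟩
  have hcard := chain_card (lam := Sum.elim 0 lam) h hUT ht 0 hq
    (fun y => by simpa using hl1 y) (fun y w => by simpa using hl2 y w) hM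
  obtain ⟨v, hv⟩ : ∃ v : Fin δ → Option κ → polyFun (Ln (m + 2)), ∀ i o y, (v i o).1 y =
      f y.1 none * f (y.1 + t₁ i • y.2) o - f (y.1 + t₁ i • y.2) none * f y.1 o :=
    ⟨fun i o => ⟨_, show PM (fun y : Ln (m + 2) => f y.1 none * f (y.1 + t₁ i • y.2) o -
      f (y.1 + t₁ i • y.2) none * f y.1 o) by fun_prop⟩, fun _ _ _ => rfl⟩
  obtain ⟨s, hs, hmax⟩ := exists_maximal_linearIndepOn (polyFun (Ln (m + 2))) v
  obtain ⟨Δ, hΔ0, hΔ⟩ := det_of_indep hs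
  obtain ⟨cc, hc1, hc2⟩ := rel_rank h hq hUT hl1 hl2
    (ut_indep h (fun j => hUT (Sum.inl j)) ht₁ hp) hv hmax
  have h3 := hM' cc hc1 hc2
  rw [Fintype.card_compl_set, Fintype.card_fin] at h3
  obtain ⟨M₁, hM₁⟩ : ∃ M₁, M₁ = M.filter fun ν => ν 0 = 1 := ⟨_, rfl⟩
  rw [← hM₁, ← sum_coe_sort] at hcard
  have h4 : ∀ i : M₁, i.1 ∈ M ∧ i.1 0 = 1 := fun i => mem_filter.mp (hM₁.subset i.2)
  choose l hl hlo using fun i : M₁ => (hM _).mp (h4 i).1
  choose l' K n K₀ pl pK hrel hY hK₀ hK using fun i : M₁ => lift h hUT ht (hl i) (hlo i) (h4 i).2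
  obtain ⟨Θ, hΘ⟩ : ∃ Θ, Θ = Δ * ∏ i : M₁, coeff i.1 (∑ j, l i j • UT j) := ⟨_, rfl⟩
  have pΘ : PM Θ.1 := Θ.2
  obtain ⟨y₁, hy₁⟩ := Function.ne_iff.mp (Subtype.coe_ne_coe.mpr (hΘ ▸ mul_ne_zero hΔ0
    (prod_ne_zero_iff.mpr fun i _ => mem_support_iff.mp (hlo i).1) : Θ ≠ 0))
  obtain ⟨y₀, hy₀, hy₀'⟩ := pΘ.exists_ne (G := fun y => f y.1 none * y.2 0) (by fun_prop) hy₁
    (y := (z₀, 1)) (by simpa using hq)
  obtain ⟨E, hE, hE', hE0⟩ := exists_uframe (F := fun E => ∏ c : Fin (m + 2),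
    Θ.1 (E 0, E c.succ) * (f (E 0) none * E c.succ 0)) (by fun_prop)
    (y := vecCons y₀.1 fun _ => y₀.2) (prod_ne_zero_iff.mpr fun _ _ => mul_ne_zero hy₀ hy₀')
  have h5 : ∀ c : Fin (m + 2), (Δ.1 (E 0, E c.succ) ≠ 0 ∧ ∀ i : M₁, Exp.ev (E 0, E c.succ)
      (coeff i.1 (∑ j, l i j • UT j)) ≠ 0) ∧ f (E 0) none ≠ 0 ∧ E c.succ 0 ≠ 0 := fun c => by
    have := prod_ne_zero_iff.mp hE0 c (mem_univ c)
    rw [← ev_apply, hΘ] at this
    simpa only [map_mul, map_prod, mul_ne_zero_iff, prod_ne_zero_iff, mem_univ, true_imp_iff,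
      ev_apply] using this
  have h6 := geo hm h hE hE' (h5 0).2.1 (k := fun i : M₁ => i.1 1 + 2)
    (fun _ => Nat.le_add_left _ _) (t := Sum.elim t₁ t₂) (l := fun i w => l' i (E 0, w))
    (by fun_prop) (K := fun i x => K i ((E 0, x.1), x.2)) (by fun_prop)
    (fun i w => hY i (E 0, w)) (fun j α hα => by
      obtain ⟨⟨-, h7⟩, -, h6⟩ := h5 0
      rw [show (0 : Fin (m + 2)).succ = 1 from rfl] at h6 h7
      have h8 := class_indep (α := fun i => α i * -(E 1 0 ^ n i)) (e := j - 2)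
        (Subtype.val_injective.comp Subtype.val_injective) (fun i => (h4 i.1).2)
        (fun i => (Nat.add_sub_cancel _ 2).symm.trans (congrArg (· - 2) i.2))
        (fun i => lo_map (Exp.ev (E 0, E 1)) (hlo i.1) (h7 i.1))
        (K := fun i => map (Exp.ev (E 0, E 1)) (K₀ i.1))
        (fun i τ hτ => by
          rw [coeff_map, coeff_map, hK₀ _ τ hτ, show j - 2 = i.1.1 1 by have := i.2; omega])
        fun ξ e0 e1 => by
          simpa only [hK _ (E 0, E 1) ξ h6 e0, evv_map, mul_assoc] using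
            hα (psi (E 1) ξ) (by rw [dot_psi, e1, mul_zero])
      funext i
      simpa [h6] using congrFun h8 i)
    (S := s) (τ := fun i => t₁ i) fun α μ hα => by
      have h7 := hΔ _ (h5 0).1.1
      rw [show (0 : Fin (m + 2)).succ = 1 from rfl] at h7
      refine funext (Fintype.linearIndependent_iff.mp h7 α (funext fun o => ?_))
      have e1 := congrFun hα o
      have e2 := congrFun hα none
      simp only [Finset.sum_apply, Pi.smul_apply, smul_eq_mul, hv, Pi.zero_apply, mul_sub,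
        sum_sub_distrib, mul_left_comm _ (f (E 0) none), ← mul_assoc (α _), ← Finset.mul_sum,
        ← Finset.sum_mul] at e1 e2 ⊢
      rw [e1, e2]
      ring
  simp only [Nat.add_succ_sub_one] at h6
  refine h6.imp_left fun h7 => le_trans (Nat.succ_le_succ (Nat.mul_le_mul_left _ ?_)) h7
  omega

/-- The degree estimate on discs through the origin. -/
theorem degree_quad {N : ℕ} {Φ : (Fin (m + 3) → ℂ) → Fin N → ℂ}
    {f : (Fin (m + 3) → ℂ) → Option (Fin N) → ℂ} (h : RatData Φ f) {u : Fin (m + 3) → ℂ}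
    (hu : nsq u = 1) {δ : ℕ} {A : Fin N → Polynomial ℂ} {B : Polynomial ℂ}
    (hm : MinRep (fun t : ℂ => Φ (t • u)) δ A B) (ht : 12 ≤ m + 2)
    (hN : N ≤ 2 ^ ((m + 2 - 7) ^ 2 / 2)) : (m + 2) * δ + 1 ≤ N := by
  obtain ⟨g, U, hd⟩ := exists_data h.pf h.sphere
  have hpos : (0 : ℝ) < δ + 1 := by positivity
  have := bound hd (h.ne 0 (by simp [nsq]))
    (t₁ := fun i : Fin δ => (((i + 1 : ℝ) / (δ + 1) : ℝ) : ℂ))
    (fun i => Complex.ofReal_ne_zero.2 (by positivity))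
    (h.pick hd hu hm (fun i j hij => ?_) fun i => ?_) ht
  · rw [Fintype.card_fin] at this
    omega
  · have := (div_left_inj' hpos.ne').1 (Complex.ofReal_injective hij)
    exact Fin.ext (by exact_mod_cast add_right_cancel this)
  · rw [Complex.norm_real, Real.norm_of_nonneg (by positivity), div_lt_one hpos]
    exact_mod_cast Nat.succ_lt_succ i.2

end Pool.Agent.Lib.MP_7906d6_an.Q
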