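import Mathlib

/-!
Coordinates on a hyperplane.
-/

namespace Pool.Agent.Lib.MP_7906d6_an.Q

open Finset Matrix

/-- Isometric coordinates on the hyperplane orthogonal to a nonzero vector. -/
theorem coords {κ : Type} [Fintype κ] {z : κ → ℂ} (hz : z ≠ 0) :
    ∃ (n : ℕ) (Ψ : (κ → ℂ) →ₗ[ℂ] Fin n → ℂ), n + 1 = Fintype.card κ ∧
      ∀ x y, x ⬝ᵥ star z = 0 → y ⬝ᵥ star z = 0 → Ψ x ⬝ᵥ star (Ψ y) = x ⬝ᵥ star y := by
  classical
  have hz' : (WithLp.toLp 2 z : EuclideanSpace ℂ κ) ≠ 0 := fun h =>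
    hz (by simpa using congrArg WithLp.ofLp h)
  set K : Submodule ℂ (EuclideanSpace ℂ κ) := (ℂ ∙ (WithLp.toLp 2 z : EuclideanSpace ℂ κ))ᗮ
    with hK
  have hdim : Module.finrank ℂ K + 1 = Fintype.card κ := by
    have h1 := Submodule.finrank_add_finrank_orthogonal
      (ℂ ∙ (WithLp.toLp 2 z : EuclideanSpace ℂ κ))
    rw [finrank_span_singleton hz', finrank_euclideanSpace, add_comm] at h1
    exact h1
  set b := stdOrthonormalBasis ℂ K with hb
  refine ⟨Module.finrank ℂ K, LinearMap.pi fun i =>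
    (innerₛₗ ℂ (b i : EuclideanSpace ℂ κ)).comp
      (WithLp.linearEquiv 2 ℂ (κ → ℂ)).symm.toLinearMap, hdim, fun x y hx hy => ?_⟩
  have mem : ∀ v : κ → ℂ, v ⬝ᵥ star z = 0 → (WithLp.toLp 2 v : EuclideanSpace ℂ κ) ∈ K :=
    fun v hv => Submodule.mem_orthogonal_singleton_iff_inner_right.2
      ((EuclideanSpace.inner_toLp_toLp z v).trans hv)
  have h1 := b.sum_inner_mul_inner ⟨_, mem y hy⟩ ⟨_, mem x hx⟩
  simp only [Submodule.coe_inner] at h1
  rw [EuclideanSpace.inner_toLp_toLp] at h1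
  rw [← h1, dotProduct]
  refine sum_congr rfl fun i _ => ?_
  rw [mul_comm, ← inner_conj_symm]
  rfl

end Pool.Agent.Lib.MP_7906d6_an.Q
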