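import Pool.Agent.Lib.MP_7906d6_an.MacE

/-!
Homogeneous families spanning the values of a polynomial family.
-/

namespace Pool.Agent.Lib.MP_7906d6_an.Q

open MvPolynomial MeasureTheory Finset Matrix Pool.Agent.Lib.MP_7906d6_an.Rat
open scoped ComplexConjugate

variable {m : ℕ} {ι A B : Type} [Fintype ι] [Fintype A] [Fintype B]

/-- The pairing of `F(w)` with `G(u)` has the factor `(w ⬝ conj u) ^ j`. -/
def PV (j : ℕ) (F G : (Fin m → ℂ) → ι → ℂ) : Prop :=
  ∀ u, ∃ q : (Fin m → ℂ) → ℂ, PM q ∧ ∀ w, F w ⬝ᵥ star (G u) = (w ⬝ᵥ star u) ^ j * q w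

theorem PV.mono {j j' : ℕ} {F G : (Fin m → ℂ) → ι → ℂ} (h : PV j F G) (hj : j' ≤ j) :
    PV j' F G := by
  intro u
  obtain ⟨q, hq, h⟩ := h u
  refine ⟨fun w => (w ⬝ᵥ star u) ^ (j - j') * q w,
    ((PM.dot PM.id' (PM.const _)).pow _).mul hq, fun w => ?_⟩
  rw [h w, ← mul_assoc, ← pow_add, Nat.add_sub_cancel' hj]

/-- `x` is a power of a coordinate times a combination of dilates of a member of `v`. -/
def From (c : Fin m) (v : A → (Fin m → ℂ) → ι → ℂ) (x : ι → MvPolynomial (Fin m) ℂ) : Prop :=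
  ∃ (a : A) (k D : ℕ) (t s : Fin D → ℂ),
    ∀ w, (fun o => eval w (x o)) = w c ^ k • ∑ i, s i • v a (t i • w)

theorem homog_scale {P : MvPolynomial (Fin m) ℂ} {r : ℕ} (h : P.IsHomogeneous r) (t : ℂ)
    (w : Fin m → ℂ) : eval (t • w) P = t ^ r * eval w P := by
  rw [eval_eq', eval_eq', mul_sum]
  refine sum_congr rfl fun d hd => ?_
  have hr : ∑ i, d i = r := by
    have := h (mem_support_iff.mp hd)
    rw [← this, Finsupp.weight_apply, Finsupp.sum_fintype _ _ (by simp)]
    simp
  simp only [Pi.smul_apply, smul_eq_mul, mul_pow, prod_mul_distrib, prod_pow_eq_pow_sum, hr]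
  ring

theorem homog_expand {P : MvPolynomial (Fin m) ℂ} {e : ℕ} (h : P.totalDegree ≤ e) (t : ℂ)
    (w : Fin m → ℂ) :
    eval (t • w) P = ∑ r : Fin (e + 1), t ^ (r : ℕ) * eval w (homogeneousComponent r P) := by
  have h1 : ∑ r ∈ range (e + 1), homogeneousComponent r P = P := by
    conv_rhs => rw [← sum_homogeneousComponent P]
    refine (sum_subset (range_subset_range.mpr (by omega)) fun r _ hr => ?_).symm
    exact homogeneousComponent_eq_zero _ _ (by rw [mem_range] at hr; omega)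
  conv_lhs => rw [← h1, map_sum]
  rw [← Fin.sum_univ_eq_sum_range (fun r => eval (t • w) (homogeneousComponent r P))]
  exact sum_congr rfl fun r _ => homog_scale (homogeneousComponent_isHomogeneous _ _) t w

theorem homog_comp (e : ℕ) : ∃ (t : Fin (e + 1) → ℂ) (s : Fin (e + 1) → Fin (e + 1) → ℂ),
    ∀ (P : MvPolynomial (Fin m) ℂ), P.totalDegree ≤ e → ∀ (r : Fin (e + 1)) (w : Fin m → ℂ),
      eval w (homogeneousComponent r P) = ∑ i, s r i * eval (t i • w) P := by
  let t : Fin (e + 1) → ℂ := fun i => ((i : ℕ) : ℂ)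
  have ht : Function.Injective t := fun i j h => Fin.ext (Nat.cast_injective h)
  have hd : IsUnit (vandermonde t).det :=
    isUnit_iff_ne_zero.mpr (det_vandermonde_ne_zero_iff.mpr ht)
  refine ⟨t, fun r i => (vandermonde t)⁻¹ r i, fun P hP r w => ?_⟩
  have h1 : (fun i => eval (t i • w) P) =
      vandermonde t *ᵥ fun r : Fin (e + 1) => eval w (homogeneousComponent r P) := by
    funext i
    rw [homog_expand hP]
    rfl
  have h2 := congrFun (congrArg (fun z => (vandermonde t)⁻¹ *ᵥ z) h1) r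
  simp only [mulVec_mulVec, nonsing_inv_mul _ hd, one_mulVec] at h2
  exact h2.symm

theorem homog (c : Fin m) {v : A → (Fin m → ℂ) → ι → ℂ} (pv : ∀ a, PM (v a)) {w₀ : Fin m → ℂ}
    (h0 : w₀ c ≠ 0) (hi : LinearIndependent ℂ fun a => v a w₀) :
    ∃ (n e : ℕ) (x : Fin n → ι → MvPolynomial (Fin m) ℂ), Fintype.card A ≤ n ∧
      (∀ a o, (x a o).IsHomogeneous e) ∧ (LinearIndependent ℂ fun a o => eval w₀ (x a o)) ∧
        ∀ a, From c v (x a) := by
  classical
  choose P hP using fun a o => Mac.pm_mv (F := fun w => v a w o) ((PM.proj o).comp (pv a))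
  obtain ⟨e, he⟩ : ∃ e, ∀ a o, (P a o).totalDegree ≤ e :=
    ⟨∑ z : A × ι, (P z.1 z.2).totalDegree, fun a o =>
      single_le_sum (f := fun z : A × ι => (P z.1 z.2).totalDegree) (fun _ _ => Nat.zero_le _)
        (mem_univ (a, o))⟩
  obtain ⟨t, s, hs⟩ := homog_comp (m := m) e
  let y : A × Fin (e + 1) → ι → MvPolynomial (Fin m) ℂ :=
    fun z o => X c ^ (e - z.2) * homogeneousComponent z.2 (P z.1 o)
  have hy : ∀ z o, (y z o).IsHomogeneous e := fun z o => by
    have := ((isHomogeneous_X ℂ c).pow (e - z.2)).mul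
      (homogeneousComponent_isHomogeneous z.2 (P z.1 o))
    have h2 := z.2.2
    rwa [show 1 * (e - z.2) + z.2 = e by omega] at this
  have hf : ∀ z, From c v (y z) := fun z => ⟨z.1, e - z.2, e + 1, t, s z.2, fun w => by
    funext o
    simp only [y, map_mul, map_pow, eval_X, hs _ (he z.1 o), hP, Pi.smul_apply, smul_eq_mul,
      Finset.sum_apply]⟩
  let val : A × Fin (e + 1) → ι → ℂ := fun z o => eval w₀ (y z o)
  have hv : ∀ a, v a w₀ ∈ Submodule.span ℂ (Set.range val) := fun a => by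
    have : v a w₀ = ∑ r : Fin (e + 1), (w₀ c ^ (e - r))⁻¹ • val (a, r) := by
      funext o
      have h1 := homog_expand (he a o) 1 w₀
      rw [one_smul, hP] at h1
      rw [h1, Finset.sum_apply]
      refine sum_congr rfl fun r _ => ?_
      simp only [val, y, map_mul, map_pow, eval_X, Pi.smul_apply, smul_eq_mul, one_pow, one_mul]
      rw [inv_mul_cancel_left₀ (pow_ne_zero _ h0)]
    rw [this]
    exact Submodule.sum_mem _ fun r _ =>
      Submodule.smul_mem _ _ (Submodule.subset_span ⟨(a, r), rfl⟩)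
  obtain ⟨κ, g, hg, hsp, hli⟩ := exists_linearIndependent' ℂ val
  have : Finite κ := Finite.of_injective g hg
  let _ : Fintype κ := Fintype.ofFinite κ
  let q := (Fintype.equivFin κ).symm
  refine ⟨Fintype.card κ, e, fun i => y (g (q i)), ?_, fun i o => hy _ o,
    hli.comp q q.injective, fun i => hf _⟩
  rw [← finrank_span_eq_card hli, ← finrank_span_eq_card hi, hsp]
  exact Submodule.finrank_mono (Submodule.span_le.mpr (Set.range_subset_iff.mpr hv))

end Pool.Agent.Lib.MP_7906d6_an.Q
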