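import Pool.Agent.Lib.MP_7906d6_an.Q.Gfun

/-!
Admissible numbers of levels.
-/

namespace Pool.Agent.Lib.MP_7906d6_an.Q

open Finset
open scoped Nat

variable {m J : ℕ}

/-- The levels `2, …, J` admit orders whose eigenvalue bounds have a small sum. -/
def Ok (m J : ℕ) : Prop :=
  ∃ (j : ℕ → ℕ) (lam : ℕ → ℝ), (∀ l, 2 ≤ l → 2 ≤ j l ∧ j l ≤ l ∧
    ∀ k, j l ≤ k → |beta m (j l) k| ≤ lam l) ∧ 2 * (m : ℝ) * ∑ l ∈ Icc 2 J, lam l ≤ 1

theorem ok_of {s : ℕ} {l₂ l₃ l₄ l₀ : ℝ} (hs : 3 ≤ s) (b₂ : ∀ k, 2 ≤ k → |beta m 2 k| ≤ l₂)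
    (b₃ : ∀ k, 3 ≤ k → |beta m 3 k| ≤ l₃) (b₄ : ∀ k, 4 ≤ k → |beta m 4 k| ≤ l₄)
    (b₀ : ∀ k, s + 1 ≤ k → |beta m (s + 1) k| ≤ l₀)
    (h : 2 * (m : ℝ) * (l₂ + l₃ + (s - 3 : ℕ) * l₄ + (J - s : ℕ) * l₀) ≤ 1) : Ok m J := by
  have p₂ : 0 ≤ l₂ := (abs_nonneg _).trans (b₂ _ le_rfl)
  have p₃ : 0 ≤ l₃ := (abs_nonneg _).trans (b₃ _ le_rfl)
  have p₄ : 0 ≤ l₄ := (abs_nonneg _).trans (b₄ _ le_rfl)
  have p₀ : 0 ≤ l₀ := (abs_nonneg _).trans (b₀ _ le_rfl)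
  refine ⟨fun l => if l < 4 then l else if l ≤ s then 4 else s + 1,
    fun l => (if l = 2 then l₂ else 0) + (if l = 3 then l₃ else 0) +
      (if l ∈ Icc 4 s then l₄ else 0) + (if l ∈ Ioc s J ∨ J < l ∧ s < l then l₀ else 0),
    fun l hl => ⟨?_, ?_, ?_⟩, le_trans (mul_le_mul_of_nonneg_left ?_ (by positivity)) h⟩
  · beta_reduce
    split_ifs <;> omega
  · beta_reduce
    split_ifs <;> omega
  · simp only [mem_Icc, mem_Ioc]
    obtain rfl | rfl | h4 : l = 2 ∨ l = 3 ∨ 4 ≤ l := by omega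
    · rw [if_pos (by omega), if_pos rfl, if_neg (by omega), if_neg (by omega), if_neg (by omega)]
      simpa using b₂
    · rw [if_pos (by omega), if_neg (by omega), if_pos rfl, if_neg (by omega), if_neg (by omega)]
      simpa using b₃
    rw [if_neg (by omega), if_neg (by omega : ¬ l = 2), if_neg (by omega : ¬ l = 3)]
    by_cases a : l ≤ s
    · rw [if_pos a, if_pos ⟨h4, a⟩, if_neg (by omega)]
      simpa using b₄
    · rw [if_neg a, if_neg (by omega), if_pos (by omega)]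
      simpa using b₀
  have key : ∀ (T : Finset ℕ) (p : ℕ → Prop) [DecidablePred p] (x : ℝ), 0 ≤ x →
      (∀ l ∈ Icc 2 J, p l → l ∈ T) → ∑ l ∈ Icc 2 J, (if p l then x else 0) ≤ T.card * x := by
    intro T p _ x hx hT
    rw [← sum_filter, sum_const, nsmul_eq_mul]
    refine mul_le_mul_of_nonneg_right ?_ hx
    exact_mod_cast card_le_card fun l hl => hT l (mem_filter.1 hl).1 (mem_filter.1 hl).2
  have k₂ := key {2} (· = 2) l₂ p₂ fun l _ e => mem_singleton.2 e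
  have k₃ := key {3} (· = 3) l₃ p₃ fun l _ e => mem_singleton.2 e
  have k₄ := key (Icc 4 s) (· ∈ Icc 4 s) l₄ p₄ fun l _ e => e
  have k₀ := key (Ioc s J) (fun l => l ∈ Ioc s J ∨ J < l ∧ s < l) l₀ p₀ fun l hl e =>
    e.resolve_right fun e' => absurd (mem_Icc.1 hl).2 (not_le.2 e'.1)
  rw [card_singleton, Nat.cast_one, one_mul] at k₂ k₃
  rw [Nat.card_Icc, (by omega : s + 1 - 4 = s - 3)] at k₄
  rw [Nat.card_Ioc] at k₀
  rw [sum_add_distrib, sum_add_distrib, sum_add_distrib]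
  exact add_le_add (add_le_add (add_le_add k₂ k₃) k₄) k₀

theorem ob_sq {q : ℕ} (hq : 8 ≤ q) : 4 * (10 * q + 11) ^ 2 ≤ 4 ^ q := by
  induction q, hq using Nat.le_induction with
  | base => norm_num
  | succ q hq ih =>
    rw [pow_succ 4]
    nlinarith

theorem ob_choose {n A J : ℕ} (hn : 0 < n) (h : A * n ≤ J + 2) : A ^ n ≤ (J + 1 + n).choose n := by
  have h1 := Nat.pow_sub_le_descFactorial (J + 1 + n) n
  rw [Nat.descFactorial_eq_factorial_mul_choose, (by omega : J + 1 + n + 1 - n = J + 2)] at h1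
  have h2 := (Nat.pow_le_pow_left h n).trans
    (h1.trans (Nat.mul_le_mul_right _ (Nat.factorial_le_pow n)))
  rw [mul_pow, mul_comm] at h2
  exact Nat.le_of_mul_le_mul_left h2 (by positivity)

theorem ok_big (hm : 122 ≤ m) :
    ∃ J, Ok m J ∧ 2 ^ ((m - 7) ^ 2 / 2) + 1 < (J + 1 + (m - 2)).choose (m - 2) := by
  obtain ⟨q, h1, h2⟩ : ∃ q, 10 * q + 2 ≤ m ∧ m ≤ 10 * q + 11 := ⟨(m - 2) / 10, by omega, by omega⟩
  obtain ⟨J, h3, h4⟩ : ∃ J, J * (4 * m) ≤ 128 ^ q ∧ 128 ^ q < 4 * m * (J + 1) :=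
    ⟨128 ^ q / (4 * m), Nat.div_mul_le_self _ _, Nat.lt_mul_div_succ _ (by omega)⟩
  have hm' : (122 : ℝ) ≤ m := by exact_mod_cast hm
  have hm0 : (0 : ℝ) < m := by linarith
  refine ⟨J, ok_of (s := 3 * q) (by omega) (fun k hk => beta_le (by omega) hk (by omega))
    (fun k hk => beta_le (by omega) hk (by omega)) (fun k hk => beta_le (by omega) hk (by omega))
    (fun k hk => beta_exp h1 hk) ?_, ?_⟩
  · have c1 : ((3 * q - 3 : ℕ) : ℝ) ≤ 3 / 10 * m := by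
      have : ((10 * (3 * q - 3) : ℕ) : ℝ) ≤ (3 * m : ℕ) := Nat.cast_le.2 (by omega)
      rw [Nat.cast_mul, Nat.cast_mul] at this
      push_cast at this
      linarith
    have c2 : ((J - 3 * q : ℕ) : ℝ) * (1 / 128 ^ q) ≤ 1 / (4 * m) := by
      rw [mul_one_div, div_le_div_iff₀ (by positivity) (by positivity), one_mul]
      exact_mod_cast (Nat.mul_le_mul_right _ (Nat.sub_le _ _)).trans h3
    have c3 := mul_le_mul_of_nonneg_right c1 (by positivity : 0 ≤ (2 * ((4 : ℕ) : ℝ) / m) ^ 4)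
    refine (mul_le_mul_of_nonneg_left (add_le_add (add_le_add le_rfl c3) c2)
      (by positivity)).trans ?_
    have e : 2 * (m : ℝ) * ((2 * ((2 : ℕ) : ℝ) / m) ^ 2 + (2 * ((3 : ℕ) : ℝ) / m) ^ 3 +
        3 / 10 * m * (2 * ((4 : ℕ) : ℝ) / m) ^ 4 + 1 / (4 * m)) =
        (32 * m + 14448 / 5) / m ^ 2 + 1 / 2 := by
      push_cast
      field_simp
      ring
    have c4 : (32 * (m : ℝ) + 14448 / 5) / m ^ 2 ≤ 1 / 2 := by
      rw [div_le_iff₀ (by positivity)]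
      nlinarith
    rw [e]
    linarith
  · have c1 : 4 * m * m ≤ 4 ^ q := le_trans (by nlinarith) (ob_sq (by omega))
    have c2 : 4 * m * (32 ^ q * m) < 4 * m * (J + 1) := by
      refine lt_of_le_of_lt ?_ h4
      rw [(by norm_num : 128 = 4 * 32), mul_pow]
      calc 4 * m * (32 ^ q * m) = 4 * m * m * 32 ^ q := by ring
        _ ≤ 4 ^ q * 32 ^ q := Nat.mul_le_mul_right _ c1
    have c3 : 32 ^ q * (m - 2) ≤ J + 2 :=
      (Nat.mul_le_mul_left _ (Nat.sub_le _ _)).trans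
        ((lt_of_mul_lt_mul_left' c2).le.trans (by omega))
    have c4 : (m - 7) ^ 2 / 2 + 2 ≤ 5 * q * (m - 2) := by
      obtain ⟨n, rfl⟩ : ∃ n, m = n + 7 := ⟨m - 7, by omega⟩
      have e3 := Nat.div_mul_le_self (n ^ 2) 2
      rw [Nat.add_sub_cancel, (by omega : n + 7 - 2 = n + 5)]
      have e4 := Nat.mul_le_mul_right (n + 5) (by omega : n ≤ 10 * q + 4)
      have e5 : n * (n + 5) = n ^ 2 + 5 * n := by ring
      have e6 : (10 * q + 4) * (n + 5) = 2 * (5 * q * (n + 5)) + 4 * n + 20 := by ring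
      omega
    calc 2 ^ ((m - 7) ^ 2 / 2) + 1 < 2 ^ ((m - 7) ^ 2 / 2 + 2) := by
          have := Nat.one_le_two_pow (n := (m - 7) ^ 2 / 2)
          rw [pow_add]
          omega
      _ ≤ 2 ^ (5 * q * (m - 2)) := Nat.pow_le_pow_right two_pos c4
      _ = (32 ^ q) ^ (m - 2) := by rw [pow_mul, pow_mul]; norm_num
      _ ≤ _ := ob_choose (by omega) c3

/-- Position of the maximum. -/
def eK (b s : ℕ) : ℕ := ((List.range b).filter fun e =>
  (b - 2 * s) * (s + 1 + e) * (s + 1 + e + b + 2) < s * (b + 1) * (b + 2)).length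

/-- The maximum is at `eK b s`. -/
def TopAt (b s : ℕ) : Prop := 2 * s ≤ b ∧
  (eK b s = 0 ∨ (b - 2 * s) * (s + eK b s) * (s + eK b s + b + 2) ≤ s * (b + 1) * (b + 2)) ∧
  s * (b + 1) * (b + 2) ≤ (b - 2 * s) * (s + 1 + eK b s) * (s + 1 + eK b s + b + 2)

instance (b s : ℕ) : Decidable (TopAt b s) := by
  unfold TopAt
  infer_instance

/-- The value of the maximum. -/
def lq (b s : ℕ) : ℚ := (Gn b s (eK b s) : ℚ) / Gd b s (eK b s)

theorem TopAt.le {b s : ℕ} (h : TopAt b s) (k : ℕ) (hk : s + 1 ≤ k) :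
    |beta (b + 2) (s + 1) k| ≤ (lq b s : ℝ) := by
  obtain ⟨e, rfl⟩ := Nat.exists_eq_add_of_le hk
  rw [beta_abs, lq]
  push_cast
  exact G_sup h.1 h.2.1 h.2.2 e

/-- The number of levels above the last order. -/
def jq (b s : ℕ) : ℕ :=
  ((1 / (2 * (b + 2 : ℕ)) - lq b 1 - lq b 2 - (s - 3 : ℕ) * lq b 3) / lq b s).floor.toNat

/-- The numerical certificate in dimension `b + 2`. -/
def Cert (b s t : ℕ) : Prop := 3 ≤ s ∧ TopAt b 1 ∧ TopAt b 2 ∧ TopAt b 3 ∧ TopAt b s ∧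
  2 * ((b + 2 : ℕ) : ℚ) * (lq b 1 + lq b 2 + (s - 3 : ℕ) * lq b 3 + t * lq b s) ≤ 1 ∧
  b ! * (2 ^ ((b + 2 - 7) ^ 2 / 2) + 1) < (s + t + 1 + b).descFactorial b

instance (b s t : ℕ) : Decidable (Cert b s t) := by
  unfold Cert
  infer_instance

theorem cert : ∀ b < 120, 10 ≤ b → Cert b ((3 * b + 4) / 10) (jq b ((3 * b + 4) / 10)) := by
  decide +kernel

theorem ok_small (hm : 12 ≤ m) (hm' : m < 122) :
    ∃ J, Ok m J ∧ 2 ^ ((m - 7) ^ 2 / 2) + 1 < (J + 1 + (m - 2)).choose (m - 2) := by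
  obtain ⟨b, rfl⟩ : ∃ b, m = b + 2 := ⟨m - 2, by omega⟩
  have h := cert b (by omega) (by omega)
  generalize (3 * b + 4) / 10 = s at h
  generalize jq b s = t at h
  obtain ⟨h0, h1, h2, h3, h4, h5, h6⟩ := h
  refine ⟨s + t, ok_of h0 h1.le h2.le h3.le h4.le ?_, ?_⟩
  · rw [Nat.add_sub_cancel_left]
    exact_mod_cast h5
  · rw [Nat.descFactorial_eq_factorial_mul_choose] at h6
    exact lt_of_mul_lt_mul_left' h6

theorem ok_range (hm : 12 ≤ m) :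
    ∃ J, Ok m J ∧ 2 ^ ((m - 7) ^ 2 / 2) + 1 < (J + 1 + (m - 2)).choose (m - 2) :=
  (lt_or_ge m 122).elim (ok_small hm) ok_big

end Pool.Agent.Lib.MP_7906d6_an.Q
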