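import Pool.Agent.Lib.MP_7906d6_an.Q.AL
import Pool.Agent.Lib.MP_7906d6_an.Q.Homog
import Pool.Agent.Lib.MP_7906d6_an.Q.Ok

/-!
The dimension count for polynomial families.
-/

namespace Pool.Agent.Lib.MP_7906d6_an.Q

open MvPolynomial MeasureTheory Finset Matrix Pool.Agent.Lib.MP_7906d6_an.Rat
open scoped ComplexConjugate

variable {m : ℕ} {ι A B : Type} [Fintype ι] [Fintype A] [Fintype B]

theorem hv_of_from {c : Fin m} {j n n' : ℕ} {v : A → (Fin m → ℂ) → ι → ℂ}
    {v' : B → (Fin m → ℂ) → ι → ℂ} (h : ∀ a b, PV j (v a) (v' b))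
    {x : Fin n → ι → MvPolynomial (Fin m) ℂ} {y : Fin n' → ι → MvPolynomial (Fin m) ℂ}
    (hx : ∀ a, From c v (x a)) (hy : ∀ b, From c v' (y b)) : HV j x y := by
  intro a b u
  obtain ⟨a', k, D, t, s, e⟩ := hx a
  obtain ⟨b', k', D', t', s', e'⟩ := hy b
  choose q hq hq' using fun i => h a' b' (t' i • u)
  obtain ⟨θ, hθ⟩ := Mac.pm_mv (F := fun w : Fin m → ℂ => w c ^ k * conj (u c ^ k') *
    ∑ i, ∑ i', s i * conj (s' i') * (t i * conj (t' i')) ^ j * q i' (t i • w)) (by fun_prop)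
  have h1 : ∑ o, C (conj (eval u (y b o))) * x a o =
      (∑ r, C (conj (u r)) * X r) ^ j * θ := by
    refine MvPolynomial.funext fun w => ?_
    have h2 : eval w (∑ o, C (conj (eval u (y b o))) * x a o) =
        (fun o => eval w (x a o)) ⬝ᵥ star fun o => eval u (y b o) := by
      simp only [map_sum, map_mul, eval_C, dotProduct, Pi.star_apply, RCLike.star_def, mul_comm]
    have h3 : eval w (∑ r, C (conj (u r)) * X r : MvPolynomial (Fin m) ℂ) = w ⬝ᵥ star u := by
      simp only [map_sum, map_mul, eval_C, eval_X, dotProduct, Pi.star_apply, RCLike.star_def,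
        mul_comm]
    rw [h2, map_mul, map_pow, h3, hθ, e w, e' u]
    simp only [star_smul, star_sum, smul_dotProduct, dotProduct_smul, sum_dotProduct,
      dotProduct_sum, hq', smul_eq_mul, RCLike.star_def, mul_sum]
    rw [sum_comm]
    refine sum_congr rfl fun i _ => sum_congr rfl fun i' _ => ?_
    simp only [mul_pow]
    ring
  refine ⟨hol θ, ?_⟩
  have h4 := congrArg hol h1
  simpa only [map_sum, map_mul, map_pow, hol, rename_C, rename_X, ell] using h4

theorem count_pm (hm : 4 ≤ m) (c : Fin m) {v : A → (Fin m → ℂ) → ι → ℂ}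
    {y : B → (Fin m → ℂ) → ι → ℂ} (pv : ∀ a, PM (v a)) (py : ∀ b, PM (y b)) {k : B → ℕ} {J : ℕ}
    (hk : ∀ b, 2 ≤ k b ∧ k b ≤ J) (hJ : Ok m J) {w₀ : Fin m → ℂ}
    (h0 : w₀ c ≠ 0) (iv : LinearIndependent ℂ fun a => v a w₀)
    (iy : LinearIndependent ℂ fun b => y b w₀) (h1 : ∀ a a', PV 1 (v a) (v a'))
    (h2 : ∀ a b, PV (k b) (v a) (y b)) (h3 : ∀ b' b, PV (k b) (y b') (y b)) :
    m * (Fintype.card A + ∑ b, (k b - 1)) ≤ Fintype.card ι := by
  classical
  obtain ⟨n₀, e, x, hn₀, hx, ix, fx⟩ := homog c pv h0 iv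
  choose n e' z hn hz iz fz using fun l : Icc 2 J => homog c
    (v := fun b : {b // l.1 ≤ k b} => y b.1) (fun b => py b.1) h0
    (iy.comp _ Subtype.val_injective)
  obtain ⟨j, lam, hj, hs⟩ := hJ
  have hl := fun l : Icc 2 J => hj l (mem_Icc.1 l.2).1
  have key := count_hom hm (j := fun l : Icc 2 J => j l) (lam := fun l => lam l)
    (fun l => ⟨(hl l).1, (hl l).2.2⟩)
    (by rwa [sum_coe_sort (Icc 2 J) lam]) hx hz ix iz (hv_of_from h1 fx fx)
    (fun l => hv_of_from (fun a b => (h2 a b.1).mono ((hl l).2.1.trans b.2)) fx (fz l))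
    (fun l => hv_of_from (fun a b => (h3 a.1 b.1).mono ((hl l).2.1.trans b.2)) (fz l) (fz l))
  refine le_trans (Nat.mul_le_mul_left m (add_le_add (by rwa [Fintype.card_fin]) ?_)) key
  refine le_trans (le_of_eq ?_) (sum_le_sum fun l _ => hn l)
  simp only [Fintype.card_subtype, card_filter]
  rw [sum_comm]
  refine sum_congr rfl fun b _ => ?_
  rw [sum_coe_sort (Icc 2 J) fun l => if l ≤ k b then 1 else 0, ← card_filter]
  have h4 : (Icc 2 J).filter (· ≤ k b) = Icc 2 (k b) := by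
    ext l
    have := hk b
    simp only [mem_filter, mem_Icc]
    omega
  rw [h4, Nat.card_Icc]
  omega

end Pool.Agent.Lib.MP_7906d6_an.Q
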