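import Mathlib

/-!
Polynomials in `w` and its conjugate, Gaussian integrals: definitions.
-/

namespace Pool.Agent.Lib.MP_7906d6_an.Q

open MvPolynomial MeasureTheory Finset Matrix
open scoped ComplexConjugate

variable {m : ℕ}

/-- Polynomials in `w` (left variables) and its conjugate (right variables). -/
abbrev P (m : ℕ) : Type := MvPolynomial (Fin m ⊕ Fin m) ℂ

/-- Evaluation at `(w, conj w)`. -/
noncomputable def ev (w : Fin m → ℂ) : P m →+* ℂ := eval (Sum.elim w (star w))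

/-- The conjugate polynomial. -/
noncomputable def bar : P m →+* P m :=
  eval₂Hom ((C : ℂ →+* P m).comp (starRingEnd ℂ)) fun s => X s.swap

/-- A polynomial in `w` alone. -/
noncomputable def hol : MvPolynomial (Fin m) ℂ →ₐ[ℂ] P m := rename Sum.inl

/-- The squared norm. -/
noncomputable def R (m : ℕ) : P m := ∑ a : Fin m, X (Sum.inl a) * X (Sum.inr a)

/-- The pairing of `w` with the conjugate of `u`. -/
noncomputable def ell (u : Fin m → ℂ) : P m := ∑ a : Fin m, C (conj (u a)) * X (Sum.inl a)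

/-- The Laplacian. -/
noncomputable def Lam (φ : P m) : P m :=
  ∑ a : Fin m, pderiv (Sum.inl a) (pderiv (Sum.inr a) φ)

/-- Bihomogeneous of bidegree `(p, q)`. -/
def Bi (p q : ℕ) (φ : P m) : Prop :=
  IsWeightedHomogeneous (Sum.elim (fun _ => 1) fun _ => 0 : Fin m ⊕ Fin m → ℕ) φ p ∧
    IsWeightedHomogeneous (Sum.elim (fun _ => 0) fun _ => 1 : Fin m ⊕ Fin m → ℕ) φ q

/-- Harmonic of bidegree `(k, k)`. -/
def Har (k : ℕ) (h : P m) : Prop := Bi k k h ∧ Lam h = 0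

/-- The integration by parts rule of the standard Gaussian. -/
def Stein (σ : P m →ₗ[ℂ] ℂ) : Prop :=
  ∀ a φ, σ (X (Sum.inl a) * φ) = σ (pderiv (Sum.inr a) φ) ∧
    σ (X (Sum.inr a) * φ) = σ (pderiv (Sum.inl a) φ)

/-- What is used of the standard Gaussian measure. -/
structure IsGauss (μ : Measure (Fin m → ℂ)) (σ : P m →ₗ[ℂ] ℂ) : Prop where
  int : ∀ φ : P m, Integrable (fun w => ev w φ) μ
  eq : ∀ φ : P m, σ φ = ∫ w, ev w φ ∂μ
  stein : Stein σ
  one : σ 1 = 1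
  null : ∀ Δ : MvPolynomial (Fin m) ℂ, Δ ≠ 0 → ∀ᵐ w ∂μ, eval w Δ ≠ 0
  cone : ∀ (D : ℕ) (φ : P m), Bi D D φ →
    ∫ w, ev w φ / ev w (R m) ^ D ∂μ = σ φ / ∏ i ∈ range D, ((m : ℂ) + i)

/-- The Gaussian weight. -/
noncomputable def gw (w : Fin m → ℂ) : ℝ := Real.exp (-∑ a, ‖w a‖ ^ 2)

/-- Eigenvalues of the test operators. -/
noncomputable def beta (m j k : ℕ) : ℝ :=
  (-1) ^ k * k.factorial / (∏ i ∈ range k, ((m : ℝ) - 1 + i)) *
    ∏ i ∈ Ico 1 j, (1 - (k : ℝ) * (k + m - 1) / (i * (i + m - 1)))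

/-- The value of the Gaussian functional at `R ^ (2 * d)`. -/
noncomputable def Z (m d : ℕ) : ℝ := ∏ i ∈ range (2 * d), ((m : ℝ) + i)

/-- The pairing of `φ(w)` with `ψ(u)` has the factor `ell u ^ j`. -/
def Van {ι : Type} [Fintype ι] (j : ℕ) (φ ψ : ι → P m) : Prop :=
  ∀ u, ∃ θ : P m, ∑ o, C (conj (ev u (ψ o))) * φ o = ell u ^ j * θ

/-- The constant part. -/
noncomputable def mean (σ : P m →ₗ[ℂ] ℂ) (d : ℕ) (φ : P m) : ℂ := σ (φ * R m ^ d) / Z m d

/-- The normalised squared norm. -/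
noncomputable def nrm {ι : Type} [Fintype ι] (σ : P m →ₗ[ℂ] ℂ) (d : ℕ) (φ : ι → P m) : ℝ :=
  (σ (∑ o, φ o * bar (φ o))).re / Z m d

theorem ev_bar (w : Fin m → ℂ) (φ : P m) : ev w (bar φ) = conj (ev w φ) := by
  induction φ using MvPolynomial.induction_on with
  | C c => simp [ev, bar]
  | add p q hp hq => simp only [map_add, hp, hq]
  | mul_X p s hp =>
    simp only [map_mul, hp]
    rcases s with s | s <;> simp [ev, bar]

theorem ev_hol (w : Fin m → ℂ) (p : MvPolynomial (Fin m) ℂ) : ev w (hol p) = eval w p := by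
  simp [ev, hol, eval_rename, Function.comp_def]

theorem ev_C (w : Fin m → ℂ) (c : ℂ) : ev w (C c) = c := eval_C _

theorem ev_R (w : Fin m → ℂ) : ev w (R m) = ((∑ a, ‖w a‖ ^ 2 : ℝ) : ℂ) := by
  simp [ev, R, Complex.mul_conj']

theorem ev_ell (u w : Fin m → ℂ) : ev w (ell u) = w ⬝ᵥ star u := by
  simp [ev, ell, dotProduct, mul_comm]

end Pool.Agent.Lib.MP_7906d6_an.Q
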