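import Pool.Agent.Lib.MP_7906d6_an.Q.Num

/-!
Real inequalities drawn from the spectral data.
-/

namespace Pool.Agent.Lib.MP_7906d6_an.Q

open MvPolynomial MeasureTheory Finset Matrix
open scoped ComplexConjugate

variable {m : ℕ}

/-- Splitting off the two lowest terms. -/
theorem ineq_split {E : Type} [AddCommMonoid E] {d : ℕ} (hd : 1 ≤ d) (g : ℕ → E) :
    ∑ k ∈ range (d + 1), g k = g 0 + g 1 + ∑ k ∈ Ico 2 (d + 1), g k := by
  rw [range_eq_Ico, sum_eq_sum_Ico_succ_bot (by omega), sum_eq_sum_Ico_succ_bot (by omega)]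
  exact (add_assoc _ _ _).symm

/-- The upper part is controlled by the defect. -/
theorem ineq_upper (hm : 4 ≤ m) {d : ℕ} (hd : 1 ≤ d) {a : ℕ → ℝ} (ha : ∀ k, 0 ≤ a k)
    (h1 : ∑ k ∈ range (d + 1), beta m 1 k * a k = 0) :
    ∑ k ∈ Ico 2 (d + 1), a k ≤ 2 * (∑ k ∈ range (d + 1), a k - m * a 0) := by
  have hm4 : (4 : ℝ) ≤ m := by exact_mod_cast hm
  have hm1 : (0 : ℝ) < (m : ℝ) - 1 := by linarith
  have hm0 : (0 : ℝ) < (m : ℝ) := by linarith
  rw [ineq_split hd, beta_zero, beta_one_one (by omega)] at h1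
  rw [ineq_split hd a]
  set A := ∑ k ∈ Ico 2 (d + 1), a k with hA
  set T := ∑ k ∈ Ico 2 (d + 1), beta m 1 k * a k with hT
  have hA0 : 0 ≤ A := sum_nonneg fun k _ => ha k
  have hTA : -(2 / ((m : ℝ) * ((m : ℝ) - 1)) * A) ≤ T := by
    rw [hA, hT, mul_sum, ← sum_neg_distrib]
    refine sum_le_sum fun k hk => ?_
    have h := beta_one (m := m) (by omega) (mem_Ico.1 hk).1
    have h' := (abs_le.1 h).1
    have := mul_le_mul_of_nonneg_right h' (ha k)
    linarith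
  have ha1 : a 1 = ((m : ℝ) - 1) * (a 0 + T) := by
    field_simp at h1
    linarith
  have hT2 : -(2 / (m : ℝ) * A) ≤ ((m : ℝ) - 1) * T := by
    have := mul_le_mul_of_nonneg_left hTA hm1.le
    have e : ((m : ℝ) - 1) * -(2 / ((m : ℝ) * ((m : ℝ) - 1)) * A) = -(2 / (m : ℝ) * A) := by
      field_simp
    linarith
  have hq : 2 / (m : ℝ) ≤ 1 / 2 := by
    rw [div_le_div_iff₀ hm0 (by norm_num)]
    linarith
  have := mul_le_mul_of_nonneg_right hq hA0
  rw [ha1]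
  linarith

theorem ineq (hm : 4 ≤ m) {d j : ℕ} (hd : 1 ≤ d) (hj : 2 ≤ j) {a b : ℕ → ℝ}
    {f : ℕ → ℂ} (ha : ∀ k, 0 ≤ a k) (hb : ∀ k, 0 ≤ b k) (hf : ∀ k, ‖f k‖ ^ 2 ≤ a k * b k)
    (h1 : ∑ k ∈ range (d + 1), beta m 1 k * a k = 0)
    (h2 : ∑ k ∈ range (d + 1), beta m j k * b k = 0)
    (h3 : ∑ k ∈ range (d + 1), (beta m j k : ℂ) * f k = 0) {lam : ℝ}
    (hl : ∀ k, j ≤ k → |beta m j k| ≤ lam) :
    m * a 0 ≤ ∑ k ∈ range (d + 1), a k ∧ b 0 ≤ lam * ∑ k ∈ range (d + 1), b k ∧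
      ‖f 0‖ ^ 2 ≤ 2 * lam ^ 2 * (∑ k ∈ range (d + 1), a k - m * a 0) *
        ∑ k ∈ range (d + 1), b k := by
  have hU := ineq_upper hm hd ha h1
  have hA0 : 0 ≤ ∑ k ∈ Ico 2 (d + 1), a k := sum_nonneg fun k _ => ha k
  have hB0 : 0 ≤ ∑ k ∈ Ico 2 (d + 1), b k := sum_nonneg fun k _ => hb k
  have hl0 : 0 ≤ lam := (abs_nonneg _).trans (hl j le_rfl)
  have hβ : ∀ k ∈ Ico 2 (d + 1), |beta m j k| ≤ lam := fun k hk => by
    rcases lt_or_ge k j with h | h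
    · rwa [beta_lt (by omega) (by have := (mem_Ico.1 hk).1; omega) h, abs_zero]
    · exact hl k h
  have hβ1 : beta m j 1 = 0 := beta_lt (by omega) le_rfl (by omega)
  have hBB : ∑ k ∈ Ico 2 (d + 1), b k ≤ ∑ k ∈ range (d + 1), b k := by
    rw [ineq_split hd b]
    linarith [hb 0, hb 1]
  refine ⟨by linarith, ?_, ?_⟩
  · rw [ineq_split hd, beta_zero, hβ1] at h2
    have h : -(lam * ∑ k ∈ Ico 2 (d + 1), b k) ≤ ∑ k ∈ Ico 2 (d + 1), beta m j k * b k := by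
      rw [mul_sum, ← sum_neg_distrib]
      refine sum_le_sum fun k hk => ?_
      have := mul_le_mul_of_nonneg_right (abs_le.1 (hβ k hk)).1 (hb k)
      linarith
    have := mul_le_mul_of_nonneg_left hBB hl0
    linarith
  · rw [ineq_split hd, beta_zero, hβ1] at h3
    have e : f 0 = -∑ k ∈ Ico 2 (d + 1), (beta m j k : ℂ) * f k := by
      simp only [Complex.ofReal_one, Complex.ofReal_zero, one_mul, zero_mul, add_zero] at h3
      exact eq_neg_of_add_eq_zero_left h3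
    have hn : ‖f 0‖ ≤ lam * ∑ k ∈ Ico 2 (d + 1), √(a k) * √(b k) := by
      rw [e, norm_neg, mul_sum]
      refine (norm_sum_le _ _).trans (sum_le_sum fun k hk => ?_)
      rw [norm_mul, Complex.norm_real, Real.norm_eq_abs]
      refine mul_le_mul (hβ k hk) ?_ (norm_nonneg _) hl0
      rw [← Real.sqrt_mul (ha k)]
      exact Real.le_sqrt_of_sq_le (hf k)
    have hcs := sum_mul_sq_le_sq_mul_sq (Ico 2 (d + 1)) (fun k => √(a k)) fun k => √(b k)
    simp only [Real.sq_sqrt (ha _), Real.sq_sqrt (hb _)] at hcs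
    have h4 : (∑ k ∈ Ico 2 (d + 1), a k) * ∑ k ∈ Ico 2 (d + 1), b k ≤
        2 * (∑ k ∈ range (d + 1), a k - m * a 0) * ∑ k ∈ range (d + 1), b k :=
      mul_le_mul hU hBB hB0 (hA0.trans hU)
    calc ‖f 0‖ ^ 2 ≤ (lam * ∑ k ∈ Ico 2 (d + 1), √(a k) * √(b k)) ^ 2 :=
          pow_le_pow_left₀ (norm_nonneg _) hn 2
      _ = lam ^ 2 * (∑ k ∈ Ico 2 (d + 1), √(a k) * √(b k)) ^ 2 := mul_pow _ _ _
      _ ≤ lam ^ 2 * (2 * (∑ k ∈ range (d + 1), a k - m * a 0) * ∑ k ∈ range (d + 1), b k) :=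
          mul_le_mul_of_nonneg_left (hcs.trans h4) (sq_nonneg _)
      _ = _ := by ring

theorem ineq_one (hm : 4 ≤ m) {d : ℕ} (hd : 1 ≤ d) {a : ℕ → ℝ} (ha : ∀ k, 0 ≤ a k)
    (h1 : ∑ k ∈ range (d + 1), beta m 1 k * a k = 0) :
    m * a 0 ≤ ∑ k ∈ range (d + 1), a k := by
  have hU := ineq_upper hm hd ha h1
  have hA0 : 0 ≤ ∑ k ∈ Ico 2 (d + 1), a k := sum_nonneg fun k _ => ha k
  linarith

/-- The case distinction on the eigenvalue. -/
theorem eig_case {M x s lam A B : ℝ} (hM : 0 < M) (hl : 0 ≤ lam) (hl' : 2 * M * lam ≤ 1)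
    (hB0 : 0 ≤ B) (hA : A ≤ x) (hB : B ≤ s) (h1 : M * x ^ 2 ≤ A)
    (h2 : s ^ 2 ≤ lam * B) (h3 : (x * s) ^ 2 ≤ 2 * lam ^ 2 * (A - M * x ^ 2) * B) :
    s ≤ 2 * lam * (1 - M * x) := by
  have hs : 0 ≤ s := hB0.trans hB
  have hx2 : M * x ^ 2 ≤ x := h1.trans hA
  have hx : 0 ≤ x := le_trans (by positivity) hx2
  have hMx : 0 ≤ 1 - M * x := by
    rcases hx.eq_or_lt with h | h
    · rw [← h]
      norm_num
    · by_contra hc
      nlinarith [mul_pos h (neg_pos.2 (not_le.1 hc))]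
  rcases hs.eq_or_lt with h0 | h0
  · rw [← h0]
    positivity
  have hsl : s ≤ lam := by
    have : s * s ≤ lam * s := by nlinarith [mul_le_mul_of_nonneg_left hB hl]
    exact le_of_mul_le_mul_right this h0
  rcases le_or_gt (M * x) (1 / 2) with hc | hc
  · nlinarith [mul_le_mul_of_nonneg_left hc hl]
  · have hx0 : 0 < x := by
      rcases hx.eq_or_lt with h | h
      · rw [← h] at hc
        norm_num at hc
      · exact h
    have h4 : (A - M * x ^ 2) * B ≤ (x - M * x ^ 2) * s :=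
      mul_le_mul (by linarith) hB hB0 (by linarith)
    have h5 : (x * s) * (x * s) ≤ (2 * lam ^ 2 * (1 - M * x)) * (x * s) := by
      have := mul_le_mul_of_nonneg_left h4 (by positivity : 0 ≤ 2 * lam ^ 2)
      nlinarith
    have h6 : x * s ≤ 2 * lam ^ 2 * (1 - M * x) :=
      le_of_mul_le_mul_right h5 (mul_pos hx0 h0)
    have h7 := mul_le_mul_of_nonneg_left h6 (by positivity : 0 ≤ 2 * M)
    have h8 := mul_le_mul_of_nonneg_right hl' (by positivity : 0 ≤ 2 * lam * (1 - M * x))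
    have h9 := mul_le_mul_of_nonneg_right hc.le hs
    nlinarith

end Pool.Agent.Lib.MP_7906d6_an.Q
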