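import Pool.Agent.Lib.MP_7906d6_an.Q.Van
import Pool.Agent.Lib.MP_7906d6_an.Q.Ineq

/-!
Estimates at an eigenvector.
-/

namespace Pool.Agent.Lib.MP_7906d6_an.Q

open MvPolynomial MeasureTheory Finset Matrix
open scoped ComplexConjugate

variable {m : ℕ}

variable {μ : Measure (Fin m → ℂ)} {σ : P m →ₗ[ℂ] ℂ} {ι A B : Type} [Fintype ι] [Fintype A]
  [Fintype B]

theorem eig_bi {d : ℕ} {x : A → ι → MvPolynomial (Fin m) ℂ} {W : Matrix ι ι (P m)}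
    (h : IsProj d x W) (v : ι → ℂ) (o : ι) : Bi d d (∑ p, W o p * C (v p)) :=
  bi_sum fun p _ => by rw [mul_comm]; exact (h.bi o p).C_mul _

theorem eig_unit {v : ι → ℂ} (h1 : star v ⬝ᵥ v = 1) : ∑ o, ‖v o‖ ^ 2 = 1 := by
  have h : ((∑ o, ‖v o‖ ^ 2 : ℝ) : ℂ) = 1 := by
    rw [← h1, dotProduct, Complex.ofReal_sum]
    refine sum_congr rfl fun o _ => ?_
    rw [Pi.star_apply, Complex.star_def, Complex.conj_mul', Complex.ofReal_pow]
  exact_mod_cast h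

theorem eig_cs {v : ι → ℂ} (h1 : star v ⬝ᵥ v = 1) (u : ι → ℂ) :
    (star v ⬝ᵥ u).re ^ 2 ≤ ∑ o, ‖u o‖ ^ 2 := by
  have a1 : ‖star v ⬝ᵥ u‖ ≤ ∑ o, ‖v o‖ * ‖u o‖ := by
    rw [dotProduct]
    refine (norm_sum_le _ _).trans (le_of_eq (sum_congr rfl fun o _ => ?_))
    rw [norm_mul, Pi.star_apply, norm_star]
  have a2 := sum_mul_sq_le_sq_mul_sq univ (fun o => ‖v o‖) fun o => ‖u o‖
  rw [eig_unit h1, one_mul] at a2
  refine le_trans ?_ a2
  rw [← sq_abs]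
  exact pow_le_pow_left₀ (abs_nonneg _) ((Complex.abs_re_le_norm _).trans a1) 2

theorem eig_sq {v : ι → ℂ} (h1 : star v ⬝ᵥ v = 1) (t : ℝ) :
    ∑ o, ‖((t : ℂ) • v) o‖ ^ 2 = t ^ 2 := by
  simp only [Pi.smul_apply, smul_eq_mul, norm_mul, mul_pow, Complex.norm_real, Real.norm_eq_abs,
    sq_abs]
  rw [← mul_sum, eig_unit h1, mul_one]

theorem eig_dot {v : ι → ℂ} (h1 : star v ⬝ᵥ v = 1) (t : ℝ) :
    (star v ⬝ᵥ (t : ℂ) • v).re = t := by
  rw [dotProduct_smul, h1, smul_eq_mul, mul_one, Complex.ofReal_re]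

theorem eig_mix (v u : ι → ℂ) (t : ℝ) :
    (t * (star v ⬝ᵥ u).re) ^ 2 ≤ ‖∑ o, ((t : ℂ) • v) o * conj (u o)‖ ^ 2 := by
  have e : ∑ o, ((t : ℂ) • v) o * conj (u o) = t * conj (star v ⬝ᵥ u) := by
    rw [dotProduct, map_sum, mul_sum]
    refine sum_congr rfl fun o _ => ?_
    rw [Pi.smul_apply, smul_eq_mul, map_mul, Pi.star_apply, Complex.star_def, Complex.conj_conj,
      mul_assoc]
  rw [e, norm_mul, Complex.norm_conj, Complex.norm_real, Real.norm_eq_abs, mul_pow, mul_pow, sq_abs,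
    ← sq_abs (star v ⬝ᵥ u).re]
  exact mul_le_mul_of_nonneg_left
    (pow_le_pow_left₀ (abs_nonneg _) (Complex.abs_re_le_norm _) 2) (sq_nonneg t)

/-- The estimate at a unit eigenvector of the mean of the first projection. -/
theorem eig_one (hG : IsGauss μ σ) (hm : 4 ≤ m) {d : ℕ} (hd : 1 ≤ d)
    {x : A → ι → MvPolynomial (Fin m) ℂ} {W : Matrix ι ι (P m)} (h : IsProj d x W)
    (hv : HV 1 x x) {v : ι → ℂ} (h1 : star v ⬝ᵥ v = 1) {t : ℝ}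
    (h2 : (Matrix.of fun o p => mean σ d (W o p)) *ᵥ v = (t : ℂ) • v) : m * t ≤ 1 := by
  obtain ⟨a, -, -, ha, -, -, sa, -, a0, -, -, va, -, -⟩ :=
    hG.spec (by omega) (eig_bi h v) (eig_bi h v)
  have a1 := ineq_one hm hd ha (va 1 le_rfl (h.van h hv v))
  have a2 := h.nrm_le hG (by omega) v
  simp only [mean_mulVec, h2] at a0
  rw [h2, eig_dot h1, ← sa] at a2
  rw [a0, eig_sq h1] at a1
  have a3 : (0 : ℝ) ≤ m := Nat.cast_nonneg m
  by_contra hc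
  have a4 : 1 < m * t := not_le.1 hc
  have a5 : 0 < t := by
    by_contra ht
    have := mul_nonpos_of_nonneg_of_nonpos a3 (not_lt.1 ht)
    linarith
  have := mul_lt_mul_of_pos_right a4 a5
  nlinarith

theorem eig_two (hG : IsGauss μ σ) (hm : 4 ≤ m) {d j : ℕ} (hd : 1 ≤ d) (hj : 2 ≤ j)
    {x : A → ι → MvPolynomial (Fin m) ℂ} {y : B → ι → MvPolynomial (Fin m) ℂ}
    {W W' : Matrix ι ι (P m)} (h : IsProj d x W) (h' : IsProj d y W') (hv : HV 1 x x)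
    (hv' : HV j x y) (hv'' : HV j y y) {lam : ℝ} (hl : ∀ k, j ≤ k → |beta m j k| ≤ lam)
    (hl' : 2 * m * lam ≤ 1) {v : ι → ℂ} (h1 : star v ⬝ᵥ v = 1) {t : ℝ}
    (h2 : (Matrix.of fun o p => mean σ d (W o p)) *ᵥ v = (t : ℂ) • v) :
    (star v ⬝ᵥ (Matrix.of fun o p => mean σ d (W' o p)) *ᵥ v).re ≤ 2 * lam * (1 - m * t) := by
  obtain ⟨a, b, f, ha, hb, hf, sa, sb, a0, b0, f0, va, vb, vf⟩ :=
    hG.spec (by omega) (eig_bi h v) (eig_bi h' v)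
  obtain ⟨i1, i2, i3⟩ := ineq hm hd hj ha hb hf (va 1 le_rfl (h.van h hv v))
    (vb j (by omega) (h'.van h' hv'' v)) (vf j (by omega) (h.van h' hv' v)) hl
  have a2 := h.nrm_le hG (by omega) v
  have b2 := h'.nrm_le hG (by omega) v
  simp only [mean_mulVec, h2] at a0 b0 f0
  rw [h2, eig_dot h1, ← sa] at a2
  rw [← sb] at b2
  rw [eig_sq h1] at a0
  rw [a0] at i1 i3
  rw [b0] at i2
  rw [f0] at i3
  have hm0 : (0 : ℝ) < m := Nat.cast_pos.2 (by omega)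
  exact eig_case hm0 ((abs_nonneg _).trans (hl j le_rfl)) hl' (sum_nonneg fun k _ => hb k) a2 b2 i1
    ((eig_cs h1 _).trans i2) ((eig_mix v _ t).trans i3)

end Pool.Agent.Lib.MP_7906d6_an.Q
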