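import Pool.Agent.Lib.MP_7906d6_an.ExpE
import Pool.Agent.Lib.MP_7906d6_an.Q.Count
import Pool.Agent.Lib.MP_7906d6_an.Q.Coords

/-!
The dimension count at a point of the sphere.
-/

namespace Pool.Agent.Lib.MP_7906d6_an.Q

open MvPolynomial Finset Matrix Pool.Agent.Lib.MP_7906d6_an.Rat Pool.Agent.Lib.MP_7906d6_an.Exp
open scoped ComplexConjugate

variable {κ J : Type} [Fintype κ] [Fintype J]

/-- Euclidean coordinates on the quotient by an isotropic vector. -/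
theorem quot {z : Option κ → ℂ} (h0 : z none ≠ 0) (h1 : z ⬝ᵥ cj z = 0) :
    ∃ (n : ℕ) (Φ : (Option κ → ℂ) →ₗ[ℂ] Fin n → ℂ), n + 1 = Fintype.card κ ∧
      (∀ x y, x ⬝ᵥ cj z = 0 → y ⬝ᵥ cj z = 0 → Φ x ⬝ᵥ star (Φ y) = x ⬝ᵥ cj y) := by
  have hz : (fun o => z (some o)) ≠ 0 := fun e => by
    have e' : ∀ o, z (some o) = 0 := congrFun e
    simp [dot_cj, e', h0] at h1
  obtain ⟨n, Ψ, hn, hΨ⟩ := coords hz
  let π : (Option κ → ℂ) →ₗ[ℂ] κ → ℂ :=
    { toFun := fun x o => x (some o) - x none / z none * z (some o)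
      map_add' := fun x y => funext fun o => by simp only [Pi.add_apply]; ring
      map_smul' := fun c x => funext fun o => by
        simp only [Pi.smul_apply, smul_eq_mul, RingHom.id_apply]; ring }
  have h0' : conj (z none) ≠ 0 := by simpa using h0
  have e1 : ∀ x y, π x ⬝ᵥ star (π y) =
      (x - (x none / z none) • z) ⬝ᵥ cj (y - (y none / z none) • z) := fun x y => by
    rw [dot_cj]
    simp [π, dotProduct, h0]
  have e2 : ∀ x y (a b : ℂ), x ⬝ᵥ cj z = 0 → y ⬝ᵥ cj z = 0 →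
      (x - a • z) ⬝ᵥ cj (y - b • z) = x ⬝ᵥ cj y := fun x y a b hx hy => by
    have e3 : ∀ w, w ⬝ᵥ cj (y - b • z) = w ⬝ᵥ cj y - conj b * (w ⬝ᵥ cj z) := fun w => by
      rw [dot_cj_conj, sub_dotProduct, smul_dotProduct, smul_eq_mul, map_sub, map_mul,
        ← dot_cj_conj, ← dot_cj_conj]
    rw [e3, sub_dotProduct, sub_dotProduct, smul_dotProduct, smul_dotProduct, hx, h1,
      dot_cj_conj z y, hy]
    simp
  have e4 : ∀ x, x ⬝ᵥ cj z = 0 → π x ⬝ᵥ star (fun o => z (some o)) = 0 := fun x hx => by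
    have : (x - (x none / z none) • z) ⬝ᵥ cj z = 0 := by
      rw [sub_dotProduct, smul_dotProduct, hx, h1]; simp
    rw [dot_cj] at this
    simpa [π, dotProduct, h0] using this
  exact ⟨n, Ψ ∘ₗ π, hn, fun x y hx hy => by
    rw [LinearMap.comp_apply, LinearMap.comp_apply, hΨ _ _ (e4 x hx) (e4 y hy), e1, e2 _ _ _ _ hx hy]⟩

/-- Independence by classes of the vanishing order. -/
theorem classes {V I : Type} [Fintype V] [Fintype I] {u d : V → ℂ} (hd : u ⬝ᵥ d = 1) {k : I → ℕ}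
    {K : I → (V → ℂ) → ℂ} (pK : ∀ i, PM (K i))
    (hK : ∀ j (α : {i // k i = j} → ℂ), (∀ ζ, u ⬝ᵥ ζ = 0 → ∑ i, α i * K i ζ = 0) → α = 0)
    {α : I → ℂ} (h : ∀ ζ, ∑ i, α i * ((u ⬝ᵥ ζ) ^ k i * K i ζ) = 0) : α = 0 := by
  classical
  have key : ∀ n i, k i < n → α i = 0 := by
    intro n
    induction n with
    | zero => exact fun i hi => absurd hi (Nat.not_lt_zero _)
    | succ n ih =>
      have h1 := PM.cancel (F := fun ζ => ∑ i, α i * ((u ⬝ᵥ ζ) ^ (k i - n) * K i ζ))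
        (G := fun ζ => (u ⬝ᵥ ζ) ^ n) (by fun_prop) (by fun_prop) (y := d) (by simp [hd]) fun ζ => by
          rw [← h ζ, Finset.mul_sum]
          refine sum_congr rfl fun i _ => ?_
          rcases lt_or_ge (k i) n with h2 | h2
          · simp [ih i h2]
          · obtain ⟨c, hc⟩ := Nat.exists_eq_add_of_le h2
            rw [hc, Nat.add_sub_cancel_left]
            ring
      have h2 := hK n (fun i => α i) fun ζ hζ => by
        rw [← h1 ζ, ← Finset.sum_subtype (univ.filter fun i => k i = n) (by simp)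
          fun i => α i * K i ζ, sum_filter]
        refine sum_congr rfl fun i _ => ?_
        rcases lt_trichotomy (k i) n with h2 | h2 | h2
        · simp [ih i h2]
        · simp [h2]
        · rw [if_neg h2.ne', hζ, zero_pow (by omega), zero_mul, mul_zero]
      intro i hi
      rcases lt_or_eq_of_le (Nat.lt_succ_iff.mp hi) with h3 | h3
      · exact ih i h3
      · exact congrFun h2 ⟨i, h3⟩
  exact funext fun i => key _ i (Nat.lt_succ_self _)

/-- Many independent Taylor coefficients. -/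
theorem taylor_count {m r : ℕ} {E' : Type} [AddCommGroup E'] [Module ℂ E']
    {Y : (Fin (m + 2) → ℂ) → κ → ℂ} (pY : PM Y) {G : E' → κ → ℂ} {a : E' → Fin (m + 2) → ℂ}
    (pa : PM a) {Q : E' → (Fin (m + 2) → ℂ) → ℂ} (pQ : ∀ ξ, PM (Q ξ)) (pQ' : PM fun ξ => Q ξ 0)
    (h : ∀ ξ x, Y x ⬝ᵥ G ξ = (x ⬝ᵥ a ξ) ^ r * Q ξ x) {ξ₀ : E'} (h0 : Q ξ₀ 0 ≠ 0)
    (hs : ∀ x : Fin (m + 2) → ℂ, ∃ ξ, ∀ j : Fin (m + 1), a ξ j.succ = x j.succ) :
    (r + m).choose m ≤ Fintype.card κ := by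
  classical
  obtain ⟨Xv, hX⟩ := coefX pY
  obtain ⟨γ, hγ⟩ : ∃ γ : (univ : Finset (Fin (m + 1))).finsuppAntidiag r → Fin (m + 2) →₀ ℕ,
      ∀ φ, γ φ = Finsupp.cons 0 φ.1 := ⟨_, fun _ => rfl⟩
  have hdeg : ∀ φ, (γ φ).degree = r := fun φ => by
    rw [Finsupp.degree_eq_sum, Fin.sum_univ_succ, hγ]
    simpa using (mem_finsuppAntidiag.1 φ.2).1
  have hinj : Function.Injective γ := fun φ ψ e =>
    Subtype.ext (Finsupp.cons_right_injective 0 (by rwa [hγ, hγ] at e))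
  have hli : LinearIndependent ℂ fun φ => Xv (γ φ) := by
    refine Fintype.linearIndependent_iff.mpr fun α hα φ => ?_
    have h1 := PM.cancel (F := fun ξ => ∑ φ, α φ * ((γ φ).multinomial *
        ∏ j, a ξ j ^ γ φ j)) (G := fun ξ => Q ξ 0) (by fun_prop) pQ' h0 fun ξ => by
      have := congrArg (· ⬝ᵥ G ξ) hα
      simp only [sum_dotProduct, smul_dotProduct, zero_dotProduct, smul_eq_mul] at this
      rw [← this, Finset.mul_sum]
      refine sum_congr rfl fun φ _ => ?_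
      rw [hX _ _ r _ (pQ ξ) (h ξ) _ (hdeg φ).le, if_pos (hdeg φ),
        Finsupp.prod_fintype _ _ fun _ => pow_zero _]
      ring
    have h2 : ∑ φ, monomial (γ φ) (α φ * (γ φ).multinomial) = (0 : MvPolynomial _ ℂ) :=
      MvPolynomial.funext fun x => by
        obtain ⟨ξ, hξ⟩ := hs x
        rw [map_zero, ← h1 ξ, map_sum]
        refine sum_congr rfl fun φ _ => ?_
        rw [eval_monomial, Finsupp.prod_fintype _ _ fun _ => pow_zero _, mul_assoc,
          Fin.prod_univ_succ, Fin.prod_univ_succ fun j => a ξ j ^ γ φ j]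
        simp only [hξ, hγ φ, Finsupp.cons_zero, pow_zero]
    have h3 := congrArg (coeff (γ φ)) h2
    simp only [coeff_sum, coeff_monomial, hinj.eq_iff, sum_ite_eq', mem_univ, if_true, coeff_zero,
      mul_eq_zero] at h3
    exact h3.resolve_right (Nat.cast_ne_zero.mpr
      ((γ φ).multinomial_eq ▸ (Nat.multinomial_pos _ _).ne'))
  have h4 := hli.fintype_card_le_finrank
  rw [Fintype.card_coe, card_finsuppAntidiag_nat_eq_choose, card_univ, Fintype.card_fin,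
    show m + 1 + r - 1 = r + m by omega, Nat.choose_symm_add] at h4
  simpa using h4

/-- The dimension count at a unitary frame. -/
theorem geo {m : ℕ} (hm : 12 ≤ m + 2) {f : (Fin (m + 3) → ℂ) → Option κ → ℂ}
    {g : ℂ × (Fin (m + 3) → ℂ) → Option κ → ℂ} {U : (Fin (m + 3) → ℂ) × ℂ × (Fin (m + 3) → ℂ) → ℂ}
    (h : IsData f g U) {E : Fin (m + 3) → Fin (m + 3) → ℂ}
    (hE : ∀ a c, E a ⬝ᵥ star (E c) = if a = c then 1 else 0)
    (hE' : ∀ ζ, ∑ a, (E a ⬝ᵥ ζ) • star (E a) = ζ) (hq : f (E 0) none ≠ 0)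
    {I : Type} [Fintype I] {k : I → ℕ} (hk : ∀ i, 2 ≤ k i) {t : J → ℂ}
    {l : I → (Fin (m + 3) → ℂ) → J → ℂ} (pl : ∀ i, PM (l i))
    {K : I → (Fin (m + 3) → ℂ) × (Fin (m + 3) → ℂ) → ℂ} (pK : ∀ i, PM (K i))
    (hY : ∀ i u ζ, Yv f t (l i u) (E 0) u ⬝ᵥ g (E 0 ⬝ᵥ ζ, ζ) = (u ⬝ᵥ ζ) ^ k i * K i (u, ζ))
    (hK : ∀ j (α : {i // k i = j} → ℂ), (∀ ζ, E 1 ⬝ᵥ ζ = 0 →
      ∑ i, α i * K i (E 1, ζ) = 0) → α = 0)
    {S : Type} [Fintype S] {τ : S → ℂ}
    (hZ : ∀ (α : S → ℂ) (μ : ℂ), ∑ s, α s • f (E 0 + τ s • E 1) = μ • f (E 0) → α = 0) :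
    (m + 2) * (Fintype.card S + ∑ i, (k i - 1)) + 1 ≤ Fintype.card κ ∨
      2 ^ ((m + 2 - 7) ^ 2 / 2) + 1 ≤ Fintype.card κ := by
  classical
  have pf := h.pf
  have pg := h.pg
  have pU := h.pU
  obtain ⟨uu, huu⟩ : ∃ uu : (Fin (m + 2) → ℂ) → Fin (m + 3) → ℂ, ∀ x,
      uu x = ∑ a, x a • E a.succ := ⟨_, fun _ => rfl⟩
  have puu : PM uu := by rw [funext huu]; fun_prop
  have hu : ∀ x ζ, uu x ⬝ᵥ ζ = x ⬝ᵥ fun a => E a.succ ⬝ᵥ ζ := by
    intro x ζ
    rw [huu, sum_dotProduct]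
    simp only [smul_dotProduct, smul_eq_mul]
    rfl
  have hu0 : ∀ x, uu x ⬝ᵥ star (E 0) = 0 := fun x => by
    rw [hu]
    simp only [hE]
    simp [Fin.succ_ne_zero, dotProduct]
  have hu1 : ∀ x a, uu x ⬝ᵥ star (E (Fin.succ a)) = x a := fun x a => by
    rw [hu]
    simp only [hE]
    simp [dotProduct]
  have hu0' : ∀ x, E 0 ⬝ᵥ star (uu x) = 0 := fun x => by rw [dotProduct_star, hu0, star_zero]
  have hu2 : ∀ x y, uu x ⬝ᵥ star (uu y) = x ⬝ᵥ star y := fun x y => by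
    rw [hu]
    refine congrArg _ (funext fun a => ?_)
    rw [dotProduct_star, hu1]
    rfl
  have hu3 : uu (Pi.single 0 1) = E 1 := by simp [huu, Pi.single_apply]
  have pY : ∀ i, PM fun u => Yv f t (l i u) (E 0) u := fun i => by
    have := pl i
    unfold Yv
    fun_prop
  obtain ⟨J₀, hJ⟩ : ∃ J₀, J₀ = univ.sup k := ⟨_, rfl⟩
  obtain ⟨J₁, hO, h4⟩ := ok_range hm
  by_cases hc : J₀ ≤ J₁
  · left
    have hb : f (E 0) ⬝ᵥ cj (f (E 0)) = 0 := by simp [h.pair, hE]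
    obtain ⟨n, Φ, hn, hΦ⟩ := quot hq hb
    have o1 : ∀ (s : ℂ) x, f (E 0 + s • uu x) ⬝ᵥ cj (f (E 0)) = 0 := fun s x => by
      simp [h.pair, hE, hu0]
    have o2 : ∀ i x, Yv f t (l i (uu x)) (E 0) (uu x) ⬝ᵥ cj (f (E 0)) = 0 := fun i x => by
      simp [Yv, sum_dotProduct, o1]
    have ker : ∀ x, x ⬝ᵥ cj (f (E 0)) = 0 → Φ x = 0 → ∃ ν : ℂ, x = ν • f (E 0) := fun x hx h0 =>
      iso hq hb hx (by rw [← hΦ x x hx hx, h0, zero_dotProduct])
    have p2 : ∀ i u, ∃ q : ℂ × (Fin (m + 2) → ℂ) → ℂ, PM q ∧ ∀ (s : ℂ) w,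
        f (E 0 + s • uu w) ⬝ᵥ cj (Yv f t (l i (uu u)) (E 0) (uu u)) =
          (w ⬝ᵥ star u) ^ k i * q (s, w) := fun i u => by
      have p3 := PM.conj (F := fun z => K i (uu u, z)) (by have := pK i; fun_prop)
      refine ⟨fun x => x.1 ^ k i * conj (K i (uu u, star (E 0 + x.1 • uu x.2))),
        PM.mul (by fun_prop) (p3.comp (G := fun x : ℂ × (Fin (m + 2) → ℂ) => E 0 + x.1 • uu x.2)
          (by fun_prop)), fun s w => ?_⟩
      have e1 : E 0 ⬝ᵥ star (E 0 + s • uu w) = 1 := by simp [hE, hu0']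
      have e2 : conj (uu u ⬝ᵥ star (E 0 + s • uu w)) = s * (w ⬝ᵥ star u) := by
        rw [← hu2, dotProduct_star (uu u)]
        simp [hu0']
      rw [dot_cj_conj, ← h.hg, ← e1, hY, map_mul, map_pow, e2]
      ring
    have := count_pm (by omega) 0 (v := fun s w => Φ (f (E 0 + τ s • uu w)))
      (y := fun i w => Φ (Yv f t (l i (uu w)) (E 0) (uu w)))
      (fun s => PM.lin Φ (by fun_prop)) (fun i => PM.lin Φ ((pY i).comp puu)) (k := k) (J := J₁)
      (fun i => ⟨hk i, le_trans (hJ ▸ le_sup (mem_univ i)) hc⟩) hO (w₀ := Pi.single 0 1) (by simp)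
      (Fintype.linearIndependent_iff.mpr fun α hα => by
        obtain ⟨ν, hν⟩ := ker (∑ s, α s • f (E 0 + τ s • uu (Pi.single 0 1)))
          (by simp [sum_dotProduct, o1]) (by simpa only [map_sum, map_smul] using hα)
        exact congrFun (hZ α ν (hu3 ▸ hν)))
      (Fintype.linearIndependent_iff.mpr fun α hα => by
        obtain ⟨ν, hν⟩ := ker
          (∑ i, α i • Yv f t (l i (uu (Pi.single 0 1))) (E 0) (uu (Pi.single 0 1)))
          (by simp [sum_dotProduct, o2]) (by simpa only [map_sum, map_smul] using hα)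
        rw [hu3] at hν
        refine congrFun (classes (u := E 1) (d := star (E 1)) (by simp [hE])
          (K := fun i ζ => K i (E 1, ζ)) (fun i => by have := pK i; fun_prop) hK fun ζ => ?_)
        have := congrArg (· ⬝ᵥ g (E 0 ⬝ᵥ ζ, ζ)) hν
        simpa [sum_dotProduct, hY, h.hU] using this)
      (fun s s' u => ⟨fun w => τ s * conj (τ s') * U (E 0 + τ s • uu w, 1,
          star (E 0 + τ s' • uu u)), by fun_prop, fun w => by
        rw [hΦ _ _ (o1 _ _) (o1 _ _), h.pair]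
        simp [hE, hu0, hu0', hu2]
        ring⟩)
      (fun s i u => by
        obtain ⟨q, pq, e⟩ := p2 i u
        exact ⟨fun w => q (τ s, w), by fun_prop, fun w => by rw [hΦ _ _ (o1 _ _) (o2 _ _), e]⟩)
      fun i' i u => by
        obtain ⟨q, pq, e⟩ := p2 i u
        have := pl i'
        refine ⟨fun w => ∑ j, l i' (uu w) j / t j * q (t j, w), by fun_prop, fun w => ?_⟩
        rw [hΦ _ _ (o2 _ _) (o2 _ _), Finset.mul_sum]
        conv_lhs => rw [Yv, sum_dotProduct]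
        refine sum_congr rfl fun j _ => ?_
        rw [smul_dotProduct, e, smul_eq_mul]
        ring
    rw [Fintype.card_fin] at this
    omega
  · right
    obtain ⟨i, -, hi⟩ := exists_mem_eq_sup (univ : Finset I) (by
      by_contra h0
      rw [not_nonempty_iff_eq_empty.mp h0, sup_empty] at hJ
      exact hc (by simp [hJ])) k
    rw [← hJ] at hi
    obtain ⟨ζ, hζ⟩ : ∃ ζ : (Fin (m + 3) → ℂ) → Fin (m + 3) → ℂ, ∀ ξ,
        ζ ξ = ∑ j, ξ j • ((if j = 1 then 0 else 1 : ℂ) • star (E j)) := ⟨_, fun _ => rfl⟩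
    have pζ : PM ζ := by rw [funext hζ]; fun_prop
    have h1 : ∀ ξ j, E j ⬝ᵥ ζ ξ = if j = 1 then 0 else ξ j := fun ξ j => by
      rw [hζ, dotProduct_sum]
      simp only [dotProduct_smul, hE, smul_eq_mul, mul_ite, mul_one, mul_zero, Finset.sum_ite_eq,
        Finset.mem_univ, if_true]
    obtain ⟨ξ₀, h0⟩ : ∃ ξ₀, K i (E 1, ζ ξ₀) ≠ 0 := by
      by_contra! h2
      have := hK (k i) (Pi.single ⟨i, rfl⟩ 1) fun w hw => by
        have h5 : ζ (fun j => E j ⬝ᵥ w) = w := by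
          rw [hζ]
          refine Eq.trans (Finset.sum_congr rfl fun j _ => ?_) (hE' w)
          split_ifs with h6
          · simp [h6, hw]
          · rw [one_smul]
        rw [Fintype.sum_eq_single ⟨i, rfl⟩ fun j hj => by simp [hj], ← h5, h2, mul_zero]
      simpa using congrFun this ⟨i, rfl⟩
    have pKi := pK i
    have h3 := taylor_count (m := m) (r := k i)
      (Y := fun x => Yv f t (l i (E 1 + uu x)) (E 0) (E 1 + uu x)) ((pY i).comp (by fun_prop))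
      (G := fun ξ => g (E 0 ⬝ᵥ ζ ξ, ζ ξ)) (a := fun ξ a => E a.succ ⬝ᵥ ζ ξ) (by fun_prop)
      (Q := fun ξ x => K i (E 1 + uu x, ζ ξ)) (by fun_prop) (by fun_prop)
      (fun ξ x => by rw [hY, add_dotProduct, h1, if_pos rfl, zero_add, hu]) (ξ₀ := ξ₀)
      (by simpa [huu] using h0)
      fun x => ⟨vecCons 0 x, fun j => by
        rw [h1, if_neg (fun e : j.succ.succ = 1 => Fin.succ_ne_zero j (Fin.succ_injective _ e)),
          cons_val_succ]⟩
    have h5 := Nat.choose_le_choose m (by omega : J₁ + 1 + m ≤ J₀ + m)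
    rw [Fintype.card_option, ← hi] at h3
    rw [Nat.add_sub_cancel] at h4
    omega

end Pool.Agent.Lib.MP_7906d6_an.Q
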