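import Pool.Agent.Lib.MP_7906d6_an.Q.Num

/-!
Closed form of the eigenvalues, their maximum and their monotonicity in the dimension.
-/

namespace Pool.Agent.Lib.MP_7906d6_an.Q

open Finset
open scoped Nat

/-- Numerator of the closed form. -/
def Gn (b s e : ℕ) : ℕ := (s + e)! * (b + 2 * s + e + 2)! * (s + e + 1)! * b ! * (b + 1)!

/-- Denominator of the closed form. -/
def Gd (b s e : ℕ) : ℕ := s ! * e ! * (b + s + 1)! * (b + s + e + 1)! * (b + s + e + 2)!

theorem Gd_pos (b s e : ℕ) : 0 < Gd b s e := by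
  unfold Gd
  positivity

theorem beta_abs (b s e : ℕ) :
    |beta (b + 2) (s + 1) (s + 1 + e)| = (Gn b s e : ℝ) / Gd b s e := by
  induction s generalizing e with
  | zero =>
    have e1 : ∏ i ∈ range (0 + 1 + e), (((b + 2 : ℕ) : ℝ) - 1 + i) =
        ∏ i ∈ range (e + 1), ((b : ℝ) + 1 + i) := by
      rw [zero_add, add_comm 1 e]
      exact prod_congr rfl fun i _ => by push_cast; ring
    rw [beta, zero_add 1, Ico_self, prod_empty, mul_one, num_abs (by omega), ← zero_add 1, e1,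
      div_eq_div_iff (by positivity) (Nat.cast_pos.2 (Gd_pos _ _ _)).ne', Gn, Gd]
    have h := num_fact b (e + 1)
    simp only [zero_add, add_zero, mul_zero, Nat.factorial_zero, add_comm 1 e]
    push_cast
    rw [show b + e + 1 = b + (e + 1) from rfl, ← h]
    ring
  | succ s ih =>
    have e1 : beta (b + 2) (s + 1 + 1) (s + 1 + 1 + e) = beta (b + 2) (s + 1) (s + 1 + (e + 1)) *
        -(((e : ℝ) + 1) * (b + 2 * s + e + 4) / ((s + 1) * (b + s + 2))) := by
      rw [show s + 1 + 1 + e = s + 1 + (e + 1) from by omega, beta, beta,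
        prod_Ico_succ_top (by omega), ← mul_assoc]
      congr 1
      push_cast
      have : ((s : ℝ) + 1 + (b + 2) - 1) = b + s + 2 := by ring
      rw [this]
      field_simp
      ring
    rw [e1, abs_mul, ih, abs_neg, abs_of_nonneg (by positivity), div_mul_div_comm,
      div_eq_div_iff (mul_pos (Nat.cast_pos.2 (Gd_pos _ _ _)) (by positivity)).ne'
        (Nat.cast_pos.2 (Gd_pos _ _ _)).ne', Gn, Gn, Gd, Gd,
      show s + (e + 1) = s + 1 + e from by omega,
      show b + 2 * (s + 1) + e + 2 = b + 2 * s + (e + 1) + 2 + 1 from by omega,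
      show b + s + (e + 1) = b + (s + 1) + e from by omega,
      show b + (s + 1) + 1 = b + s + 1 + 1 from by omega,
      Nat.factorial_succ (b + 2 * s + (e + 1) + 2), Nat.factorial_succ (b + s + 1),
      Nat.factorial_succ s, Nat.factorial_succ e]
    push_cast
    ring

theorem gs_n (b s e : ℕ) :
    Gn b s (e + 1) = Gn b s e * ((s + e + 1) * (b + 2 * s + e + 3) * (s + e + 2)) := by
  unfold Gn
  rw [show s + (e + 1) = s + e + 1 from rfl, show b + 2 * s + (e + 1) + 2 = b + 2 * s + e + 2 + 1 by ring,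
    Nat.factorial_succ (s + e + 1), Nat.factorial_succ (b + 2 * s + e + 2), Nat.factorial_succ (s + e)]
  ring

theorem gs_d (b s e : ℕ) :
    Gd b s (e + 1) = Gd b s e * ((e + 1) * (b + s + e + 2) * (b + s + e + 3)) := by
  unfold Gd
  rw [show b + s + (e + 1) + 1 = b + s + e + 1 + 1 by ring,
    show b + s + (e + 1) + 2 = b + s + e + 1 + 1 + 1 by ring,
    show b + s + e + 2 = b + s + e + 1 + 1 by ring, Nat.factorial_succ (b + s + e + 1 + 1),
    Nat.factorial_succ (b + s + e + 1), Nat.factorial_succ e]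
  ring

theorem gs_id (r s e : ℕ) :
    (e + 1) * (2 * s + r + s + e + 2) * (2 * s + r + s + e + 3) + s * (2 * s + r + 1) * (2 * s + r + 2) =
      (s + e + 1) * (2 * s + r + 2 * s + e + 3) * (s + e + 2) +
        r * (s + 1 + e) * (s + 1 + e + (2 * s + r) + 2) := by
  ring

theorem gs_up {r s e : ℕ}
    (h : r * (s + 1 + e) * (s + 1 + e + (2 * s + r) + 2) ≤ s * (2 * s + r + 1) * (2 * s + r + 2)) :
    (Gn (2 * s + r) s e : ℝ) / Gd (2 * s + r) s e ≤
      (Gn (2 * s + r) s (e + 1) : ℝ) / Gd (2 * s + r) s (e + 1) := by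
  rw [div_le_div_iff₀ (Nat.cast_pos.2 (Gd_pos _ _ _)) (Nat.cast_pos.2 (Gd_pos _ _ _)),
    ← Nat.cast_mul, ← Nat.cast_mul, Nat.cast_le, gs_n, gs_d, ← mul_assoc, mul_right_comm _ _ (Gd _ _ _)]
  exact Nat.mul_le_mul_left _ (by have := gs_id r s e; omega)

theorem gs_down {r s e : ℕ}
    (h : s * (2 * s + r + 1) * (2 * s + r + 2) ≤ r * (s + 1 + e) * (s + 1 + e + (2 * s + r) + 2)) :
    (Gn (2 * s + r) s (e + 1) : ℝ) / Gd (2 * s + r) s (e + 1) ≤
      (Gn (2 * s + r) s e : ℝ) / Gd (2 * s + r) s e := by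
  rw [div_le_div_iff₀ (Nat.cast_pos.2 (Gd_pos _ _ _)) (Nat.cast_pos.2 (Gd_pos _ _ _)),
    ← Nat.cast_mul, ← Nat.cast_mul, Nat.cast_le, gs_n, gs_d, mul_right_comm _ _ (Gd _ _ _), ← mul_assoc (Gn _ _ _)]
  exact Nat.mul_le_mul_left _ (by have := gs_id r s e; omega)

/-- The maximum over `e` is attained at `E`. -/
theorem G_sup {b s E : ℕ} (hs : 2 * s ≤ b)
    (h1 : E = 0 ∨ (b - 2 * s) * (s + E) * (s + E + b + 2) ≤ s * (b + 1) * (b + 2))
    (h2 : s * (b + 1) * (b + 2) ≤ (b - 2 * s) * (s + 1 + E) * (s + 1 + E + b + 2)) (e : ℕ) :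
    (Gn b s e : ℝ) / Gd b s e ≤ (Gn b s E : ℝ) / Gd b s E := by
  obtain ⟨r, rfl⟩ := Nat.exists_eq_add_of_le hs
  rw [Nat.add_sub_cancel_left] at h1 h2
  rcases le_total e E with h | h
  · induction h using Nat.decreasingInduction with
    | self => exact le_rfl
    | of_succ k hk ih =>
      refine (gs_up ?_).trans ih
      refine le_trans ?_ (h1.resolve_left (by omega))
      exact Nat.mul_le_mul (Nat.mul_le_mul_left _ (by omega)) (by omega)
  · induction e, h using Nat.le_induction with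
    | base => exact le_rfl
    | succ k hk ih =>
      refine (gs_down (h2.trans ?_)).trans ih
      exact Nat.mul_le_mul (Nat.mul_le_mul_left _ (by omega)) (by omega)

theorem ga_step (b s e : ℕ) : Gn (b + 1) s e * Gd b s e ≤ Gn b s e * Gd (b + 1) s e := by
  have h1 : Gn (b + 1) s e = Gn b s e * ((b + 2 * s + e + 3) * (b + 2) * (b + 1)) := by
    rw [Gn, Gn, show b + 1 + 2 * s + e + 2 = b + 2 * s + e + 2 + 1 from by omega,
      Nat.factorial_succ (b + 2 * s + e + 2), Nat.factorial_succ (b + 1), Nat.factorial_succ b]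
    ring
  have h2 : Gd (b + 1) s e = (b + s + 2) * (b + s + e + 3) * (b + s + e + 2) * Gd b s e := by
    rw [Gd, Gd, show b + 1 + s + e + 2 = b + s + e + 1 + 1 + 1 from by omega,
      show b + 1 + s + e + 1 = b + s + e + 1 + 1 from by omega,
      show b + s + e + 2 = b + s + e + 1 + 1 from rfl,
      show b + 1 + s + 1 = b + s + 1 + 1 from by omega, Nat.factorial_succ (b + s + e + 1 + 1),
      Nat.factorial_succ (b + s + e + 1), Nat.factorial_succ (b + s + 1)]
    ring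
  rw [h1, h2, mul_assoc]
  refine Nat.mul_le_mul_left _ (Nat.mul_le_mul_right _ (Nat.mul_le_mul ?_ (by omega)))
  nlinarith [Nat.zero_le (s * s), Nat.zero_le (s * e)]

theorem G_mono {b b' : ℕ} (h : b ≤ b') (s e : ℕ) :
    (Gn b' s e : ℝ) / Gd b' s e ≤ (Gn b s e : ℝ) / Gd b s e := by
  induction b', h using Nat.le_induction with
  | base => exact le_rfl
  | succ c _ ih =>
    refine le_trans ?_ ih
    rw [div_le_div_iff₀ (Nat.cast_pos.2 (Gd_pos _ _ _)) (Nat.cast_pos.2 (Gd_pos _ _ _))]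
    exact_mod_cast ga_step c s e

theorem gt_fac {n m : ℕ} (k : ℕ) (h : m = n + k) : m ! = (n + 1).ascFactorial k * n ! := by
  rw [h, ← Nat.factorial_mul_ascFactorial, mul_comm]

theorem gt_poly (q : ℕ) : 128 * ((3 * q + 2 * q + 1).ascFactorial 5 *
    (10 * q + 2 * (3 * q) + 2 * q + 2 + 1).ascFactorial 18 *
    (3 * q + 2 * q + 1 + 1).ascFactorial 5 * (10 * q + 1).ascFactorial 10 *
    (10 * q + 1 + 1).ascFactorial 10) ≤ (3 * q + 1).ascFactorial 3 * (2 * q + 1).ascFactorial 2 *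
    (10 * q + 3 * q + 1 + 1).ascFactorial 13 * (10 * q + 3 * q + 2 * q + 1 + 1).ascFactorial 15 *
    (10 * q + 3 * q + 2 * q + 2 + 1).ascFactorial 15 := by
  simp only [Nat.ascFactorial_succ, Nat.ascFactorial_zero]
  ring_nf
  omega

theorem gt_r (c p a1 a2 a3 a4 a5 x1 x2 x3 x4 x5 : ℕ) :
    p * c * (a1 * x1 * (a2 * x2) * (a3 * x3) * (a4 * x4) * (a5 * x5)) =
      c * (a1 * a2 * a3 * a4 * a5) * (p * (x1 * x2 * x3 * x4 * x5)) := by ring

theorem G_T (q : ℕ) : 128 ^ q * Gn (10 * q) (3 * q) (2 * q) ≤ Gd (10 * q) (3 * q) (2 * q) := by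
  induction q with
  | zero => decide
  | succ q ih =>
    refine le_of_eq_of_le ?_ ((Nat.mul_le_mul (gt_poly q) ih).trans_eq ?_)
    · unfold Gn
      rw [gt_fac (n := 3 * q + 2 * q) (m := 3 * (q + 1) + 2 * (q + 1)) 5 (by ring),
        gt_fac (n := 10 * q + 2 * (3 * q) + 2 * q + 2)
          (m := 10 * (q + 1) + 2 * (3 * (q + 1)) + 2 * (q + 1) + 2) 18 (by ring),
        gt_fac (n := 3 * q + 2 * q + 1) (m := 3 * (q + 1) + 2 * (q + 1) + 1) 5 (by ring),
        gt_fac (n := 10 * q) (m := 10 * (q + 1)) 10 (by ring),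
        gt_fac (n := 10 * q + 1) (m := 10 * (q + 1) + 1) 10 (by ring), pow_succ]
      exact gt_r ..
    · unfold Gd
      rw [gt_fac (n := 3 * q) (m := 3 * (q + 1)) 3 (by ring),
        gt_fac (n := 2 * q) (m := 2 * (q + 1)) 2 (by ring),
        gt_fac (n := 10 * q + 3 * q + 1) (m := 10 * (q + 1) + 3 * (q + 1) + 1) 13 (by ring),
        gt_fac (n := 10 * q + 3 * q + 2 * q + 1)
          (m := 10 * (q + 1) + 3 * (q + 1) + 2 * (q + 1) + 1) 15 (by ring),
        gt_fac (n := 10 * q + 3 * q + 2 * q + 2)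
          (m := 10 * (q + 1) + 3 * (q + 1) + 2 * (q + 1) + 2) 15 (by ring)]
      simpa only [one_mul] using (gt_r 1 1 ..).symm

/-- Exponential decay of the eigenvalues. -/
theorem beta_exp {m q k : ℕ} (hm : 10 * q + 2 ≤ m) (hk : 3 * q + 1 ≤ k) :
    |beta m (3 * q + 1) k| ≤ 1 / 128 ^ q := by
  obtain ⟨b, rfl⟩ : ∃ b, m = b + 2 := ⟨m - 2, by omega⟩
  obtain ⟨e, rfl⟩ := Nat.exists_eq_add_of_le hk
  have e1 : 10 * q - 2 * (3 * q) = 4 * q := by omega
  rw [beta_abs]
  refine (G_mono (b := 10 * q) (by omega) _ _).trans ((G_sup (E := 2 * q) (by omega)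
    (Or.inr (by rw [e1]; nlinarith [Nat.zero_le (q ^ 2)]))
    (by rw [e1]; nlinarith [Nat.zero_le (q ^ 2)]) e).trans ?_)
  rw [div_le_div_iff₀ (Nat.cast_pos.2 (Gd_pos _ _ _)) (by positivity), one_mul, mul_comm]
  exact_mod_cast G_T q

end Pool.Agent.Lib.MP_7906d6_an.Q
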