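import Pool.Agent.Lib.MP_7906d6_an.Q.Alg

/-!
The Gram determinant times the orthogonal projection.
-/

namespace Pool.Agent.Lib.MP_7906d6_an.Q

open MvPolynomial MeasureTheory Finset Matrix
open scoped ComplexConjugate

variable {m : ℕ} {ι A : Type} [Fintype ι] [Fintype A]

/-- Bidegree of a determinant from the degrees of the rows. -/
theorem gram_bi_det [DecidableEq A] {M : Matrix A A (P m)} {p : A → ℕ}
    (h : ∀ i j, Bi (p i) (p i) (M i j)) : Bi (∑ i, p i) (∑ i, p i) M.det := by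
  rw [Matrix.det_apply']
  refine bi_sum fun σ _ => ?_
  rw [← map_intCast (C : ℂ →+* P m)]
  refine Bi.C_mul ?_ _
  have := bi_prod (s := univ) (p := fun i => p (σ i)) (q := fun i => p (σ i))
    (φ := fun i => M (σ i) i) fun i _ => h _ _
  rwa [Equiv.sum_comp σ p] at this

/-- Bidegree of the adjugate. -/
theorem gram_bi_adj [DecidableEq A] {M : Matrix A A (P m)} {e : ℕ}
    (h : ∀ i j, Bi e e (M i j)) (a b : A) :
    ∃ s, e + s = Fintype.card A * e ∧ Bi s s (M.adjugate a b) := by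
  refine ⟨∑ i, if i = b then 0 else e, ?_, ?_⟩
  · have h1 : e = ∑ i : A, if i = b then e else 0 := by simp
    have h2 : Fintype.card A * e = ∑ _i : A, e := by simp
    rw [h2]
    nth_rewrite 1 [h1]
    rw [← Finset.sum_add_distrib]
    refine Finset.sum_congr rfl fun i _ => ?_
    split_ifs <;> simp
  · rw [Matrix.adjugate_apply]
    refine gram_bi_det fun i j => ?_
    rw [Matrix.updateRow_apply]
    split_ifs with hib
    · rw [Pi.single_apply]
      split_ifs
      · simpa using bi_C (m := m) 1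
      · exact bi_zero _ _
    · exact h _ _

open scoped ComplexOrder in
/-- A vanishing Gram determinant gives a kernel vector. -/
theorem gram_ker [DecidableEq A] {N : Matrix ι A ℂ} (h : (Nᴴ * N).det = 0) :
    ∃ v : A → ℂ, v ≠ 0 ∧ N *ᵥ v = 0 := by
  obtain ⟨v, hv, h0⟩ := Matrix.exists_mulVec_eq_zero_iff.2 h
  exact ⟨v, hv, (Matrix.conjTranspose_mul_self_mulVec_eq_zero N v).1 h0⟩

open scoped ComplexOrder in
theorem gram_nonneg [DecidableEq A] (N : Matrix ι A ℂ) : 0 ≤ ((Nᴴ * N).det).re :=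
  (Complex.nonneg_iff.1 (Matrix.posSemidef_conjTranspose_mul_self N).det_nonneg).1

/-- The Gram determinant times the projection. -/
theorem exists_gram {x : A → ι → MvPolynomial (Fin m) ℂ} {e : ℕ}
    (hx : ∀ a o, (x a o).IsHomogeneous e) {w₀ : Fin m → ℂ}
    (hi : LinearIndependent ℂ fun a o => eval w₀ (x a o)) :
    ∃ (E : ℕ) (ρ : P m) (W : Matrix ι ι (P m)) (Δ : MvPolynomial (Fin m) ℂ),
      Bi E E ρ ∧ bar ρ = ρ ∧ (∀ o o', Bi E E (W o o')) ∧
      (∃ B : A → ι → P m, ∀ o o', W o o' = ∑ a, hol (x a o) * B a o') ∧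
      (∀ o o', bar (W o o') = W o' o) ∧ (∀ o o', ∑ p, W o p * W p o' = ρ * W o o') ∧
      ∑ o, W o o = (Fintype.card A : ℂ) • ρ ∧ (∀ w, 0 ≤ (ev w ρ).re) ∧ Δ ≠ 0 ∧
      ∀ w, eval w Δ ≠ 0 → ev w ρ ≠ 0 := by
  classical
  let Xm : Matrix ι A (P m) := Matrix.of fun o a => hol (x a o)
  let Ym : Matrix A ι (P m) := Matrix.of fun a o => bar (hol (x a o))
  let N : (Fin m → ℂ) → Matrix ι A ℂ := fun w => Matrix.of fun o a => eval w (x a o)
  have hX : ∀ o a, Bi e 0 (Xm o a) := fun o a => bi_hol (hx a o)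
  have hY : ∀ a o, Bi 0 e (Ym a o) := fun a o => (bi_hol (hx a o)).bar
  have hG : ∀ a b, Bi e e ((Ym * Xm) a b) := fun a b => by
    rw [Matrix.mul_apply]
    refine bi_sum fun o _ => ?_
    simpa using (hY a o).mul (hX o b)
  have bX : Xm.map bar = Ymᵀ := by ext o a : 2; rfl
  have bY : Ym.map bar = Xmᵀ := Matrix.ext fun a o => bar_bar _
  have bG : (Ym * Xm).map bar = (Ym * Xm)ᵀ := by
    rw [Matrix.map_mul, bX, bY, Matrix.transpose_mul]
  have bA : (Ym * Xm).adjugate.map bar = (Ym * Xm).adjugateᵀ := by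
    have := RingHom.map_adjugate (bar (m := m)) (Ym * Xm)
    rw [RingHom.mapMatrix_apply, RingHom.mapMatrix_apply, bG, ← Matrix.adjugate_transpose] at this
    exact this
  have hev : ∀ w, ev w (Ym * Xm).det = ((N w)ᴴ * N w).det := fun w => by
    rw [RingHom.map_det, RingHom.mapMatrix_apply, Matrix.map_mul]
    congr 2
    · ext a o; simp [Ym, N, ev_bar, ev_hol]
    · ext o a; simp [Xm, N, ev_hol]
  let D : Matrix A A (MvPolynomial (Fin m) ℂ) :=
    ((N w₀)ᴴ.map (C : ℂ →+* MvPolynomial (Fin m) ℂ)) * Matrix.of fun o a => x a o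
  have hD : ∀ w, eval w D.det = ((N w₀)ᴴ * N w).det := fun w => by
    rw [RingHom.map_det, RingHom.mapMatrix_apply, Matrix.map_mul]
    congr 2
    ext a o; simp
  refine ⟨Fintype.card A * e, (Ym * Xm).det, Xm * (Ym * Xm).adjugate * Ym, D.det, ?_, ?_, ?_,
    ⟨fun a o' => ((Ym * Xm).adjugate * Ym) a o', fun o o' => ?_⟩, fun o o' => ?_, fun o o' => ?_,
    ?_, fun w => ?_, ?_, fun w hw h0 => hw ?_⟩
  · simpa using gram_bi_det (p := fun _ => e) hG
  · rw [RingHom.map_det, RingHom.mapMatrix_apply, bG, Matrix.det_transpose]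
  · intro o o'
    rw [Matrix.mul_apply]
    refine bi_sum fun b _ => ?_
    rw [Matrix.mul_apply, Finset.sum_mul]
    refine bi_sum fun a _ => ?_
    obtain ⟨s, hs, hb⟩ := gram_bi_adj hG a b
    have := ((hX o a).mul hb).mul (hY b o')
    rwa [add_zero, zero_add, add_comm s e, hs] at this
  · rw [Matrix.mul_assoc, Matrix.mul_apply]; rfl
  · have : (Xm * (Ym * Xm).adjugate * Ym).map bar = (Xm * (Ym * Xm).adjugate * Ym)ᵀ := by
      rw [Matrix.map_mul, Matrix.map_mul, bX, bY, bA, Matrix.transpose_mul, Matrix.transpose_mul,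
        Matrix.mul_assoc]
    exact congrFun (congrFun this o) o'
  · have : (Xm * (Ym * Xm).adjugate * Ym) * (Xm * (Ym * Xm).adjugate * Ym)
        = (Ym * Xm).det • (Xm * (Ym * Xm).adjugate * Ym) := by
      calc _ = Xm * ((Ym * Xm).adjugate * (Ym * Xm)) * (Ym * Xm).adjugate * Ym := by
            simp only [Matrix.mul_assoc]
        _ = _ := by
            rw [Matrix.adjugate_mul, Matrix.mul_smul, Matrix.mul_one, Matrix.smul_mul,
              Matrix.smul_mul]
    have h2 := congrFun (congrFun this o) o'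
    rwa [Matrix.mul_apply, Matrix.smul_apply, smul_eq_mul] at h2
  · have : (Xm * (Ym * Xm).adjugate * Ym).trace = (Fintype.card A : ℂ) • (Ym * Xm).det := by
      rw [Matrix.mul_assoc, Matrix.trace_mul_comm, Matrix.mul_assoc, Matrix.adjugate_mul,
        Matrix.trace_smul, Matrix.trace_one, Nat.cast_smul_eq_nsmul, nsmul_eq_mul, smul_eq_mul,
        mul_comm]
    exact this
  · rw [hev]; exact gram_nonneg _
  · intro h0
    have h1 := hD w₀
    rw [h0, map_zero] at h1
    obtain ⟨v, hv, hk⟩ := gram_ker h1.symm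
    refine hv (funext (Fintype.linearIndependent_iff.1 hi v ?_))
    funext o
    have := congrFun hk o
    simpa [Matrix.mulVec, dotProduct, N, mul_comm] using this
  · rw [hev] at h0
    obtain ⟨v, hv, hk⟩ := gram_ker h0
    rw [hD]
    exact Matrix.exists_mulVec_eq_zero_iff.1 ⟨v, hv, by rw [← Matrix.mulVec_mulVec, hk, Matrix.mulVec_zero]⟩

end Pool.Agent.Lib.MP_7906d6_an.Q
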