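import Pool.Agent.Lib.MP_7906d6_an.Q.Alg

/-!
Harmonic decomposition and orthogonality.
-/

namespace Pool.Agent.Lib.MP_7906d6_an.Q

open MvPolynomial MeasureTheory Finset Matrix
open scoped ComplexConjugate

variable {m : ℕ}

theorem pderiv_R_l (a : Fin m) : pderiv (Sum.inl a) (R m) = X (Sum.inr a) := by
  simp [R, pderiv_X, Pi.single_apply, Finset.sum_ite_eq']

theorem pderiv_R_r (a : Fin m) : pderiv (Sum.inr a) (R m) = X (Sum.inl a) := by
  simp [R, pderiv_X, Pi.single_apply, Finset.sum_ite_eq']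

theorem Lam_R_mul {p q : ℕ} {φ : P m} (h : Bi p q φ) :
    Lam (R m * φ) = ((m + p + q : ℕ) : ℂ) • φ + R m * Lam φ := by
  have : ∀ a : Fin m, pderiv (Sum.inl a) (pderiv (Sum.inr a) (R m * φ)) =
      φ + X (Sum.inl a) * pderiv (Sum.inl a) φ + X (Sum.inr a) * pderiv (Sum.inr a) φ +
        R m * pderiv (Sum.inl a) (pderiv (Sum.inr a) φ) := fun a => by
    simp only [pderiv_mul, map_add, pderiv_R_l, pderiv_R_r, pderiv_X_self]
    ring
  simp only [Lam, this, sum_add_distrib, h.euler_l, h.euler_r, ← mul_sum, sum_const, card_univ,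
    Fintype.card_fin, Nat.cast_add, add_smul, Nat.cast_smul_eq_nsmul]

theorem Bi.Lam {p q : ℕ} {φ : P m} (h : Bi (p + 1) (q + 1) φ) : Bi p q (Lam φ) :=
  bi_sum fun a _ => (h.dr a).dl a

theorem Har.smul {k : ℕ} {h : P m} (hh : Har k h) (c : ℂ) : Har k (c • h) :=
  ⟨hh.1.smul c, by rw [Lam_smul, hh.2, smul_zero]⟩

theorem Lam_zero : Lam (0 : P m) = 0 := by simp [Lam]

theorem Lam_R_pow {k : ℕ} {h : P m} (hh : Har k h) (a : ℕ) :
    Lam (R m ^ (a + 1) * h) = (((a + 1) * (a + m + 2 * k) : ℕ) : ℂ) • (R m ^ a * h) := by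
  induction a with
  | zero =>
    rw [zero_add, pow_one, Lam_R_mul hh.1, hh.2, mul_zero, add_zero, pow_zero, one_mul h]
    congr 2
    ring
  | succ a ih =>
    rw [pow_succ' _ (a + 1), mul_assoc, Lam_R_mul ((bi_R_pow (a + 1)).mul hh.1), ih, mul_smul_comm,
      ← mul_assoc, ← pow_succ', ← add_smul, ← Nat.cast_add]
    congr 2
    ring

theorem decomp (hm : 1 ≤ m) {d : ℕ} {φ : P m} (h : Bi d d φ) :
    ∃ H : ℕ → P m, (∀ k, Har k (H k)) ∧ φ = ∑ k ∈ range (d + 1), R m ^ (d - k) * H k := by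
  induction d generalizing φ with
  | zero =>
    obtain ⟨c, rfl⟩ := h.const
    refine ⟨fun k => if k = 0 then C c else 0, fun k => ?_, by simp⟩
    beta_reduce
    split_ifs with hk
    · exact ⟨hk ▸ h, by simp [Lam]⟩
    · exact ⟨bi_zero _ _, Lam_zero⟩
  | succ d ih =>
    obtain ⟨H, h1, h2⟩ := ih h.Lam
    let c : ℕ → ℂ := fun k => (((d - k + 1) * (d - k + m + 2 * k) : ℕ) : ℂ)
    have hc : ∀ k, c k ≠ 0 := fun k => Nat.cast_ne_zero.2 (Nat.mul_ne_zero (by omega) (by omega))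
    let ψ : P m := ∑ k ∈ range (d + 1), R m ^ (d - k + 1) * ((c k)⁻¹ • H k)
    have b : Bi (d + 1) (d + 1) ψ := bi_sum fun k hk => by
      have := (bi_R_pow (d - k + 1)).mul ((h1 k).smul (c k)⁻¹).1
      rwa [show d - k + 1 + k = d + 1 by have := mem_range.1 hk; omega] at this
    have l : Lam ψ = Lam φ := by
      rw [h2, Lam_sum]
      refine sum_congr rfl fun k _ => ?_
      rw [Lam_R_pow ((h1 k).smul _), mul_smul_comm, smul_smul, mul_inv_cancel₀ (hc k), one_smul]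
    refine ⟨fun k => if k = d + 1 then φ - ψ else (c k)⁻¹ • H k, fun k => ?_, ?_⟩ <;> beta_reduce
    · split_ifs with hk
      · refine ⟨hk ▸ h.sub b, ?_⟩
        rw [sub_eq_add_neg, ← neg_one_smul ℂ ψ, Lam_add, Lam_smul, l, neg_one_smul, add_neg_cancel]
      · exact (h1 k).smul _
    · rw [sum_range_succ, if_pos rfl, Nat.sub_self, pow_zero, one_mul, ← sub_eq_iff_eq_add,
        sub_sub_cancel]
      refine sum_congr rfl fun k hk => ?_
      have := mem_range.1 hk
      rw [if_neg this.ne, show d + 1 - k = d - k + 1 by omega]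

theorem Stein.R_mul {σ : P m →ₗ[ℂ] ℂ} (hσ : Stein σ) {p q : ℕ} {φ : P m} (h : Bi p q φ) :
    σ (R m * φ) = ((m : ℂ) + q) * σ φ := by
  have : ∀ a : Fin m, σ (X (Sum.inl a) * X (Sum.inr a) * φ) =
      σ φ + σ (X (Sum.inr a) * pderiv (Sum.inr a) φ) := fun a => by
    rw [mul_assoc, (hσ a _).1, pderiv_mul, pderiv_X_self, one_mul, map_add]
  rw [R, sum_mul, map_sum]
  simp only [this, sum_add_distrib]
  rw [← map_sum σ fun a => X (Sum.inr a) * _, h.euler_r, map_smul, sum_const, card_univ,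
    Fintype.card_fin, nsmul_eq_mul, smul_eq_mul, add_mul]

theorem Stein.R_pow {σ : P m →ₗ[ℂ] ℂ} (hσ : Stein σ) (h1 : σ 1 = 1) (d : ℕ) :
    σ (R m ^ (2 * d)) = Z m d := by
  have : ∀ n, σ (R m ^ n) = ∏ i ∈ range n, ((m : ℂ) + i) := fun n => by
    induction n with
    | zero => simpa using h1
    | succ n ih => rw [pow_succ', hσ.R_mul (bi_R_pow n), ih, prod_range_succ, mul_comm]
  rw [this, Z]
  push_cast
  rfl

theorem Stein.orth {σ : P m →ₗ[ℂ] ℂ} (hσ : Stein σ) {k k' : ℕ} {h g : P m} (hh : Har k h)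
    (hg : Har k' g) (hk : k ≠ k') (a : ℕ) : σ (R m ^ a * (h * g)) = 0 := by
  induction a with
  | succ a ih =>
    rw [pow_succ', mul_assoc, hσ.R_mul ((bi_R_pow a).mul (hh.1.mul hg.1)), ih, mul_zero]
  | zero =>
    have e1 : (k : ℂ) * σ (h * g) =
        σ (Lam h * g) + ∑ a, σ (pderiv (Sum.inl a) h * pderiv (Sum.inr a) g) := by
      rw [← smul_eq_mul, ← map_smul, ← smul_mul_assoc, ← hh.1.euler_l, Lam, sum_mul, sum_mul,
        map_sum, map_sum, ← sum_add_distrib]
      refine sum_congr rfl fun a _ => ?_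
      rw [mul_assoc, (hσ a _).1, pderiv_mul, map_add, pderiv_comm]
    have e2 : (k' : ℂ) * σ (h * g) =
        (∑ a, σ (pderiv (Sum.inl a) h * pderiv (Sum.inr a) g)) + σ (h * Lam g) := by
      rw [← smul_eq_mul, ← map_smul, ← mul_smul_comm, ← hg.1.euler_r, Lam, mul_sum, mul_sum,
        map_sum, map_sum, ← sum_add_distrib]
      refine sum_congr rfl fun a _ => ?_
      rw [mul_left_comm, (hσ a _).2, pderiv_mul, map_add]
    rw [hh.2, zero_mul, map_zero, zero_add] at e1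
    rw [hg.2, mul_zero, map_zero, add_zero, ← e1] at e2
    rw [pow_zero, one_mul]
    exact (mul_eq_mul_right_iff.1 e2).resolve_left fun e => hk (Nat.cast_injective e).symm

theorem Z_pos (hm : 1 ≤ m) (d : ℕ) : 0 < Z m d := by
  refine prod_pos fun i _ => ?_
  have : (0 : ℝ) < m := Nat.cast_pos.2 hm
  positivity

end Pool.Agent.Lib.MP_7906d6_an.Q
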