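import Pool.Agent.Lib.MP_7906d6_an.Q.Alg

/-!
The Gaussian functional of the hyperplane orthogonal to a vector.
-/

namespace Pool.Agent.Lib.MP_7906d6_an.Q

open MvPolynomial MeasureTheory Finset Matrix
open scoped ComplexConjugate

variable {m : ℕ}

namespace Tau

/-- A derivative with constant coefficients. -/
noncomputable def dir (e : Fin m → Fin m ⊕ Fin m) (c : Fin m → ℂ) : Derivation ℂ (P m) (P m) :=
  ∑ a, c a • pderiv (e a)

theorem dir_apply (e : Fin m → Fin m ⊕ Fin m) (c : Fin m → ℂ) (φ : P m) :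
    dir e c φ = ∑ a, c a • pderiv (e a) φ := by
  have h : ⇑(dir e c) = ∑ a, ⇑(c a • (pderiv (e a) : Derivation ℂ (P m) (P m))) :=
    map_sum Derivation.coeFnAddMonoidHom _ _
  rw [h, Finset.sum_apply]
  rfl

theorem chain (π : P m →ₐ[ℂ] P m) (d e : Derivation ℂ (P m) (P m))
    (h : ∀ t, d (π (X t)) = π (e (X t))) (φ : P m) : d (π φ) = π (e φ) := by
  induction φ using MvPolynomial.induction_on with
  | C c => rw [algHom_C, derivation_C, map_zero]; exact d.map_algebraMap c
  | add p q hp hq => simp only [map_add, hp, hq]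
  | mul_X p s hp => simp only [map_mul, Derivation.leibniz, smul_eq_mul, map_add, hp, h]

/-- The conjugate linear form. -/
noncomputable def ellb (u : Fin m → ℂ) : P m := ∑ a : Fin m, C (u a) * X (Sum.inr a)

/-- The squared norm as a complex number. -/
noncomputable def nn (u : Fin m → ℂ) : ℂ := ∑ a, u a * conj (u a)

theorem ev_R_nn (u : Fin m → ℂ) : ev u (R m) = nn u := by
  simp [ev, R, nn]

theorem nn_ne {u : Fin m → ℂ} (hu : u ≠ 0) : nn u ≠ 0 := by
  rw [← ev_R_nn, ev_R, Complex.ofReal_ne_zero]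
  intro h
  apply hu
  funext a
  have := (Finset.sum_eq_zero_iff_of_nonneg fun a _ => sq_nonneg ‖u a‖).1 h a (mem_univ a)
  simpa using this

/-- Substitution of the orthogonal projection. -/
noncomputable def pr (u : Fin m → ℂ) : P m →ₐ[ℂ] P m :=
  aeval (Sum.elim (fun a => X (Sum.inl a) - C (u a / nn u) * ell u)
    fun a => X (Sum.inr a) - C (conj (u a) / nn u) * ellb u)

theorem pr_l (u : Fin m → ℂ) (a : Fin m) :
    pr u (X (Sum.inl a)) = X (Sum.inl a) - C (u a / nn u) * ell u := by simp [pr]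

theorem pr_r (u : Fin m → ℂ) (a : Fin m) :
    pr u (X (Sum.inr a)) = X (Sum.inr a) - C (conj (u a) / nn u) * ellb u := by simp [pr]

theorem pr_C (u : Fin m → ℂ) (c : ℂ) : pr u (C c) = C c := algHom_C _ _

theorem pr_ell {u : Fin m → ℂ} (hu : u ≠ 0) : pr u (ell u) = 0 := by
  have h : ∑ a, conj (u a) * (u a / nn u) = 1 := by
    simp only [← mul_div_assoc]
    rw [← Finset.sum_div, div_eq_one_iff_eq (nn_ne hu)]
    exact Finset.sum_congr rfl fun a _ => mul_comm _ _
  have h2 : pr u (ell u) = ell u - C (∑ a, conj (u a) * (u a / nn u)) * ell u := by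
    conv_lhs => rw [ell]
    simp only [map_sum, map_mul, pr_C, pr_l, mul_sub, Finset.sum_sub_distrib, Finset.sum_mul,
      mul_assoc]
    rfl
  rw [h2, h, map_one, one_mul, sub_self]

theorem pr_ellb {u : Fin m → ℂ} (hu : u ≠ 0) : pr u (ellb u) = 0 := by
  have h : ∑ a, u a * (conj (u a) / nn u) = 1 := by
    simp only [← mul_div_assoc]
    rw [← Finset.sum_div, div_eq_one_iff_eq (nn_ne hu)]
    rfl
  have h2 : pr u (ellb u) = ellb u - C (∑ a, u a * (conj (u a) / nn u)) * ellb u := by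
    conv_lhs => rw [ellb]
    simp only [map_sum, map_mul, pr_C, pr_r, mul_sub, Finset.sum_sub_distrib, Finset.sum_mul,
      mul_assoc]
    rfl
  rw [h2, h, map_one, one_mul, sub_self]

theorem dr_ell (u : Fin m → ℂ) (a : Fin m) : pderiv (Sum.inr a) (ell u) = 0 := by
  simp [ell, pderiv_X]

theorem dr_ellb (u : Fin m → ℂ) (a : Fin m) : pderiv (Sum.inr a) (ellb u) = C (u a) := by
  simp [ellb, pderiv_X, Pi.single_apply]

theorem dirb_l (c : Fin m → ℂ) (b : Fin m) : dir Sum.inr c (X (Sum.inl b)) = 0 := by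
  simp [dir_apply, pderiv_X]

theorem dirb_r (c : Fin m → ℂ) (b : Fin m) : dir Sum.inr c (X (Sum.inr b)) = C (c b) := by
  simp [dir_apply, pderiv_X, Pi.single_apply, smul_eq_C_mul]

theorem dr_pr (u : Fin m → ℂ) (a : Fin m) (φ : P m) :
    pderiv (Sum.inr a) (pr u φ) =
      pr u (pderiv (Sum.inr a) φ) - (u a / nn u) • pr u (dir Sum.inr (star u) φ) := by
  have := chain (pr u) (pderiv (Sum.inr a))
    (pderiv (Sum.inr a) - (u a / nn u) • dir Sum.inr (star u)) (fun t => ?_) φ
  · rw [this, Derivation.sub_apply, Derivation.smul_apply, map_sub, map_smul]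
  · rw [Derivation.sub_apply, Derivation.smul_apply]
    rcases t with b | b
    · rw [pr_l, map_sub, pderiv_C_mul, dr_ell, dirb_l, pderiv_X_of_ne (by simp)]
      simp
    · rw [pr_r, map_sub, pderiv_C_mul, dr_ellb, dirb_r, map_sub, map_smul, pr_C, smul_eq_C_mul,
        ← map_mul, ← map_mul]
      congr 1
      · by_cases h : b = a
        · subst h; simp
        · rw [pderiv_X_of_ne (by simpa using h), map_zero]
      · congr 1
        simp only [Pi.star_apply, RCLike.star_def]
        ring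

theorem key {σ : P m →ₗ[ℂ] ℂ} (hσ : Stein σ) {u : Fin m → ℂ} (hu : u ≠ 0) (a : Fin m) (φ : P m) :
    σ (pr u (X (Sum.inl a) * φ)) =
      σ (pr u (pderiv (Sum.inr a) φ)) - u a / nn u * σ (pr u (dir Sum.inr (star u) φ)) := by
  have h1 : ∀ b, σ (X (Sum.inl b) * pr u φ) =
      σ (pr u (pderiv (Sum.inr b) φ)) - u b / nn u * σ (pr u (dir Sum.inr (star u) φ)) := fun b => by
    rw [(hσ b _).1, dr_pr, map_sub, map_smul, smul_eq_mul]
  have h0 : ∑ b, conj (u b) * (u b / nn u) = 1 := by
    simp only [← mul_div_assoc]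
    rw [← Finset.sum_div, div_eq_one_iff_eq (nn_ne hu)]
    exact Finset.sum_congr rfl fun a _ => mul_comm _ _
  have h2 : σ (ell u * pr u φ) = 0 := by
    have e1 : σ (ell u * pr u φ) = ∑ b, conj (u b) * σ (X (Sum.inl b) * pr u φ) := by
      simp only [ell, Finset.sum_mul, map_sum, ← smul_eq_C_mul, smul_mul_assoc, map_smul,
        smul_eq_mul]
    have e2 : σ (pr u (dir Sum.inr (star u) φ)) =
        ∑ b, conj (u b) * σ (pr u (pderiv (Sum.inr b) φ)) := by
      simp only [dir_apply, map_sum, map_smul, smul_eq_mul, Pi.star_apply, RCLike.star_def]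
    rw [e1]
    simp only [h1, mul_sub, Finset.sum_sub_distrib, ← mul_assoc, ← Finset.sum_mul]
    rw [h0, one_mul, ← e2, sub_self]
  rw [map_mul, pr_l, sub_mul, map_sub, h1, mul_assoc, ← smul_eq_C_mul, map_smul, h2, smul_zero,
    sub_zero]

theorem dirb_ellb (u : Fin m → ℂ) : dir Sum.inr (star u) (ellb u) = C (nn u) := by
  simp only [dir_apply, dr_ellb, nn, map_sum, smul_eq_C_mul, ← map_mul, Pi.star_apply,
    RCLike.star_def, mul_comm]

theorem ev_dir_l (u : Fin m → ℂ) {p q : ℕ} {φ : P m} (h : Bi p q φ) :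
    ev u (dir Sum.inl u φ) = p * ev u φ := by
  have := congrArg (ev u) h.euler_l
  rw [smul_eq_C_mul, map_mul, ev_C] at this
  rw [← this, dir_apply]
  simp only [map_sum, smul_eq_C_mul, map_mul, ev_C]
  exact Finset.sum_congr rfl fun a _ => by simp [ev]

theorem ev_dir_r (u : Fin m → ℂ) {p q : ℕ} {φ : P m} (h : Bi p q φ) :
    ev u (dir Sum.inr (star u) φ) = q * ev u φ := by
  have := congrArg (ev u) h.euler_r
  rw [smul_eq_C_mul, map_mul, ev_C] at this
  rw [← this, dir_apply]
  simp only [map_sum, smul_eq_C_mul, map_mul, ev_C]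
  exact Finset.sum_congr rfl fun a _ => by simp [ev]

theorem bi_dir_l (c : Fin m → ℂ) {p q : ℕ} {φ : P m} (h : Bi (p + 1) q φ) :
    Bi p q (dir Sum.inl c φ) := by
  rw [dir_apply]
  exact bi_sum fun a _ => (h.dl a).smul _

theorem bi_dir_r (c : Fin m → ℂ) {p q : ℕ} {φ : P m} (h : Bi p (q + 1) φ) :
    Bi p q (dir Sum.inr c φ) := by
  rw [dir_apply]
  exact bi_sum fun a _ => (h.dr a).smul _

theorem Lam_pderiv (s : Fin m ⊕ Fin m) (φ : P m) : Lam (pderiv s φ) = pderiv s (Lam φ) := by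
  simp only [Lam, map_sum]
  exact Finset.sum_congr rfl fun a _ => by
    rw [pderiv_comm (Sum.inr a) s, pderiv_comm (Sum.inl a) s]

theorem Lam_dir (e : Fin m → Fin m ⊕ Fin m) (c : Fin m → ℂ) {φ : P m} (h : Lam φ = 0) :
    Lam (dir e c φ) = 0 := by
  rw [dir_apply, Lam_sum]
  exact Finset.sum_eq_zero fun a _ => by rw [Lam_smul, Lam_pderiv, h, map_zero, smul_zero]

end Tau

open Tau in
theorem exists_tau {σ : P m →ₗ[ℂ] ℂ} (hσ : Stein σ) (h1 : σ 1 = 1) {u : Fin m → ℂ} (hu : u ≠ 0) :
    ∃ τ : P m →ₗ[ℂ] ℂ, (∀ φ, τ (ell u * φ) = 0) ∧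
      (∀ p q φ, Bi p q φ → τ (R m * φ) = ((m : ℂ) - 1 + q) * τ φ) ∧
        ∀ k h, Har k h → τ h * ev u (R m) ^ k = (-1) ^ k * k.factorial * ev u h := by
  have hN := nn_ne hu
  refine ⟨σ ∘ₗ (pr u).toLinearMap, fun φ => ?_, fun p q φ hφ => ?_, fun k => ?_⟩
  · show σ (pr u (ell u * φ)) = 0
    rw [map_mul, pr_ell hu, zero_mul, map_zero]
  · show σ (pr u (R m * φ)) = ((m : ℂ) - 1 + q) * σ (pr u φ)
    have e1 : σ (pr u (R m * φ)) = ∑ a, σ (pr u (X (Sum.inl a) * (X (Sum.inr a) * φ))) := by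
      simp only [R, Finset.sum_mul, map_sum, mul_assoc]
    have e2 : ∑ a, σ (pr u (pderiv (Sum.inr a) (X (Sum.inr a) * φ))) =
        ((m : ℂ) + q) * σ (pr u φ) := by
      have e3 := congrArg (fun z => σ (pr u z)) hφ.euler_r
      simp only [map_sum, map_smul, smul_eq_mul] at e3
      simp only [pderiv_mul, pderiv_X_self, one_mul, map_add, Finset.sum_add_distrib, e3,
        Finset.sum_const, card_univ, Fintype.card_fin, nsmul_eq_mul]
      ring
    have e4 : ∑ a, u a / nn u * σ (pr u (dir Sum.inr (star u) (X (Sum.inr a) * φ))) =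
        σ (pr u φ) := by
      have e5 : ∑ a, u a * σ (pr u (dir Sum.inr (star u) (X (Sum.inr a) * φ))) =
          σ (pr u (dir Sum.inr (star u) (ellb u * φ))) := by
        simp only [ellb, Finset.sum_mul, map_sum, ← smul_eq_C_mul, smul_mul_assoc,
          Derivation.map_smul, map_smul, smul_eq_mul]
      have e6 : σ (pr u (dir Sum.inr (star u) (ellb u * φ))) = nn u * σ (pr u φ) := by
        rw [Derivation.leibniz, dirb_ellb, smul_eq_mul, smul_eq_mul, map_add, map_mul, pr_ellb hu,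
          zero_mul, zero_add, mul_comm φ, ← smul_eq_C_mul, map_smul, map_smul, smul_eq_mul]
      simp only [div_mul_eq_mul_div]
      rw [← Finset.sum_div, e5, e6, mul_div_cancel_left₀ _ hN]
    rw [e1]
    simp only [key hσ hu, Finset.sum_sub_distrib]
    rw [e2, e4]
    ring
  · show ∀ h, Har k h → σ (pr u h) * ev u (R m) ^ k = (-1) ^ k * k.factorial * ev u h
    rw [ev_R_nn]
    induction k with
    | zero =>
      intro h hh
      obtain ⟨c, rfl⟩ := hh.1.const
      have : σ (C c) = c := by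
        rw [← mul_one (C c), ← smul_eq_C_mul, map_smul, h1, smul_eq_mul, mul_one]
      rw [pr_C, this, ev_C]
      simp
    | succ k ih =>
      intro h hh
      have b1 : Bi k (k + 1) (dir Sum.inl u h) := bi_dir_l u hh.1
      have i1 := ih (dir Sum.inr (star u) (dir Sum.inl u h))
        ⟨bi_dir_r _ b1, Lam_dir _ _ (Lam_dir _ _ hh.2)⟩
      rw [ev_dir_r u b1, ev_dir_l u hh.1] at i1
      have e3 := congrArg (fun z => σ (pr u z)) hh.1.euler_l
      simp only [map_sum, map_smul, smul_eq_mul, key hσ hu, Finset.sum_sub_distrib] at e3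
      have e4 : ∑ a, σ (pr u (pderiv (Sum.inr a) (pderiv (Sum.inl a) h))) = 0 := by
        have e5 := congrArg (fun z => σ (pr u z)) hh.2
        simp only [Lam, map_sum, map_zero] at e5
        rw [← e5]
        exact Finset.sum_congr rfl fun a _ => by rw [pderiv_comm]
      have e6 : ∑ a, u a / nn u * σ (pr u (dir Sum.inr (star u) (pderiv (Sum.inl a) h))) =
          σ (pr u (dir Sum.inr (star u) (dir Sum.inl u h))) / nn u := by
        simp only [div_mul_eq_mul_div]
        rw [← Finset.sum_div, dir_apply Sum.inl]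
        simp only [map_sum, Derivation.map_smul, map_smul, smul_eq_mul]
      rw [e4, e6, zero_sub, ← neg_div, div_eq_iff hN] at e3
      have hk : ((k + 1 : ℕ) : ℂ) ≠ 0 := Nat.cast_ne_zero.2 (Nat.succ_ne_zero k)
      apply mul_left_cancel₀ hk
      rw [Nat.factorial_succ, Nat.cast_mul]
      linear_combination (-(nn u ^ k)) * e3 - i1

end Pool.Agent.Lib.MP_7906d6_an.Q
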