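import Pool.Agent.Lib.MP_7906d6_an.Q.Harm
import Pool.Agent.Lib.MP_7906d6_an.Q.Tau

/-!
The pointwise relation between the harmonic parts of a multiple of a power of the pairing.
-/

namespace Pool.Agent.Lib.MP_7906d6_an.Q

open MvPolynomial MeasureTheory Finset Matrix
open scoped ComplexConjugate

variable {m : ℕ}

theorem key_dr_ell (u : Fin m → ℂ) (a : Fin m) : pderiv (Sum.inr a) (ell u) = 0 := by
  simp [ell, map_sum, pderiv_X]

theorem Lam_ell (u : Fin m → ℂ) (n : ℕ) (θ : P m) :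
    ∃ θ' : P m, Lam (ell u ^ (n + 1) * θ) = ell u ^ n * θ' := by
  refine ⟨∑ a : Fin m, (((n + 1 : ℕ) : P m) * pderiv (Sum.inl a) (ell u) * pderiv (Sum.inr a) θ +
    ell u * pderiv (Sum.inl a) (pderiv (Sum.inr a) θ)), ?_⟩
  rw [Lam, Finset.mul_sum]
  refine Finset.sum_congr rfl fun a _ => ?_
  rw [pderiv_mul, pderiv_pow, key_dr_ell, mul_zero, zero_mul, zero_add, pderiv_mul, pderiv_pow,
    Nat.add_sub_cancel]
  ring

/-- The eigenvalues of the spherical Laplacian on bidegree `(k, k)`. -/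
noncomputable def key_lam (m k : ℕ) : ℂ := (k : ℂ) * (k + m - 1)

theorem key_R_Lam {k d : ℕ} (hk : k ≤ d) {h : P m} (hh : Har k h) :
    R m * Lam (R m ^ (d - k) * h) = (key_lam m d - key_lam m k) • (R m ^ (d - k) * h) := by
  obtain ⟨a, rfl⟩ := Nat.exists_eq_add_of_le hk
  rw [Nat.add_sub_cancel_left]
  cases a with
  | zero => simp [hh.2]
  | succ a =>
    have e : key_lam m (k + (a + 1)) - key_lam m k = (((a + 1) * (a + m + 2 * k) : ℕ) : ℂ) := by
      simp only [key_lam]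
      push_cast
      ring
    rw [Lam_R_pow hh a, e, mul_smul_comm, ← mul_assoc, ← pow_succ']

theorem key_lam_ne (hm : 2 ≤ m) {i : ℕ} (hi : 1 ≤ i) : key_lam m i ≠ 0 := by
  obtain ⟨a, rfl⟩ := Nat.exists_eq_add_of_le hm
  have e : key_lam (2 + a) i = ((i * (i + a + 1) : ℕ) : ℂ) := by
    simp only [key_lam]
    push_cast
    ring
  rw [e]
  exact Nat.cast_ne_zero.2 (Nat.mul_ne_zero (by omega) (by omega))

theorem key_step (hm : 2 ≤ m) (u : Fin m → ℂ) {d : ℕ} {H : ℕ → P m} (hH : ∀ k, Har k (H k))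
    (c : ℕ → ℂ) {i : ℕ} (hi : 1 ≤ i) {e : ℕ} {θ : P m}
    (h : ∑ k ∈ range (d + 1), c k • (R m ^ (d - k) * H k) = ell u ^ (e + 1) * θ) :
    ∃ θ' : P m, ∑ k ∈ range (d + 1), (c k * (1 - key_lam m k / key_lam m i)) •
      (R m ^ (d - k) * H k) = ell u ^ e * θ' := by
  obtain ⟨θ', h'⟩ := Lam_ell u e θ
  have hne := key_lam_ne hm hi
  refine ⟨(key_lam m i)⁻¹ • ((key_lam m i - key_lam m d) • (ell u * θ) + R m * θ'), ?_⟩
  have e1 : ell u ^ e * ((key_lam m i)⁻¹ • ((key_lam m i - key_lam m d) • (ell u * θ) + R m * θ'))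
      = (key_lam m i)⁻¹ • ((key_lam m i - key_lam m d) • (ell u ^ (e + 1) * θ) +
        R m * (ell u ^ e * θ')) := by
    simp only [smul_eq_C_mul]
    ring
  rw [e1, ← h', ← h, Lam_sum, Finset.mul_sum, Finset.smul_sum, ← Finset.sum_add_distrib,
    Finset.smul_sum]
  refine Finset.sum_congr rfl fun k hk => ?_
  have hk' : k ≤ d := Nat.lt_succ_iff.1 (Finset.mem_range.1 hk)
  rw [Lam_smul, mul_smul_comm, key_R_Lam hk' (hH k), smul_smul, smul_smul, ← add_smul, smul_smul]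
  congr 1
  field_simp
  ring

theorem key_iter (hm : 2 ≤ m) (u : Fin m → ℂ) {d : ℕ} {H : ℕ → P m} (hH : ∀ k, Har k (H k))
    (n : ℕ) : ∀ (e : ℕ) (θ : P m),
      ∑ k ∈ range (d + 1), R m ^ (d - k) * H k = ell u ^ (n + e) * θ →
        ∃ θ' : P m, ∑ k ∈ range (d + 1), (∏ i ∈ Ico 1 (n + 1), (1 - key_lam m k / key_lam m i)) •
          (R m ^ (d - k) * H k) = ell u ^ e * θ' := by
  induction n with
  | zero =>
    intro e θ h
    exact ⟨θ, by simpa using h⟩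
  | succ n ih =>
    intro e θ h
    obtain ⟨θ', h'⟩ := ih (e + 1) θ (by rw [h, show n + 1 + e = n + (e + 1) by ring])
    obtain ⟨θ'', h''⟩ := key_step hm u hH _ (i := n + 1) (by omega) h'
    refine ⟨θ'', ?_⟩
    rw [← h'']
    refine Finset.sum_congr rfl fun k _ => ?_
    rw [Finset.prod_Ico_succ_top (by omega : 1 ≤ n + 1)]

theorem key_tau_pow {τ : P m →ₗ[ℂ] ℂ}
    (hτ : ∀ p q φ, Bi p q φ → τ (R m * φ) = ((m : ℂ) - 1 + q) * τ φ) {k : ℕ} {h : P m}
    (hh : Bi k k h) (a : ℕ) :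
    τ (R m ^ a * h) = (∏ i ∈ range a, ((m : ℂ) - 1 + ((k + i : ℕ) : ℂ))) * τ h := by
  induction a with
  | zero => simp
  | succ a ih =>
    rw [pow_succ', mul_assoc, hτ _ _ _ ((bi_R_pow a).mul hh), ih, Finset.prod_range_succ]
    push_cast
    ring

theorem key_prod_ne (hm : 2 ≤ m) (n : ℕ) : ∏ i ∈ range n, ((m : ℂ) - 1 + i) ≠ 0 := by
  obtain ⟨a, rfl⟩ := Nat.exists_eq_add_of_le hm
  refine Finset.prod_ne_zero_iff.2 fun i _ => ?_
  have e : ((2 + a : ℕ) : ℂ) - 1 + i = ((a + i + 1 : ℕ) : ℂ) := by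
    push_cast
    ring
  rw [e]
  exact Nat.cast_ne_zero.2 (by omega)

theorem key_beta (m j k : ℕ) : (beta m j k : ℂ) =
    (-1) ^ k * k.factorial / (∏ i ∈ range k, ((m : ℂ) - 1 + i)) *
      ∏ i ∈ Ico 1 j, (1 - key_lam m k / key_lam m i) := by
  simp only [beta, key_lam]
  push_cast
  rfl

theorem key {σ : P m →ₗ[ℂ] ℂ} (hσ : Stein σ) (h1 : σ 1 = 1) (hm : 2 ≤ m) {u : Fin m → ℂ}
    (hu : u ≠ 0) {d j : ℕ} (hj : 1 ≤ j) {H : ℕ → P m} (hH : ∀ k, Har k (H k)) {θ : P m}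
    (h : ∑ k ∈ range (d + 1), R m ^ (d - k) * H k = ell u ^ j * θ) :
    ∑ k ∈ range (d + 1), (beta m j k : ℂ) * ev u (R m ^ (d - k) * H k) = 0 := by
  obtain ⟨n, rfl⟩ : ∃ n, j = n + 1 := ⟨j - 1, by omega⟩
  obtain ⟨τ, t1, t2, t3⟩ := exists_tau hσ h1 hu
  obtain ⟨θ', h'⟩ := key_iter hm u hH n 1 θ h
  have h0 := congrArg τ h'
  rw [pow_one, t1, map_sum] at h0
  have h2 : (∏ i ∈ range d, ((m : ℂ) - 1 + i)) *
      ∑ k ∈ range (d + 1), (beta m (n + 1) k : ℂ) * ev u (R m ^ (d - k) * H k) =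
      (∑ k ∈ range (d + 1), τ ((∏ i ∈ Ico 1 (n + 1), (1 - key_lam m k / key_lam m i)) •
        (R m ^ (d - k) * H k))) * ev u (R m) ^ d := by
    rw [Finset.mul_sum, Finset.sum_mul]
    refine Finset.sum_congr rfl fun k hk => ?_
    have hk' : k ≤ d := Nat.lt_succ_iff.1 (Finset.mem_range.1 hk)
    obtain ⟨a, rfl⟩ := Nat.exists_eq_add_of_le hk'
    have hne := key_prod_ne hm k
    have h3 := t3 k (H k) (hH k)
    rw [Nat.add_sub_cancel_left, map_smul, key_tau_pow t2 (hH k).1 a, Finset.prod_range_add,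
      key_beta, map_mul, map_pow, smul_eq_mul, pow_add]
    generalize (∏ i ∈ range k, ((m : ℂ) - 1 + i)) = A at hne ⊢
    generalize (∏ i ∈ range a, ((m : ℂ) - 1 + ((k + i : ℕ) : ℂ))) = B
    generalize (∏ i ∈ Ico 1 (n + 1), (1 - key_lam m k / key_lam m i)) = c
    have h4 : A * ((-1) ^ k * (k.factorial : ℂ) / A) = (-1) ^ k * k.factorial := by
      field_simp
    linear_combination (B * c * ev u (R m) ^ a * ev u (H k)) * h4 - (B * c * ev u (R m) ^ a) * h3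
  rw [h0, zero_mul] at h2
  exact (mul_eq_zero.1 h2).resolve_left (key_prod_ne hm d)

end Pool.Agent.Lib.MP_7906d6_an.Q
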