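import Pool.Agent.Lib.MP_7906d6_an.Q.Defs

/-!
Moments of the Gaussian weight.
-/

namespace Pool.Agent.Lib.MP_7906d6_an.Q

open MvPolynomial MeasureTheory Finset Matrix
open scoped ComplexConjugate

variable {m : ℕ}

/-- The integrand of a moment in one variable. -/
noncomputable def momF (p q : ℕ) (z : ℂ) : ℂ :=
  (Real.exp (-‖z‖ ^ 2) : ℂ) * (z ^ p * conj z ^ q)

/-- A moment in one variable. -/
noncomputable def momI (p q : ℕ) : ℂ := ∫ z : ℂ, momF p q z

theorem mom_radial (n : ℕ) :
    ∫ z : ℂ, ‖z‖ ^ n * Real.exp (-‖z‖ ^ 2) = Real.pi * Real.Gamma (((n : ℝ) + 2) / 2) := by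
  have h := Complex.integral_rpow_mul_exp_neg_rpow (p := 2) (q := (n : ℝ)) (by norm_num)
    (by have : (0 : ℝ) ≤ n := Nat.cast_nonneg n; linarith)
  simp only [Real.rpow_natCast, Real.rpow_two] at h
  rw [h]
  ring

theorem mom_radial_int (n : ℕ) :
    Integrable fun z : ℂ => ‖z‖ ^ n * Real.exp (-‖z‖ ^ 2) := by
  apply Integrable.of_integral_ne_zero
  rw [mom_radial]
  have : 0 < Real.Gamma (((n : ℝ) + 2) / 2) := Real.Gamma_pos_of_pos (by positivity)
  exact (mul_pos Real.pi_pos this).ne'

theorem momF_int (p q : ℕ) : Integrable (momF p q) := by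
  have hc : Continuous (momF p q) := by
    unfold momF
    fun_prop
  refine (mom_radial_int (p + q)).mono' hc.aestronglyMeasurable (Filter.Eventually.of_forall ?_)
  intro z
  simp only [momF, norm_mul, norm_pow, Complex.norm_real, Real.norm_eq_abs, Real.abs_exp,
    Complex.norm_conj]
  rw [pow_add]
  apply le_of_eq
  ring

theorem momI_diag (p : ℕ) : momI p p = Real.pi * p.factorial := by
  have h : ∀ z : ℂ, momF p p z = ((‖z‖ ^ (2 * p) * Real.exp (-‖z‖ ^ 2) : ℝ) : ℂ) := by
    intro z
    rw [momF, ← mul_pow, Complex.mul_conj', pow_mul]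
    push_cast
    ring
  simp only [momI, h]
  rw [integral_complex_ofReal, mom_radial]
  have : (((2 * p : ℕ) : ℝ) + 2) / 2 = (p : ℝ) + 1 := by
    push_cast
    ring
  rw [this, Real.Gamma_nat_eq_factorial]
  push_cast
  rfl

theorem momI_off {p q : ℕ} (h : p ≠ q) : momI p q = 0 := by
  have hd : ((p : ℝ) - q) ≠ 0 := sub_ne_zero.mpr (by exact_mod_cast h)
  set θ : ℝ := Real.pi / ((p : ℝ) - q) with hθ
  set a : Circle := Circle.exp θ with ha
  have ha1 : (a : ℂ) = Complex.exp (θ * Complex.I) := by rw [ha, Circle.coe_exp]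
  have ha2 : (a : ℂ) ^ p * conj (a : ℂ) ^ q = -1 := by
    rw [ha1, ← Complex.exp_conj, ← Complex.exp_nat_mul, ← Complex.exp_nat_mul, ← Complex.exp_add,
      ← Complex.exp_pi_mul_I]
    congr 1
    have h1 : ((p : ℝ) - q) * θ = Real.pi := by
      rw [hθ]
      field_simp
    have h2 : ((p : ℂ) - q) * θ = Real.pi := by exact_mod_cast h1
    rw [map_mul, Complex.conj_ofReal, Complex.conj_I, ← h2]
    ring
  have hrot : ∀ z : ℂ, momF p q (rotation a z) = -momF p q z := by
    intro z
    rw [rotation_apply, momF, momF, norm_mul, Circle.norm_coe, one_mul, map_mul, mul_pow, mul_pow]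
    linear_combination ((Real.exp (-‖z‖ ^ 2) : ℂ) * (z ^ p * conj z ^ q)) * ha2
  have h3 := MeasureTheory.integral_comp (rotation a) (momF p q)
  simp only [hrot, integral_neg] at h3
  have h4 : -momI p q = momI p q := h3
  linear_combination (-1 / 2 : ℂ) * h4

theorem momI_left (p q : ℕ) : momI (p + 1) q = q * momI p (q - 1) := by
  rcases q with _ | q
  · rw [momI_off (Nat.succ_ne_zero p)]
    simp
  · rw [Nat.add_sub_cancel]
    by_cases h : p = q
    · subst h
      rw [momI_diag, momI_diag, Nat.factorial_succ]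
      push_cast
      ring
    · rw [momI_off h, momI_off (by omega)]
      simp

theorem momI_right (p q : ℕ) : momI p (q + 1) = p * momI (p - 1) q := by
  rcases p with _ | p
  · rw [momI_off (Nat.succ_ne_zero q).symm]
    simp
  · rw [Nat.add_sub_cancel]
    by_cases h : p = q
    · subst h
      rw [momI_diag, momI_diag, Nat.factorial_succ]
      push_cast
      ring
    · rw [momI_off h, momI_off (by omega)]
      simp

theorem gw_prod (w : Fin m → ℂ) : gw w = ∏ a, Real.exp (-‖w a‖ ^ 2) := by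
  rw [gw, ← Real.exp_sum, Finset.sum_neg_distrib]

theorem gw_ev_monomial (s : (Fin m ⊕ Fin m) →₀ ℕ) (c : ℂ) (w : Fin m → ℂ) :
    (gw w : ℂ) * ev w (monomial s c) =
      c * ∏ a, momF (s (Sum.inl a)) (s (Sum.inr a)) (w a) := by
  rw [gw_prod, ev, eval_monomial, Finsupp.prod_fintype _ _ (fun _ => pow_zero _),
    Fintype.prod_sum_type]
  simp only [momF, Finset.prod_mul_distrib, Sum.elim_inl, Sum.elim_inr, Pi.star_apply,
    Complex.star_def, Complex.ofReal_prod]
  ring

theorem int_gw_monomial (s : (Fin m ⊕ Fin m) →₀ ℕ) (c : ℂ) :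
    ∫ w : Fin m → ℂ, (gw w : ℂ) * ev w (monomial s c) =
      c * ∏ a, momI (s (Sum.inl a)) (s (Sum.inr a)) := by
  simp only [gw_ev_monomial]
  rw [integral_const_mul,
    integral_fintype_prod_volume_eq_prod fun a => momF (s (Sum.inl a)) (s (Sum.inr a))]
  rfl

theorem int_gw (φ : P m) : Integrable fun w : Fin m → ℂ => (gw w : ℂ) * ev w φ := by
  induction φ using MvPolynomial.induction_on' with
  | monomial s c =>
    simp only [gw_ev_monomial]
    exact (Integrable.fintype_prod fun a => momF_int (s (Sum.inl a)) (s (Sum.inr a))).const_mul c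
  | add p q hp hq =>
    simp only [map_add, mul_add]
    exact hp.add hq

theorem stein_gw (a : Fin m) (φ : P m) :
    ∫ w : Fin m → ℂ, (gw w : ℂ) * ev w (X (Sum.inl a) * φ) =
      ∫ w : Fin m → ℂ, (gw w : ℂ) * ev w (pderiv (Sum.inr a) φ) ∧
    ∫ w : Fin m → ℂ, (gw w : ℂ) * ev w (X (Sum.inr a) * φ) =
      ∫ w : Fin m → ℂ, (gw w : ℂ) * ev w (pderiv (Sum.inl a) φ) := by
  induction φ using MvPolynomial.induction_on' with
  | monomial s c =>
    constructor
    · rw [X, monomial_mul, pderiv_monomial, int_gw_monomial, int_gw_monomial,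
        Fintype.prod_eq_mul_prod_compl a, Fintype.prod_eq_mul_prod_compl a]
      have h1 : ∏ i ∈ {a}ᶜ, momI ((Finsupp.single (Sum.inl a) 1 + s : _ →₀ ℕ) (Sum.inl i))
            ((Finsupp.single (Sum.inl a) 1 + s : _ →₀ ℕ) (Sum.inr i)) =
          ∏ i ∈ {a}ᶜ, momI ((s - Finsupp.single (Sum.inr a) 1 : _ →₀ ℕ) (Sum.inl i))
            ((s - Finsupp.single (Sum.inr a) 1 : _ →₀ ℕ) (Sum.inr i)) := by
        refine Finset.prod_congr rfl fun i hi => ?_
        have hi' : i ≠ a := by simpa using hi
        simp [hi']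
      rw [h1]
      have h2 := momI_left (s (Sum.inl a)) (s (Sum.inr a))
      simp only [Finsupp.coe_add, Pi.add_apply, Finsupp.single_eq_same, Finsupp.coe_tsub,
        Pi.sub_apply, ne_eq, reduceCtorEq, not_false_eq_true, Finsupp.single_eq_of_ne,
        zero_add, tsub_zero]
      rw [add_comm 1, h2]
      ring
    · rw [X, monomial_mul, pderiv_monomial, int_gw_monomial, int_gw_monomial,
        Fintype.prod_eq_mul_prod_compl a, Fintype.prod_eq_mul_prod_compl a]
      have h1 : ∏ i ∈ {a}ᶜ, momI ((Finsupp.single (Sum.inr a) 1 + s : _ →₀ ℕ) (Sum.inl i))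
            ((Finsupp.single (Sum.inr a) 1 + s : _ →₀ ℕ) (Sum.inr i)) =
          ∏ i ∈ {a}ᶜ, momI ((s - Finsupp.single (Sum.inl a) 1 : _ →₀ ℕ) (Sum.inl i))
            ((s - Finsupp.single (Sum.inl a) 1 : _ →₀ ℕ) (Sum.inr i)) := by
        refine Finset.prod_congr rfl fun i hi => ?_
        have hi' : i ≠ a := by simpa using hi
        simp [hi']
      rw [h1]
      have h2 := momI_right (s (Sum.inl a)) (s (Sum.inr a))
      simp only [Finsupp.coe_add, Pi.add_apply, Finsupp.single_eq_same, Finsupp.coe_tsub,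
        Pi.sub_apply, ne_eq, reduceCtorEq, not_false_eq_true, Finsupp.single_eq_of_ne,
        zero_add, tsub_zero]
      rw [add_comm 1, h2]
      ring
  | add p q hp hq =>
    constructor
    · simp only [mul_add, map_add]
      rw [integral_add (int_gw _) (int_gw _), integral_add (int_gw _) (int_gw _), hp.1, hq.1]
    · simp only [mul_add, map_add]
      rw [integral_add (int_gw _) (int_gw _), integral_add (int_gw _) (int_gw _), hp.2, hq.2]

theorem total_gw (m : ℕ) : ∫ w : Fin m → ℂ, gw w = Real.pi ^ m := by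
  simp only [gw_prod]
  rw [integral_fintype_prod_volume_eq_pow fun z : ℂ => Real.exp (-‖z‖ ^ 2), Fintype.card_fin]
  have h := mom_radial 0
  simp only [pow_zero, one_mul, Nat.cast_zero, zero_add, ne_eq, OfNat.ofNat_ne_zero,
    not_false_eq_true, div_self, Real.Gamma_one, mul_one] at h
  rw [h]

end Pool.Agent.Lib.MP_7906d6_an.Q
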