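import Pool.Agent.Lib.MP_7906d6_an.Q.Defs

/-!
The zero set of a nonzero polynomial is a null set.
-/

namespace Pool.Agent.Lib.MP_7906d6_an.Q

open MvPolynomial MeasureTheory Finset Matrix
open scoped ComplexConjugate

variable {m : ℕ}

theorem null_volume (m : ℕ) (Δ : MvPolynomial (Fin m) ℂ) (h : Δ ≠ 0) :
    ∀ᵐ w ∂(volume : Measure (Fin m → ℂ)), eval w Δ ≠ 0 := by
  induction m with
  | zero =>
    refine Filter.Eventually.of_forall fun w => ?_
    obtain ⟨c, rfl⟩ := C_surjective (Fin 0) Δ
    rw [eval_C]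
    exact fun h0 => h (by rw [h0, map_zero])
  | succ m ih =>
    have h1 : finSuccEquiv ℂ m Δ ≠ 0 := by simpa using h
    have h2 := ih _ (Polynomial.leadingCoeff_ne_zero.2 h1)
    have hp := (volume_preserving_piFinSuccAbove (fun _ : Fin (m + 1) => ℂ) 0).symm
    have hm : MeasurableSet {w : Fin (m + 1) → ℂ | eval w Δ ≠ 0} :=
      (isClosed_eq (MvPolynomial.continuous_eval Δ) continuous_const).measurableSet.compl
    rw [← hp.map_eq, ae_map_iff hp.measurable.aemeasurable hm, Measure.volume_eq_prod]
    have hm2 := hp.measurable hm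
    rw [← Measure.prod_swap]
    refine (ae_map_iff measurable_swap.aemeasurable hm2).2
      ((Measure.ae_prod_iff_ae_ae (measurable_swap hm2)).2 ?_)
    filter_upwards [h2] with s hs
    have h3 : (finSuccEquiv ℂ m Δ).map (eval s) ≠ 0 := fun h0 => hs (by
      have := congrArg (fun q => Polynomial.coeff q (finSuccEquiv ℂ m Δ).natDegree) h0
      simpa [Polynomial.coeff_map] using this)
    have h4 := (Polynomial.finite_setOf_isRoot h3).measure_zero (volume : Measure ℂ)
    refine measure_mono_null (fun y hy => ?_) h4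
    have h5 : eval (Fin.cons y s : Fin (m + 1) → ℂ) Δ = 0 := by
      simpa [MeasurableEquiv.piFinSuccAbove, Fin.insertNthEquiv] using hy
    rw [eval_eq_eval_mv_eval'] at h5
    exact h5

end Pool.Agent.Lib.MP_7906d6_an.Q
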