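import Pool.Agent.Lib.MP_7906d6_an.Q.Defs

/-!
Size of the eigenvalues.
-/

namespace Pool.Agent.Lib.MP_7906d6_an.Q

open MvPolynomial MeasureTheory Finset Matrix
open scoped ComplexConjugate

variable {m : ℕ}

theorem beta_zero (m j : ℕ) : beta m j 0 = 1 := by
  simp [beta]

theorem beta_one_one (hm : 2 ≤ m) : beta m 1 1 = -1 / ((m : ℝ) - 1) := by
  simp [beta]

theorem num_pos (hm : 2 ≤ m) (k : ℕ) : 0 < ∏ i ∈ range k, ((m : ℝ) - 1 + i) := by
  have hm' : (2 : ℝ) ≤ m := by exact_mod_cast hm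
  refine prod_pos fun i _ => ?_
  have : (0 : ℝ) ≤ i := Nat.cast_nonneg i
  linarith

theorem num_abs (hm : 2 ≤ m) (k : ℕ) :
    |(-1 : ℝ) ^ k * k.factorial / ∏ i ∈ range k, ((m : ℝ) - 1 + i)| =
      k.factorial / ∏ i ∈ range k, ((m : ℝ) - 1 + i) := by
  rw [abs_div, abs_mul, abs_pow, abs_neg, abs_one, one_pow, one_mul, Nat.abs_cast,
    abs_of_pos (num_pos hm k)]

theorem beta_one (hm : 2 ≤ m) {k : ℕ} (hk : 2 ≤ k) :
    |beta m 1 k| ≤ 2 / ((m : ℝ) * ((m : ℝ) - 1)) := by
  have hm' : (2 : ℝ) ≤ m := by exact_mod_cast hm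
  have e : ∀ k, |beta m 1 k| = k.factorial / ∏ i ∈ range k, ((m : ℝ) - 1 + i) := fun k => by
    rw [beta, Ico_self, prod_empty, mul_one, num_abs hm]
  rw [e]
  induction k, hk using Nat.le_induction with
  | base =>
    refine le_of_eq ?_
    simp only [prod_range_succ, range_zero, prod_empty, Nat.factorial]
    push_cast
    ring
  | succ k _ ih =>
    refine le_trans ?_ ih
    have h0 := num_pos hm k
    have hk0 : (0 : ℝ) ≤ k := Nat.cast_nonneg k
    rw [prod_range_succ, Nat.factorial_succ, div_le_div_iff₀ (mul_pos h0 (by linarith)) h0]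
    push_cast
    have h1 : (0 : ℝ) ≤ k.factorial * ∏ i ∈ range k, ((m : ℝ) - 1 + i) := by positivity
    nlinarith [mul_nonneg h1 (sub_nonneg.2 hm')]

theorem beta_lt (hm : 2 ≤ m) {j k : ℕ} (hk : 1 ≤ k) (hj : k < j) : beta m j k = 0 := by
  have hm' : (2 : ℝ) ≤ m := by exact_mod_cast hm
  have hk' : (1 : ℝ) ≤ k := by exact_mod_cast hk
  rw [beta, prod_eq_zero (mem_Ico.2 ⟨hk, hj⟩), mul_zero]
  rw [div_self (mul_pos (by linarith) (by linarith)).ne', sub_self]

theorem num_fact (n k : ℕ) :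
    (n.factorial : ℝ) * ∏ i ∈ range k, ((n : ℝ) + 1 + i) = (n + k).factorial := by
  induction k with
  | zero => simp
  | succ k ih =>
    rw [prod_range_succ, ← mul_assoc, ih, ← add_assoc, Nat.factorial_succ]
    push_cast
    ring

theorem num_swap (n k : ℕ) : (k.factorial : ℝ) / ∏ i ∈ range k, ((n : ℝ) + 1 + i) =
    ∏ t ∈ range n, ((t : ℝ) + 1) / ((k : ℝ) + 1 + t) := by
  have h1 := num_fact n k
  have h2 := num_fact k n
  have h3 : ∏ t ∈ range n, ((t : ℝ) + 1) = n.factorial := by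
    rw [← prod_range_add_one_eq_factorial]
    push_cast
    rfl
  rw [prod_div_distrib, h3, div_eq_div_iff (by positivity) (by positivity), h1, h2, add_comm]

theorem num_mid {j : ℕ} (hj : 1 ≤ j) (r : ℕ) :
    ∏ t ∈ range r, ((j : ℝ) + t) / (2 * j + t) ≤ (2 * (j : ℝ) / ((2 * j + r : ℕ) : ℝ)) ^ j := by
  have hj' : (1 : ℝ) ≤ j := by exact_mod_cast hj
  induction r with
  | zero =>
    push_cast
    rw [range_zero, prod_empty, add_zero, div_self (by linarith), one_pow]
  | succ r ih =>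
    have hr : (0 : ℝ) ≤ r := Nat.cast_nonneg r
    have hM : (0 : ℝ) < 2 * j + r := by linarith
    have h1 := one_add_mul_le_pow (a := -(1 / (2 * (j : ℝ) + r + 1)))
      (by
        have : 1 / (2 * (j : ℝ) + r + 1) ≤ 1 := by
          rw [div_le_one (by linarith)]
          linarith
        linarith) j
    have h2 : ((j : ℝ) + r) / (2 * j + r) ≤ 1 + j * -(1 / (2 * (j : ℝ) + r + 1)) := by
      have e : 1 + j * -(1 / (2 * (j : ℝ) + r + 1)) = (j + r + 1) / (2 * (j : ℝ) + r + 1) := by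
        field_simp
        ring
      rw [e, div_le_div_iff₀ hM (by linarith)]
      nlinarith
    rw [prod_range_succ]
    push_cast at ih ⊢
    refine (mul_le_mul ih (h2.trans h1) (by positivity) (by positivity)).trans_eq ?_
    rw [← mul_pow]
    congr 1
    field_simp
    ring

theorem num_pair {i k a n b c d u v : ℝ} (hi : 0 < i) (hk : i ≤ k) (ha : 0 < a) (hn : a ≤ i + n)
    (e1 : u = i) (e2 : b = k + i) (e3 : c = k + a) (e4 : d = k + n) (e5 : v = i + n) :
    i / b * (a / c) * |1 - k * d / (u * v)| ≤ 1 := by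
  subst e1 e2 e3 e4 e5
  have h1 : 0 < u + n := by linarith
  have h2 : 1 - k * (k + n) / (u * (u + n)) = -((k - u) * (k + u + n) / (u * (u + n))) := by
    field_simp
    ring
  have h3 : 0 ≤ (k - u) * (k + u + n) / (u * (u + n)) :=
    div_nonneg (mul_nonneg (by linarith) (by linarith)) (by positivity)
  have h4 : u / (k + u) * (a / (k + a)) * ((k - u) * (k + u + n) / (u * (u + n))) =
      (k - u) / (k + u) * (a * (k + u + n) / ((k + a) * (u + n))) := by
    have : k + u ≠ 0 := by linarith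
    have : k + a ≠ 0 := by linarith
    field_simp
  rw [h2, abs_neg, abs_of_nonneg h3, h4]
  refine mul_le_one₀ ?_ (div_nonneg (mul_nonneg ha.le (by linarith))
    (mul_nonneg (by linarith) h1.le)) ?_
  · rw [div_le_one (by linarith)]
    linarith
  · rw [div_le_one (mul_pos (by linarith) h1)]
    nlinarith

theorem beta_le {j k : ℕ} (hj : 1 ≤ j) (hk : j ≤ k) (hm : 2 * j ≤ m) :
    |beta m j k| ≤ (2 * (j : ℝ) / m) ^ j := by
  obtain ⟨r, rfl⟩ := Nat.exists_eq_add_of_le hm
  obtain ⟨s, rfl⟩ : ∃ s, j = s + 1 := ⟨j - 1, by omega⟩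
  have hk' : (s : ℝ) + 1 ≤ k := by exact_mod_cast hk
  have hs : (0 : ℝ) ≤ s := Nat.cast_nonneg s
  have hr : (0 : ℝ) ≤ r := Nat.cast_nonneg r
  have e1 : ∏ i ∈ range k, (((2 * (s + 1) + r : ℕ) : ℝ) - 1 + i) =
      ∏ i ∈ range k, (((s + r + s : ℕ) : ℝ) + 1 + i) :=
    prod_congr rfl fun i _ => by push_cast; ring
  rw [beta, abs_mul, num_abs (by omega), e1, num_swap, prod_range_add, prod_range_add,
    prod_Ico_eq_prod_range, abs_prod, Nat.add_sub_cancel, mul_right_comm _ (∏ t ∈ range r, _),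
    mul_right_comm, ← prod_mul_distrib, ← prod_mul_distrib]
  refine le_trans (mul_le_of_le_one_left (prod_nonneg fun t _ => by positivity)
    (prod_le_one (fun t _ => by positivity) fun t ht => ?_)) ?_
  · have ht' : (t : ℝ) + 1 ≤ s := by exact_mod_cast mem_range.1 ht
    have ht0 : (0 : ℝ) ≤ t := Nat.cast_nonneg t
    push_cast
    exact num_pair (n := 2 * (s + 1) + r - 1) (by linarith) (by linarith) (by linarith)
      (by linarith) (by ring) (by ring) (by ring) (by ring) (by ring)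
  · refine le_trans (prod_le_prod (fun t _ => by positivity) fun t _ => ?_) (num_mid hj r)
    have ht0 : (0 : ℝ) ≤ t := Nat.cast_nonneg t
    push_cast
    rw [div_le_div_iff₀ (by linarith) (by linarith)]
    nlinarith

end Pool.Agent.Lib.MP_7906d6_an.Q
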