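import Pool.Agent.Lib.MP_7906d6_an.Q.Harm

/-!
A polynomial weight with mean close to one.
-/

namespace Pool.Agent.Lib.MP_7906d6_an.Q

open MvPolynomial MeasureTheory Finset Matrix
open scoped ComplexConjugate

variable {m : ℕ} {μ : Measure (Fin m → ℂ)} {σ : P m →ₗ[ℂ] ℂ}

theorem weight_fin (hG : IsGauss μ σ) : IsFiniteMeasure μ := by
  have h := hG.int 1
  simp only [map_one] at h
  exact (integrable_const_iff_isFiniteMeasure one_ne_zero).1 h

theorem weight_one (hG : IsGauss μ σ) : ∫ _w, (1 : ℝ) ∂μ = 1 := by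
  have h := hG.eq 1
  simp only [map_one] at h
  rw [hG.one] at h
  have h2 : ((∫ _w, (1 : ℝ) ∂μ : ℝ) : ℂ) = 1 := by
    rw [← integral_complex_ofReal]
    exact h.symm
  exact_mod_cast h2

theorem weight_lim (hG : IsGauss μ σ) {t : (Fin m → ℂ) → ℝ} (ht : Measurable t)
    (h0 : ∀ w, 0 ≤ t w) (h1 : ∀ w, t w ≤ 1) (h2 : ∀ᵐ w ∂μ, t w < 1) {η : ℝ} (hη : 0 < η) :
    ∃ n : ℕ, 1 ≤ n ∧ 1 - η ≤ ∫ w, (1 - t w ^ n) ∂μ := by
  have := weight_fin hG
  have hb : ∀ (n : ℕ) w, ‖t w ^ n‖ ≤ 1 := fun n w => by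
    rw [Real.norm_of_nonneg (pow_nonneg (h0 w) n)]
    exact pow_le_one₀ (h0 w) (h1 w)
  have hm : ∀ n : ℕ, AEStronglyMeasurable (fun w => t w ^ n) μ := fun n =>
    (ht.pow_const n).aestronglyMeasurable
  have hl := tendsto_integral_of_dominated_convergence (μ := μ) (F := fun n w => t w ^ n)
    (f := fun _ => (0 : ℝ)) (fun _ => 1) hm (integrable_const 1)
    (fun n => Filter.Eventually.of_forall (hb n))
    (h2.mono fun w hw => tendsto_pow_atTop_nhds_zero_of_lt_one (h0 w) hw)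
  rw [integral_zero] at hl
  obtain ⟨n, hn, hn1⟩ := ((hl.eventually (gt_mem_nhds hη)).and (Filter.eventually_ge_atTop 1)).exists
  refine ⟨n, hn1, ?_⟩
  have hi : Integrable (fun w => t w ^ n) μ :=
    (integrable_const (1 : ℝ)).mono' (hm n) (Filter.Eventually.of_forall (hb n))
  rw [integral_sub (integrable_const 1) hi, weight_one hG]
  linarith

theorem weight_mean (hG : IsGauss μ σ) {d : ℕ} {φ : P m} (h : Bi d d φ) :
    mean σ d φ = ∫ w, ev w (φ * R m ^ d) / ev w (R m) ^ (2 * d) ∂μ := by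
  have h1 : Bi (2 * d) (2 * d) (φ * R m ^ d) := by
    rw [two_mul]
    exact h.mul (bi_R_pow d)
  rw [hG.cone _ _ h1, mean, Z]
  push_cast
  rfl

/-- A weight divisible by `ρ` whose mean is close to one. -/
theorem exists_weight (hG : IsGauss μ σ) (hm : 1 ≤ m) {E : ℕ} {ρ : P m} (h1 : Bi E E ρ)
    (h2 : bar ρ = ρ) (h3 : ∀ w, 0 ≤ (ev w ρ).re) {Δ : MvPolynomial (Fin m) ℂ} (h4 : Δ ≠ 0)
    (h5 : ∀ w, eval w Δ ≠ 0 → ev w ρ ≠ 0) {η : ℝ} (hη : 0 < η) :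
    ∃ d₀, ∀ d, d₀ ≤ d → ∃ q : P m, E ≤ d ∧ Bi (d - E) (d - E) q ∧ bar q = q ∧
      (∀ w, 0 ≤ (ev w (q * ρ)).re ∧ (ev w (q * ρ)).re ≤ (∑ a, ‖w a‖ ^ 2) ^ d) ∧
      1 - η ≤ (mean σ d (q * ρ)).re := by
  obtain ⟨c, hc, hb⟩ := h1.bound
  obtain ⟨S, hS⟩ : ∃ S : (Fin m → ℂ) → ℝ, ∀ w, S w = ∑ a, ‖w a‖ ^ 2 := ⟨_, fun _ => rfl⟩
  obtain ⟨r, hr⟩ : ∃ r : (Fin m → ℂ) → ℝ, ∀ w, r w = (ev w ρ).re := ⟨_, fun _ => rfl⟩
  simp only [← hS] at hb ⊢
  have S0 : ∀ w, 0 ≤ S w := fun w => by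
    rw [hS]
    exact sum_nonneg fun a _ => sq_nonneg _
  have hR : ∀ w, ev w (R m) = (S w : ℂ) := fun w => by rw [hS, ev_R]
  have hre : ∀ w, ev w ρ = (r w : ℂ) := fun w => by
    have h := ev_bar w ρ
    rw [h2] at h
    rw [hr]
    exact (Complex.conj_eq_iff_re.1 h.symm).symm
  have r0 : ∀ w, 0 ≤ r w := fun w => by
    rw [hr]
    exact h3 w
  have r1 : ∀ w, r w ≤ c * S w ^ E := fun w => by
    have h := hb w
    rwa [hre, Complex.norm_real, Real.norm_of_nonneg (r0 w)] at h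
  have mS : Measurable S := by
    have h : S = fun w => ∑ a, ‖w a‖ ^ 2 := funext hS
    rw [h]
    fun_prop
  have mr : Measurable r := by
    have h : r = fun w => (ev w ρ).re := funext hr
    rw [h]
    exact (Complex.continuous_re.comp (continuous_ev ρ)).measurable
  have aS : ∀ᵐ w ∂μ, 0 < S w := by
    refine (hG.null (X ⟨0, hm⟩) (X_ne_zero _)).mono fun w hw => ?_
    rw [eval_X] at hw
    rw [hS]
    exact sum_pos' (fun a _ => sq_nonneg _) ⟨_, mem_univ _, pow_pos (norm_pos_iff.2 hw) 2⟩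
  have ar : ∀ᵐ w ∂μ, 0 < r w := by
    refine (hG.null Δ h4).mono fun w hw => (r0 w).lt_of_ne fun h => h5 w hw ?_
    rw [hre, ← h, Complex.ofReal_zero]
  have hcS : ∀ w, 0 ≤ c * S w ^ E := fun w => mul_nonneg hc.le (pow_nonneg (S0 w) E)
  obtain ⟨n, hn, hlim⟩ := weight_lim hG (t := fun w => 1 - r w / (c * S w ^ E))
    (measurable_const.sub (mr.div ((mS.pow_const E).const_mul c)))
    (fun w => sub_nonneg.2 (div_le_one_of_le₀ (r1 w) (hcS w)))
    (fun w => sub_le_self _ (div_nonneg (r0 w) (hcS w)))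
    ((aS.and ar).mono fun w hw => sub_lt_self _ (div_pos hw.2 (mul_pos hc (pow_pos hw.1 E)))) hη
  refine ⟨n * E, fun d hd => ?_⟩
  obtain ⟨k, rfl⟩ := Nat.exists_eq_add_of_le hd
  obtain ⟨n, rfl⟩ := Nat.exists_eq_add_of_le' hn
  obtain ⟨ψ, hψ⟩ : ∃ ψ : P m, ψ = R m ^ E - C ((c⁻¹ : ℝ) : ℂ) * ρ := ⟨_, rfl⟩
  have bψ : Bi E E ψ := by
    rw [hψ]
    exact (bi_R_pow E).sub (h1.C_mul _)
  have cψ : bar ψ = ψ := by
    rw [hψ, map_sub, map_pow, map_mul, bar_R, bar_C, h2, Complex.conj_ofReal]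
  have eψ : ∀ w, ev w ψ = ((S w ^ E - c⁻¹ * r w : ℝ) : ℂ) := fun w => by
    rw [hψ, map_sub, map_pow, map_mul, hR, ev_C, hre]
    push_cast
    rfl
  have hdE : (n + 1) * E + k - E = n * E + k := by
    rw [add_mul, one_mul]
    omega
  obtain ⟨q, hq⟩ : ∃ q : P m, q = C ((c⁻¹ : ℝ) : ℂ) *
      ((∑ i ∈ range (n + 1), (R m ^ E) ^ i * ψ ^ (n + 1 - 1 - i)) * R m ^ k) := ⟨_, rfl⟩
  have bq : Bi (n * E + k) (n * E + k) q := by
    rw [hq]
    refine ((bi_sum fun i hi => ?_).mul (bi_R_pow k)).C_mul _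
    have h := ((bi_R_pow (m := m) E).pow i).mul (bψ.pow (n + 1 - 1 - i))
    have e : i * E + (n + 1 - 1 - i) * E = n * E := by
      rw [← add_mul]
      congr 1
      have := mem_range.1 hi
      omega
    rwa [e] at h
  have hqρ : q * ρ = ((R m ^ E) ^ (n + 1) - ψ ^ (n + 1)) * R m ^ k := by
    rw [← geom_sum₂_mul, hq]
    have e : R m ^ E - ψ = C ((c⁻¹ : ℝ) : ℂ) * ρ := by
      rw [hψ]
      ring
    rw [e]
    ring
  have eq : ∀ w, ev w (q * ρ) =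
      ((((S w ^ E) ^ (n + 1) - (S w ^ E - c⁻¹ * r w) ^ (n + 1)) * S w ^ k : ℝ) : ℂ) := fun w => by
    rw [hqρ, map_mul, map_sub, map_pow, map_pow, map_pow, map_pow, hR, eψ]
    push_cast
    rfl
  refine ⟨q, ?_, ?_, ?_, fun w => ?_, ?_⟩
  · rw [add_mul, one_mul]
    omega
  · rw [hdE]
    exact bq
  · rw [hq]
    simp only [map_mul, map_sum, map_pow, bar_R, bar_C, cψ, Complex.conj_ofReal]
  · have p0 : 0 ≤ c⁻¹ * r w := mul_nonneg (inv_nonneg.2 hc.le) (r0 w)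
    have p1 : 0 ≤ S w ^ E - c⁻¹ * r w := by
      rw [sub_nonneg, inv_mul_le_iff₀ hc]
      exact r1 w
    have p2 := pow_le_pow_left₀ p1 (sub_le_self _ p0) (n + 1)
    have p3 := pow_nonneg p1 (n + 1)
    have p4 := pow_nonneg (S0 w) k
    rw [eq, Complex.ofReal_re]
    refine ⟨mul_nonneg (sub_nonneg.2 p2) p4, ?_⟩
    rw [pow_add (S w) ((n + 1) * E), mul_comm (n + 1) E, pow_mul]
    exact mul_le_mul_of_nonneg_right (sub_le_self _ p3) p4
  · have bqρ : Bi ((n + 1) * E + k) ((n + 1) * E + k) (q * ρ) := by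
      have h := bq.mul h1
      have e : n * E + k + E = (n + 1) * E + k := by ring
      rwa [e] at h
    have hae : ∀ᵐ w ∂μ, ev w (q * ρ * R m ^ ((n + 1) * E + k)) /
        ev w (R m) ^ (2 * ((n + 1) * E + k)) =
        ((1 - (1 - r w / (c * S w ^ E)) ^ (n + 1) : ℝ) : ℂ) := by
      refine aS.mono fun w hw => ?_
      rw [map_mul, eq, map_pow, hR, ← Complex.ofReal_pow, ← Complex.ofReal_pow,
        ← Complex.ofReal_mul, ← Complex.ofReal_div]
      congr 1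
      have hE : S w ^ E ≠ 0 := (pow_pos hw E).ne'
      have hk : S w ^ k ≠ 0 := (pow_pos hw k).ne'
      have e1 : 1 - r w / (c * S w ^ E) = (S w ^ E - c⁻¹ * r w) / S w ^ E := by
        field_simp
      have e2 : S w ^ ((n + 1) * E + k) = (S w ^ E) ^ (n + 1) * S w ^ k := by
        rw [pow_add, mul_comm (n + 1) E, pow_mul]
      rw [e1, div_pow, two_mul, pow_add (S w) ((n + 1) * E + k), e2]
      generalize (S w ^ E - c⁻¹ * r w) ^ (n + 1) = y
      field_simp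
    rw [weight_mean hG bqρ, integral_congr_ae hae, integral_complex_ofReal, Complex.ofReal_re]
    exact hlim

end Pool.Agent.Lib.MP_7906d6_an.Q
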