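import Pool.Agent.Lib.MP_7906d6_an.Q.Gram
import Pool.Agent.Lib.MP_7906d6_an.Q.Weight

/-!
Polynomial multiples of the orthogonal projection onto the span of a family.
-/

namespace Pool.Agent.Lib.MP_7906d6_an.Q

open MvPolynomial MeasureTheory Finset Matrix
open scoped ComplexConjugate

variable {m : ℕ}

variable {μ : Measure (Fin m → ℂ)} {σ : P m →ₗ[ℂ] ℂ} {ι A : Type} [Fintype ι] [Fintype A]

/-- A weighted projection onto the span of the family `x`. -/
structure IsProj (d : ℕ) (x : A → ι → MvPolynomial (Fin m) ℂ) (W : Matrix ι ι (P m)) : Prop where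
  bi : ∀ o o', Bi d d (W o o')
  fac : ∃ B : A → ι → P m, ∀ o o', W o o' = ∑ a, hol (x a o) * B a o'
  herm : ∀ o o', bar (W o o') = W o' o
  sq : ∀ w, ∃ χ : ℝ, 0 ≤ χ ∧ χ ≤ (∑ a, ‖w a‖ ^ 2) ^ d ∧
    ∀ o o', ∑ p, ev w (W o p) * ev w (W p o') = χ * ev w (W o o')

theorem exists_proj (hG : IsGauss μ σ) (hm : 1 ≤ m) {x : A → ι → MvPolynomial (Fin m) ℂ} {e : ℕ}
    (hx : ∀ a o, (x a o).IsHomogeneous e) {w₀ : Fin m → ℂ}
    (hi : LinearIndependent ℂ fun a o => eval w₀ (x a o)) {η : ℝ} (hη : 0 < η) :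
    ∃ d₀, ∀ d, d₀ ≤ d → ∃ W, IsProj d x W ∧
      (1 - η) * Fintype.card A ≤ (∑ o, mean σ d (W o o)).re := by
  obtain ⟨E, ρ, W, Δ, g1, g2, g3, ⟨B, g4⟩, g5, g6, g7, g8, g9, g10⟩ := exists_gram hx hi
  obtain ⟨d₀, hd⟩ := exists_weight hG hm g1 g2 g8 g9 g10 hη
  refine ⟨d₀, fun d hd₀ => ?_⟩
  obtain ⟨q, k1, k2, k3, k4, k5⟩ := hd d hd₀
  refine ⟨fun o o' => q * W o o', ⟨fun o o' => ?_, ⟨fun a o' => q * B a o', fun o o' => ?_⟩,
    fun o o' => ?_, fun w => ⟨(ev w (q * ρ)).re, (k4 w).1, (k4 w).2, fun o o' => ?_⟩⟩, ?_⟩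
  · have h := k2.mul (g3 o o')
    rwa [Nat.sub_add_cancel k1] at h
  · rw [g4, mul_sum]
    exact sum_congr rfl fun a _ => by ring
  · rw [map_mul, k3, g5]
  · have h1 : conj (ev w (q * ρ)) = ev w (q * ρ) := by rw [← ev_bar, map_mul, k3, g2]
    have h2 := congrArg (ev w) (g6 o o')
    rw [map_sum, map_mul] at h2
    simp only [map_mul (ev w) (W o _)] at h2
    rw [Complex.conj_eq_iff_re.1 h1]
    simp only [map_mul]
    calc _ = ev w q * ev w q * ∑ p, ev w (W o p) * ev w (W p o') := by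
          rw [mul_sum]
          exact sum_congr rfl fun p _ => by ring
      _ = _ := by
          rw [h2]
          ring
  · have h1 : ∑ o, mean σ d (q * W o o) = (Fintype.card A : ℂ) * mean σ d (q * ρ) := by
      unfold mean
      rw [← sum_div, ← map_sum, ← sum_mul, ← mul_sum, g7, mul_smul_comm, smul_mul_assoc, map_smul,
        smul_eq_mul, mul_div_assoc]
    rw [h1, ← Complex.ofReal_natCast, Complex.re_ofReal_mul, mul_comm]
    exact mul_le_mul_of_nonneg_left k5 (Nat.cast_nonneg _)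

end Pool.Agent.Lib.MP_7906d6_an.Q
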