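import Pool.Agent.Lib.MP_7906d6_an.Q.Key

/-!
Harmonic parts of vector valued polynomials.
-/

namespace Pool.Agent.Lib.MP_7906d6_an.Q

open MvPolynomial MeasureTheory Finset Matrix
open scoped ComplexConjugate

variable {m : ℕ}

variable {μ : Measure (Fin m → ℂ)} {σ : P m →ₗ[ℂ] ℂ} {ι : Type} [Fintype ι]

theorem ev_pair (w : Fin m → ℂ) (φ ψ : ι → P m) :
    ev w (∑ o, φ o * bar (ψ o)) = ∑ o, ev w (φ o) * conj (ev w (ψ o)) := by
  simp only [map_sum, map_mul, ev_bar]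

theorem lin_C_mul (σ : P m →ₗ[ℂ] ℂ) (c : ℂ) (φ : P m) : σ (C c * φ) = c * σ φ := by
  rw [← smul_eq_C_mul, map_smul, smul_eq_mul]

theorem har_one : Har 0 (1 : P m) := ⟨by simpa using bi_C (m := m) 1, by simp [Lam]⟩

theorem one_part (hσ : Stein σ) {d k : ℕ} (hk : k ∈ range (d + 1)) {h : P m} (hh : Har k h)
    {K : ℕ → P m} (hK : ∀ k, Har k (K k)) :
    σ (R m ^ (d - k) * h * bar (∑ k ∈ range (d + 1), R m ^ (d - k) * K k)) =
      σ (R m ^ (d - k) * h * bar (R m ^ (d - k) * K k)) := by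
  rw [map_sum, mul_sum, map_sum]
  refine sum_eq_single_of_mem k hk fun k' _ hne => ?_
  rw [← hσ.orth hh (hK k').bar hne.symm (d - k + (d - k')), map_mul bar, map_pow, bar_R]
  congr 1
  ring

theorem mean_eq (hσ : Stein σ) (h1 : σ 1 = 1) (hm : 1 ≤ m) {d : ℕ} {H : ℕ → P m}
    (hH : ∀ k, Har k (H k)) {c : ℂ} (hc : H 0 = C c) :
    mean σ d (∑ k ∈ range (d + 1), R m ^ (d - k) * H k) = c := by
  have hZ : (Z m d : ℂ) ≠ 0 := by exact_mod_cast (Z_pos hm d).ne'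
  rw [mean, sum_mul, map_sum, sum_eq_single_of_mem 0 (mem_range.2 d.succ_pos) fun k _ hk => ?_,
    hc, div_eq_iff hZ, ← hσ.R_pow h1 d, ← lin_C_mul]
  · congr 1
    rw [Nat.sub_zero]
    ring
  · rw [← hσ.orth (hH k) har_one hk (d - k + d)]
    congr 1
    ring

theorem IsGauss.sq_nonneg (hG : IsGauss μ σ) (φ : ι → P m) :
    0 ≤ (σ (∑ o, φ o * bar (φ o))).re ∧ (σ (∑ o, φ o * bar (φ o))).im = 0 := by
  have e : σ (∑ o, φ o * bar (φ o)) = ((∫ w, ∑ o, ‖ev w (φ o)‖ ^ 2 ∂μ : ℝ) : ℂ) := by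
    rw [hG.eq, ← integral_complex_ofReal]
    refine integral_congr_ae (Filter.Eventually.of_forall fun w => ?_)
    simp only [ev_pair, Complex.mul_conj']
    push_cast
    rfl
  rw [e, Complex.ofReal_re, Complex.ofReal_im]
  exact ⟨integral_nonneg fun w => sum_nonneg fun o _ => by positivity, rfl⟩

theorem IsGauss.bar (hG : IsGauss μ σ) (φ : P m) : σ (bar φ) = conj (σ φ) := by
  rw [hG.eq, hG.eq, ← integral_conj]
  simp only [ev_bar]

theorem IsGauss.cs (hG : IsGauss μ σ) (φ ψ : ι → P m) :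
    ‖σ (∑ o, φ o * Q.bar (ψ o))‖ ^ 2 ≤
      (σ (∑ o, φ o * Q.bar (φ o))).re * (σ (∑ o, ψ o * Q.bar (ψ o))).re := by
  obtain ⟨a0, a1⟩ := hG.sq_nonneg φ
  obtain ⟨b0, b1⟩ := hG.sq_nonneg ψ
  have hc : σ (∑ o, ψ o * Q.bar (φ o)) = conj (σ (∑ o, φ o * Q.bar (ψ o))) := by
    rw [← hG.bar]
    simp only [map_sum, map_mul, bar_bar, mul_comm]
  have ex : ∀ t : ℂ, σ (∑ o, (φ o + C t * ψ o) * Q.bar (φ o + C t * ψ o)) =
      σ (∑ o, φ o * Q.bar (φ o)) + conj t * σ (∑ o, φ o * Q.bar (ψ o)) +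
        t * σ (∑ o, ψ o * Q.bar (φ o)) + t * conj t * σ (∑ o, ψ o * Q.bar (ψ o)) := fun t => by
    rw [← lin_C_mul, ← lin_C_mul, ← lin_C_mul, ← map_add, ← map_add, ← map_add, mul_sum, mul_sum,
      mul_sum, ← sum_add_distrib, ← sum_add_distrib, ← sum_add_distrib]
    refine congrArg σ (sum_congr rfl fun o _ => ?_)
    rw [map_add, map_mul, bar_C, C_mul]
    ring
  generalize σ (∑ o, φ o * Q.bar (ψ o)) = c at *
  generalize σ (∑ o, φ o * Q.bar (φ o)) = a at *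
  generalize σ (∑ o, ψ o * Q.bar (ψ o)) = b at *
  have h : ∀ s : ℝ, 0 ≤ (‖c‖ ^ 2 * b.re) * (s * s) + (2 * ‖c‖ ^ 2) * s + a.re := fun s => by
    have h1 := (hG.sq_nonneg fun o => φ o + C (s * c) * ψ o).1
    rw [ex, hc] at h1
    refine h1.trans (le_of_eq ?_)
    rw [← Complex.normSq_eq_norm_sq, Complex.normSq_apply]
    simp [b1]
    ring
  have h2 := discrim_le_zero h
  rw [discrim] at h2
  rcases (_root_.sq_nonneg ‖c‖).eq_or_lt with h3 | h3
  · rw [← h3]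
    exact mul_nonneg a0 b0
  · refine le_of_mul_le_mul_left ?_ h3
    linarith

/-- The pairing splits along the harmonic parts. -/
theorem IsGauss.parts (hG : IsGauss μ σ) (hm : 2 ≤ m) {d : ℕ} {H K : ι → ℕ → P m}
    (hH : ∀ o k, Har k (H o k)) (hK : ∀ o k, Har k (K o k)) {φ ψ : ι → P m}
    (hφ : ∀ o, φ o = ∑ k ∈ range (d + 1), R m ^ (d - k) * H o k)
    (hψ : ∀ o, ψ o = ∑ k ∈ range (d + 1), R m ^ (d - k) * K o k) {f : ℕ → ℂ}
    (hf : ∀ k, f k = σ (∑ o, (R m ^ (d - k) * H o k) * Q.bar (R m ^ (d - k) * K o k)) / Z m d) :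
    σ (∑ o, φ o * Q.bar (ψ o)) / Z m d = ∑ k ∈ range (d + 1), f k ∧
      f 0 = ∑ o, mean σ d (φ o) * conj (mean σ d (ψ o)) ∧
        ∀ j, 1 ≤ j → Van j φ ψ → ∑ k ∈ range (d + 1), (beta m j k : ℂ) * f k = 0 := by
  have hm1 : 1 ≤ m := by omega
  have hZ : (Z m d : ℂ) ≠ 0 := by exact_mod_cast (Z_pos hm1 d).ne'
  have e1 : ∀ k ∈ range (d + 1),
      f k = σ (∑ o, R m ^ (d - k) * H o k * Q.bar (ψ o)) / Z m d := fun k hk => by
    rw [hf, map_sum, map_sum]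
    exact congrArg (· / _) (sum_congr rfl fun o _ => by
      rw [hψ o, one_part hG.stein hk (hH o k) (hK o)])
  refine ⟨?_, ?_, fun j hj hv => ?_⟩
  · rw [sum_congr rfl e1, ← sum_div, ← map_sum, sum_comm]
    simp only [hφ, sum_mul]
  · choose c hc using fun o => (hH o 0).1.const
    choose c' hc' using fun o => (hK o 0).1.const
    rw [hf, map_sum, sum_div]
    refine sum_congr rfl fun o _ => ?_
    rw [hφ o, hψ o, mean_eq hG.stein hG.one hm1 (hH o) (hc o),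
      mean_eq hG.stein hG.one hm1 (hK o) (hc' o), div_eq_iff hZ, ← hG.stein.R_pow hG.one d,
      ← lin_C_mul, hc, hc', map_mul Q.bar, map_pow, bar_R, bar_C, C_mul, Nat.sub_zero]
    congr 1
    ring
  · have e2 : σ (∑ k ∈ range (d + 1),
        C (beta m j k : ℂ) * ∑ o, R m ^ (d - k) * H o k * Q.bar (ψ o)) = 0 := by
      rw [hG.eq]
      refine integral_eq_zero_of_ae ?_
      filter_upwards [hG.null (X ⟨0, hm1⟩) (X_ne_zero _)] with u hu
      have hu0 : u ≠ 0 := fun h => hu (by simp [h])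
      obtain ⟨θ, hθ⟩ := hv u
      have e3 := key hG.stein hG.one hm hu0 (d := d) hj
        (H := fun k => ∑ o, C (conj (ev u (ψ o))) * H o k)
        (fun k => har_comb (fun o => hH o k) _) (θ := θ) (by
          rw [← hθ]
          simp only [mul_sum]
          rw [sum_comm]
          refine sum_congr rfl fun o _ => ?_
          rw [hφ o, mul_sum]
          exact sum_congr rfl fun k _ => by ring)
      rw [Pi.zero_apply, ← e3, map_sum]
      refine sum_congr rfl fun k _ => ?_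
      simp only [map_mul, map_sum, ev_C, ev_bar, mul_sum]
      exact sum_congr rfl fun o _ => by ring
    rw [map_sum] at e2
    rw [sum_congr rfl fun k hk => by rw [e1 k hk, ← mul_div_assoc, ← lin_C_mul], ← sum_div, e2,
      zero_div]

/-- The spectral data of two vector valued polynomials. -/
theorem IsGauss.spec (hG : IsGauss μ σ) (hm : 2 ≤ m) {d : ℕ} {φ ψ : ι → P m}
    (hφ : ∀ o, Bi d d (φ o)) (hψ : ∀ o, Bi d d (ψ o)) :
    ∃ (a b : ℕ → ℝ) (f : ℕ → ℂ), (∀ k, 0 ≤ a k) ∧ (∀ k, 0 ≤ b k) ∧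
      (∀ k, ‖f k‖ ^ 2 ≤ a k * b k) ∧
      ∑ k ∈ range (d + 1), a k = nrm σ d φ ∧ ∑ k ∈ range (d + 1), b k = nrm σ d ψ ∧
      a 0 = ∑ o, ‖mean σ d (φ o)‖ ^ 2 ∧ b 0 = ∑ o, ‖mean σ d (ψ o)‖ ^ 2 ∧
      f 0 = ∑ o, mean σ d (φ o) * conj (mean σ d (ψ o)) ∧
      (∀ j, 1 ≤ j → Van j φ φ → ∑ k ∈ range (d + 1), beta m j k * a k = 0) ∧
      (∀ j, 1 ≤ j → Van j ψ ψ → ∑ k ∈ range (d + 1), beta m j k * b k = 0) ∧
      ∀ j, 1 ≤ j → Van j φ ψ → ∑ k ∈ range (d + 1), (beta m j k : ℂ) * f k = 0 := by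
  have hm1 : 1 ≤ m := by omega
  have hZ := Z_pos hm1 d
  choose H hH hφ' using fun o => decomp hm1 (hφ o)
  choose K hK hψ' using fun o => decomp hm1 (hψ o)
  have dg : ∀ {χ : ι → P m} {G : ι → ℕ → P m}, (∀ o k, Har k (G o k)) →
      (∀ o, χ o = ∑ k ∈ range (d + 1), R m ^ (d - k) * G o k) → ∀ a : ℕ → ℝ,
      (∀ k, a k = nrm σ d fun o => R m ^ (d - k) * G o k) →
      (∀ k, 0 ≤ a k) ∧ ∑ k ∈ range (d + 1), a k = nrm σ d χ ∧
        a 0 = ∑ o, ‖mean σ d (χ o)‖ ^ 2 ∧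
        ∀ j, 1 ≤ j → Van j χ χ → ∑ k ∈ range (d + 1), beta m j k * a k = 0 := by
    intro χ G hG' hχ a ha
    have re : ∀ ξ : ι → P m, ((nrm σ d ξ : ℝ) : ℂ) = σ (∑ o, ξ o * Q.bar (ξ o)) / Z m d :=
      fun ξ => by
        rw [nrm, Complex.ofReal_div]
        exact congrArg (· / _) (Complex.ext (Complex.ofReal_re _)
          ((Complex.ofReal_im _).trans (hG.sq_nonneg ξ).2.symm))
    obtain ⟨p1, p2, p3⟩ := hG.parts hm hG' hG' hχ hχ (f := fun k => (a k : ℂ))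
      fun k => by rw [ha, re]
    refine ⟨fun k => ?_, ?_, ?_, fun j hj hv => ?_⟩
    · rw [ha]
      exact div_nonneg (hG.sq_nonneg _).1 hZ.le
    · rw [← re] at p1
      exact_mod_cast p1.symm
    · simp only [Complex.mul_conj'] at p2
      exact_mod_cast p2
    · exact_mod_cast p3 j hj hv
  obtain ⟨a1, a2, a3, a4⟩ := dg hH hφ' _ fun _ => rfl
  obtain ⟨b1, b2, b3, b4⟩ := dg hK hψ' _ fun _ => rfl
  obtain ⟨-, c2, c3⟩ := hG.parts hm hH hK hφ' hψ' fun _ => rfl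
  refine ⟨_, _, _, a1, b1, fun k => ?_, a2, b2, a3, b3, c2, a4, b4, c3⟩
  rw [norm_div, div_pow, Complex.norm_real, Real.norm_of_nonneg hZ.le, nrm, nrm, div_mul_div_comm,
    ← sq]
  exact div_le_div_of_nonneg_right (hG.cs _ _) (by positivity)

end Pool.Agent.Lib.MP_7906d6_an.Q
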