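import Pool.Agent.Lib.MP_7906d6_an.Q.Spec
import Pool.Agent.Lib.MP_7906d6_an.Q.Proj

/-!
Weighted projections applied to a vector.
-/

namespace Pool.Agent.Lib.MP_7906d6_an.Q

open MvPolynomial MeasureTheory Finset Matrix
open scoped ComplexConjugate

variable {m : ℕ}

variable {μ : Measure (Fin m → ℂ)} {σ : P m →ₗ[ℂ] ℂ} {ι A B : Type} [Fintype ι] [Fintype A]
  [Fintype B]

/-- The pairing of `x(w)` with `y(u)` has the factor `(w ⬝ conj u) ^ j`. -/
def HV (j : ℕ) (x : A → ι → MvPolynomial (Fin m) ℂ) (y : B → ι → MvPolynomial (Fin m) ℂ) : Prop :=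
  ∀ a b u, ∃ θ : P m, ∑ o, C (conj (eval u (y b o))) * hol (x a o) = ell u ^ j * θ

theorem IsProj.van {d j : ℕ} {x : A → ι → MvPolynomial (Fin m) ℂ}
    {y : B → ι → MvPolynomial (Fin m) ℂ} {W W' : Matrix ι ι (P m)} (h : IsProj d x W)
    (h' : IsProj d y W') (hv : HV j x y) (v : ι → ℂ) :
    Van j (fun o => ∑ p, W o p * C (v p)) fun o => ∑ p, W' o p * C (v p) := by
  intro u
  obtain ⟨S, hS⟩ := h.fac
  obtain ⟨S', hS'⟩ := h'.fac
  choose θ hθ using fun a b => hv a b u
  refine ⟨∑ a, ∑ b, θ a b * (C (conj (ev u (∑ p, S' b p * C (v p)))) * ∑ p, S a p * C (v p)), ?_⟩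
  have e1 : ∀ o, ∑ p, W o p * C (v p) = ∑ a, hol (x a o) * ∑ p, S a p * C (v p) := fun o => by
    simp only [hS, sum_mul, mul_sum, mul_assoc]
    exact sum_comm
  have e2 : ∀ o, ∑ p, W' o p * C (v p) = ∑ b, hol (y b o) * ∑ p, S' b p * C (v p) := fun o => by
    simp only [hS', sum_mul, mul_sum, mul_assoc]
    exact sum_comm
  simp only [e1, e2]
  have e3 : ∀ o, C (conj (ev u (∑ b, hol (y b o) * ∑ p, S' b p * C (v p)))) *
      ∑ a, hol (x a o) * ∑ p, S a p * C (v p) =
      ∑ a, ∑ b, C (conj (eval u (y b o))) * hol (x a o) *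
        (C (conj (ev u (∑ p, S' b p * C (v p)))) * ∑ p, S a p * C (v p)) := fun o => by
    rw [mul_sum]
    refine sum_congr rfl fun a _ => ?_
    rw [map_sum, map_sum, map_sum, sum_mul]
    refine sum_congr rfl fun b _ => ?_
    rw [map_mul, map_mul, map_mul, ev_hol]
    ring
  simp only [e3]
  rw [sum_comm, mul_sum]
  refine sum_congr rfl fun a _ => ?_
  rw [sum_comm, mul_sum]
  refine sum_congr rfl fun b _ => ?_
  rw [← sum_mul, hθ, mul_assoc]

theorem IsProj.isHermitian (hG : IsGauss μ σ) {d : ℕ} {x : A → ι → MvPolynomial (Fin m) ℂ}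
    {W : Matrix ι ι (P m)} (h : IsProj d x W) :
    (Matrix.of fun o p => mean σ d (W o p)).IsHermitian := by
  ext o p
  rw [conjTranspose_apply, of_apply, of_apply, mean, mean, ← h.herm p o, star_div₀]
  have e1 : Q.bar (W p o) * R m ^ d = Q.bar (W p o * R m ^ d) := by
    rw [map_mul, map_pow, bar_R]
  rw [e1, hG.bar]
  simp

theorem mean_mulVec (d : ℕ) (W : Matrix ι ι (P m)) (v : ι → ℂ) (o : ι) :
    mean σ d (∑ p, W o p * C (v p)) = ((Matrix.of fun o p => mean σ d (W o p)) *ᵥ v) o := by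
  rw [mean, sum_mul, map_sum, sum_div, mulVec, dotProduct]
  refine sum_congr rfl fun p _ => ?_
  rw [of_apply, mean, mul_right_comm, mul_comm _ (C (v p)), C_mul', map_smul, smul_eq_mul]
  ring

theorem IsProj.nrm_le (hG : IsGauss μ σ) (hm : 1 ≤ m) {d : ℕ}
    {x : A → ι → MvPolynomial (Fin m) ℂ} {W : Matrix ι ι (P m)} (h : IsProj d x W) (v : ι → ℂ) :
    nrm σ d (fun o => ∑ p, W o p * C (v p)) ≤
      (star v ⬝ᵥ (Matrix.of fun o p => mean σ d (W o p)) *ᵥ v).re := by
  have hZ := Z_pos hm d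
  set Y : P m := ∑ o, C (conj (v o)) * ∑ p, W o p * C (v p) with hQ
  have e1 : star v ⬝ᵥ (Matrix.of fun o p => mean σ d (W o p)) *ᵥ v = σ (Y * R m ^ d) / Z m d := by
    rw [hQ, sum_mul, map_sum, sum_div, dotProduct]
    refine sum_congr rfl fun o _ => ?_
    rw [← mean_mulVec, mean, mul_assoc, C_mul', map_smul, smul_eq_mul, mul_div_assoc]
    rfl
  rw [e1, nrm, Complex.div_ofReal_re]
  refine div_le_div_of_nonneg_right ?_ hZ.le
  rw [hG.eq, hG.eq]
  have r1 : ∀ φ : P m, (∫ w, ev w φ ∂μ).re = ∫ w, (ev w φ).re ∂μ := fun φ =>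
    (integral_re (hG.int φ)).symm
  rw [r1, r1]
  refine integral_mono (hG.int _).re (hG.int _).re fun w => ?_
  obtain ⟨χ, h0, h1, h2⟩ := h.sq w
  have hc : ∀ o p, conj (ev w (W o p)) = ev w (W p o) := fun o p => by
    rw [← ev_bar, h.herm]
  have e2 : ev w (∑ o, (∑ p, W o p * C (v p)) * Q.bar (∑ p, W o p * C (v p))) = χ * ev w Y := by
    simp only [hQ, map_sum, map_mul, ev_bar, ev_C, hc, mul_sum, sum_mul]
    rw [sum_comm]
    refine sum_congr rfl fun q _ => ?_
    rw [sum_comm]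
    refine sum_congr rfl fun p _ => ?_
    have e3 : (χ : ℂ) * (conj (v q) * (ev w (W q p) * v p)) =
        (χ * ev w (W q p)) * (conj (v q) * v p) := by ring
    rw [e3, ← h2, sum_mul]
    exact sum_congr rfl fun o _ => by ring
  have e4 : 0 ≤ (ev w (∑ o, (∑ p, W o p * C (v p)) * Q.bar (∑ p, W o p * C (v p)))).re := by
    rw [map_sum, Complex.re_sum]
    refine sum_nonneg fun o _ => ?_
    rw [map_mul, ev_bar, Complex.mul_conj, Complex.ofReal_re]
    exact Complex.normSq_nonneg _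
  have e5 : 0 ≤ (ev w Y).re := by
    rcases h0.eq_or_lt with h3 | h3
    · have e6 : ∀ o p, ev w (W o p) = 0 := fun o p => by
        have e7 := h2 o o
        rw [← h3, Complex.ofReal_zero, zero_mul] at e7
        have e8 : ∑ p, Complex.normSq (ev w (W o p)) = 0 := by
          have e9 : ((∑ p, Complex.normSq (ev w (W o p)) : ℝ) : ℂ) = 0 := by
            rw [← e7, Complex.ofReal_sum]
            exact sum_congr rfl fun p _ => by rw [← Complex.mul_conj, hc]
          exact_mod_cast e9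
        exact Complex.normSq_eq_zero.1
          ((sum_eq_zero_iff_of_nonneg fun p _ => Complex.normSq_nonneg _).1 e8 p (mem_univ p))
      simp [hQ, map_sum, map_mul, e6]
    · rw [e2, Complex.re_ofReal_mul] at e4
      exact (mul_nonneg_iff_of_pos_left h3).1 e4
  show (ev w _).re ≤ (ev w (Y * R m ^ d)).re
  rw [e2, map_mul, map_pow, ev_R, ← Complex.ofReal_pow, mul_comm (ev w Y), Complex.re_ofReal_mul,
    Complex.re_ofReal_mul]
  exact mul_le_mul_of_nonneg_right h1 e5

end Pool.Agent.Lib.MP_7906d6_an.Q
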